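import Pool.Agent.Lib.MP_8f66f0_al_BB.Qd

/-!
# The bimodules `PM (Qd D)` are retracts of induced bimodules (project GLn, part BB)
-/

set_option autoImplicit false
set_option linter.unusedSectionVars false

namespace Pool.Agent.BB

open Pool.Agent.HierR

/-! ### Free left modules with a monomial right action -/

/-- A right action of `S` on a free left `ℤ[S]`-module which permutes the basis up to coefficients
(and `0`). -/
structure RA (S B : Type) [Monoid S] where
  /-- the action on the basis elements -/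
  act : B → S → Option (MonoidAlgebra ℤ S × B)
  act_one : ∀ b, act b 1 = some (1, b)
  act_mul : ∀ b s t, act b (s * t) =
    (act b s).bind fun u => (act u.2 t).map fun v => (u.1 * v.1, v.2)

/-- The free left module. -/
def NR {S B : Type} [Monoid S] (_ : RA S B) : Type := B →₀ MonoidAlgebra ℤ S

section NR

variable {S B : Type} [Monoid S] (R : RA S B)

noncomputable instance : AddCommGroup (NR R) :=
  inferInstanceAs (AddCommGroup (B →₀ MonoidAlgebra ℤ S))

noncomputable instance : Module (MonoidAlgebra ℤ S) (NR R) :=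
  inferInstanceAs (Module (MonoidAlgebra ℤ S) (B →₀ MonoidAlgebra ℤ S))

/-- The elements of the free module with one coordinate. -/
noncomputable def NR.sg (b : B) (r : MonoidAlgebra ℤ S) : NR R := Finsupp.single b r

variable {R}

theorem NR.sg_add (b : B) (r r' : MonoidAlgebra ℤ S) :
    NR.sg R b (r + r') = NR.sg R b r + NR.sg R b r' := Finsupp.single_add _ _ _

theorem NR.sg_zero (b : B) : NR.sg R b 0 = 0 := Finsupp.single_zero _

theorem NR.smul_sg (a : MonoidAlgebra ℤ S) (b : B) (r : MonoidAlgebra ℤ S) :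
    a • NR.sg R b r = NR.sg R b (a * r) := Finsupp.smul_single _ _ _

theorem NR.ind {p : NR R → Prop} (h0 : p 0) (ha : ∀ x y, p x → p y → p (x + y))
    (hs : ∀ b r, p (NR.sg R b r)) (x : NR R) : p x :=
  Finsupp.induction_linear (motive := p) x h0 ha hs

theorem NR.hom_ext {A : Type} [AddCommGroup A] {f g : NR R →+ A}
    (h : ∀ b r, f (NR.sg R b r) = g (NR.sg R b r)) : f = g := Finsupp.addHom_ext h

/-- Homomorphisms on the free module. -/
noncomputable def NR.lift {A : Type} [AddCommGroup A] (φ : B → MonoidAlgebra ℤ S →+ A) :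
    NR R →+ A := Finsupp.liftAddHom φ

theorem NR.lift_sg {A : Type} [AddCommGroup A] (φ : B → MonoidAlgebra ℤ S →+ A) (b : B)
    (r : MonoidAlgebra ℤ S) : NR.lift φ (NR.sg R b r) = φ b r :=
  Finsupp.liftAddHom_apply_single φ b r

variable (R)

/-- The homomorphism `r ↦ r u` to the coordinate. -/
noncomputable def NR.co (u : MonoidAlgebra ℤ S × B) : MonoidAlgebra ℤ S →+ NR R where
  toFun r := NR.sg R u.2 (r * u.1)
  map_zero' := by rw [zero_mul, NR.sg_zero]
  map_add' a b := by rw [add_mul, NR.sg_add]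

/-- The right action. -/
noncomputable def NR.ra (s : S) : NR R →+ NR R :=
  NR.lift fun b => (R.act b s).elim 0 (NR.co R)

theorem NR.ra_sg (s : S) (b : B) (r : MonoidAlgebra ℤ S) :
    NR.ra R s (NR.sg R b r) = (R.act b s).elim 0 fun u => NR.sg R u.2 (r * u.1) := by
  rw [NR.ra, NR.lift_sg]
  cases R.act b s <;> rfl

theorem NR.ra_one : NR.ra R (1 : S) = AddMonoidHom.id _ := by
  refine NR.hom_ext fun b r => ?_
  rw [NR.ra_sg, R.act_one]
  change NR.sg R b (r * 1) = NR.sg R b r
  rw [mul_one]

theorem NR.ra_mul (s t : S) : NR.ra R (s * t) = (NR.ra R t).comp (NR.ra R s) := by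
  refine NR.hom_ext fun b r => ?_
  rw [AddMonoidHom.comp_apply, NR.ra_sg, NR.ra_sg, R.act_mul]
  cases h : R.act b s with
  | none =>
    change (0 : NR R) = NR.ra R t 0
    rw [map_zero]
  | some u =>
    change ((R.act u.2 t).map fun v => (u.1 * v.1, v.2)).elim 0
      (fun u => NR.sg R u.2 (r * u.1)) = NR.ra R t (NR.sg R u.2 (r * u.1))
    rw [NR.ra_sg]
    cases R.act u.2 t with
    | none => rfl
    | some v =>
      change NR.sg R v.2 (r * (u.1 * v.1)) = NR.sg R v.2 (r * u.1 * v.1)
      rw [mul_assoc]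

noncomputable instance : DistribMulAction Sᵐᵒᵖ (NR R) where
  smul s m := NR.ra R s.unop m
  one_smul m := by
    change NR.ra R (1 : S) m = m
    rw [NR.ra_one]
    rfl
  mul_smul s t m := by
    change NR.ra R (t.unop * s.unop) m = NR.ra R s.unop (NR.ra R t.unop m)
    rw [NR.ra_mul]
    rfl
  smul_zero s := map_zero _
  smul_add s := map_add _

theorem NR.op_smul (s : S) (m : NR R) : MulOpposite.op s • m = NR.ra R s m := rfl

theorem NR.op_smul_sg (s : S) (b : B) (r : MonoidAlgebra ℤ S) :
    MulOpposite.op s • NR.sg R b r = (R.act b s).elim 0 fun u => NR.sg R u.2 (r * u.1) :=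
  NR.ra_sg R s b r

instance : SMulCommClass (MonoidAlgebra ℤ S) Sᵐᵒᵖ (NR R) where
  smul_comm a t m := by
    change a • NR.ra R t.unop m = NR.ra R t.unop (a • m)
    refine NR.ind (p := fun m => a • NR.ra R t.unop m = NR.ra R t.unop (a • m)) ?_ ?_ ?_ m
    · rw [map_zero, smul_zero, map_zero]
    · intro x y hx hy
      rw [map_add, smul_add, hx, hy, smul_add, map_add]
    · intro b r
      rw [NR.smul_sg, NR.ra_sg, NR.ra_sg]
      cases R.act b t.unop with
      | none => exact smul_zero _
      | some u =>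
        change a • NR.sg R u.2 (r * u.1) = NR.sg R u.2 (a * r * u.1)
        rw [NR.smul_sg, mul_assoc]

/-- The basis. -/
noncomputable def NR.basis : Module.Basis B (MonoidAlgebra ℤ S) (NR R) := Finsupp.basisSingleOne

theorem NR.basis_apply (b : B) : NR.basis R b = NR.sg R b 1 := by
  change (Finsupp.basisSingleOne : Module.Basis B (MonoidAlgebra ℤ S) (B →₀ MonoidAlgebra ℤ S)) b = _
  rw [Finsupp.coe_basisSingleOne]
  rfl

end NR

/-! ### The elements of `ℤ[Mo Γ P]` -/

section Hm

variable {Γ P : Type} [Group Γ] [PartialOrder P] [MulAction Γ P] [MonoAct Γ P]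

/-- The morphism `t` minus the zero element. -/
noncomputable def hm (t : Tri Γ P) : MonoidAlgebra ℤ (Mo Γ P) :=
  MonoidAlgebra.single (.mor t) 1 - MonoidAlgebra.single .zero 1

theorem single_mul_hm_pos {s t : Tri Γ P} (h : s.b = t.a) :
    MonoidAlgebra.single (Mo.mor s) (1 : ℤ) * hm t = hm (s.comp t h) := by
  rw [hm, mul_sub, MonoidAlgebra.single_mul_single, MonoidAlgebra.single_mul_single, Mo.mor_mul_mor,
    Mo.mul_zero', mulO_pos h, one_mul]
  rfl

theorem single_mul_hm_neg {s t : Tri Γ P} (h : ¬ s.b = t.a) :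
    MonoidAlgebra.single (Mo.mor s) (1 : ℤ) * hm t = 0 := by
  rw [hm, mul_sub, MonoidAlgebra.single_mul_single, MonoidAlgebra.single_mul_single, Mo.mor_mul_mor,
    Mo.mul_zero', mulO_neg h, one_mul]
  exact sub_self _

theorem zero_mul_hm (t : Tri Γ P) :
    MonoidAlgebra.single (Mo.zero : Mo Γ P) (1 : ℤ) * hm t = 0 := by
  rw [hm, mul_sub, MonoidAlgebra.single_mul_single, MonoidAlgebra.single_mul_single, Mo.zero_mul',
    Mo.zero_mul', sub_self]

theorem hm_mul_hm_pos {s t : Tri Γ P} (h : s.b = t.a) : hm s * hm t = hm (s.comp t h) := by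
  rw [hm, sub_mul, single_mul_hm_pos h, zero_mul_hm, sub_zero]

theorem hm_mul_hm_neg {s t : Tri Γ P} (h : ¬ s.b = t.a) : hm s * hm t = 0 := by
  rw [hm, sub_mul, single_mul_hm_neg h, zero_mul_hm, sub_zero]

/-- The endomorphism `g` of `p`. -/
def tr1 (p : P) (g : Γ) (h : g • p ≤ p) : Tri Γ P := ⟨p, g, p, h⟩

open Classical in
/-- The element `(p, g, p) + 1 - (p, 1, p)`. -/
noncomputable def et (p : P) (g : Γ) : MonoidAlgebra ℤ (Mo Γ P) :=
  if h : g • p ≤ p then hm ⟨p, g, p, h⟩ + 1 - hm ⟨p, 1, p, (one_smul Γ p).le⟩ else 1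

theorem et_of {p : P} {g : Γ} (h : g • p ≤ p) :
    (et p g : MonoidAlgebra ℤ (Mo Γ P)) = hm ⟨p, g, p, h⟩ + 1 - hm ⟨p, 1, p, (one_smul Γ p).le⟩ :=
  dif_pos h

theorem et_one (p : P) : (et p (1 : Γ) : MonoidAlgebra ℤ (Mo Γ P)) = 1 := by
  rw [et_of (one_smul Γ p).le]
  abel

theorem hm_mul_et {t : Tri Γ P} {p : P} {g : Γ} (hp : t.b = p) (h : g • p ≤ p) :
    hm t * et p g = hm (t.comp ⟨p, g, p, h⟩ hp) := by
  rw [et_of h, mul_sub, mul_add, hm_mul_hm_pos (t := ⟨p, g, p, h⟩) hp, mul_one,
    hm_mul_hm_pos (t := ⟨p, 1, p, (one_smul Γ p).le⟩) hp]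
  have e : t.comp ⟨p, 1, p, (one_smul Γ p).le⟩ hp = t := Tri.ext rfl (mul_one _) hp.symm
  rw [e]
  abel

theorem et_mul {p : P} {g g' : Γ} (h : g • p ≤ p) (h' : g' • p ≤ p) :
    (et p (g * g') : MonoidAlgebra ℤ (Mo Γ P)) = et p g * et p g' := by
  have h2 : (g * g') • p ≤ p := by
    rw [mul_smul]
    exact (MonoAct.mono g h').trans h
  rw [et_of h, sub_mul, add_mul, one_mul, hm_mul_et (t := ⟨p, g, p, h⟩) rfl h',
    hm_mul_et (t := ⟨p, 1, p, (one_smul Γ p).le⟩) rfl h', et_of h2, et_of h']
  have e1 : (⟨p, g, p, h⟩ : Tri Γ P).comp ⟨p, g', p, h'⟩ rfl = ⟨p, g * g', p, h2⟩ := rfl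
  have e2 : (⟨p, 1, p, (one_smul Γ p).le⟩ : Tri Γ P).comp ⟨p, g', p, h'⟩ rfl = ⟨p, g', p, h'⟩ :=
    Tri.ext rfl (one_mul _) rfl
  rw [e1, e2]
  abel

end Hm

/-! ### Representatives -/

/-- The triples `(ξ, g, b)` with `g • b ≤ bot ξ`. -/
@[ext] structure Zd {Γ P Ξ : Type} [Group Γ] [PartialOrder P] [MulAction Γ P] [MulAction Γ Ξ]
    (D : BT Γ P Ξ) where
  x : Ξ
  g : Γ
  b : P
  le : g • b ≤ D.bot x

section Rep

variable {Γ P Ξ : Type} [Group Γ] [PartialOrder P] [MulAction Γ P] [MonoAct Γ P] [MulAction Γ Ξ]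
  {D : BT Γ P Ξ}

instance : MulAction Γ (Zd D) where
  smul γ z := ⟨γ • z.x, γ * z.g, z.b, by
    rw [D.bot_smul, mul_smul]
    exact MonoAct.mono γ z.le⟩
  one_smul z := Zd.ext (one_smul Γ z.x) (one_mul _) rfl
  mul_smul γ γ' z := Zd.ext (mul_smul _ _ _) (mul_assoc _ _ _) rfl

theorem Zd.smul_x (γ : Γ) (z : Zd D) : (γ • z).x = γ • z.x := rfl

theorem Zd.smul_g (γ : Γ) (z : Zd D) : (γ • z).g = γ * z.g := rfl

theorem Zd.smul_b (γ : Γ) (z : Zd D) : (γ • z).b = z.b := rfl

theorem Zd.free {γ γ' : Γ} {z : Zd D} (h : γ • z = γ' • z) : γ = γ' := by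
  have := congrArg Zd.g h
  rw [Zd.smul_g, Zd.smul_g] at this
  exact mul_right_cancel this

/-- The chosen point in the orbit of `x`. -/
noncomputable def rho (Γ : Type) {Ξ : Type} [Group Γ] [MulAction Γ Ξ] (x : Ξ) : Ξ :=
  (Quotient.mk (MulAction.orbitRel Γ Ξ) x).out

omit [MonoAct Γ P] in
theorem exists_rho (x : Ξ) : ∃ γ : Γ, x = γ • rho Γ x := by
  have h : (MulAction.orbitRel Γ Ξ).r (rho Γ x) x := Quotient.exact (Quotient.out_eq _)
  obtain ⟨γ, hγ⟩ := h
  refine ⟨γ⁻¹, ?_⟩
  rw [← hγ]
  change x = γ⁻¹ • γ • x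
  rw [inv_smul_smul]

theorem rho_smul (γ : Γ) (x : Ξ) : rho Γ (γ • x) = rho Γ x := by
  unfold rho
  congr 1
  exact Quotient.sound ⟨γ, rfl⟩

theorem rho_rho (x : Ξ) : rho Γ (rho Γ x) = rho Γ x := by
  obtain ⟨γ, h⟩ := exists_rho (Γ := Γ) x
  conv_rhs => rw [h, rho_smul]

/-- The orbits. -/
abbrev Bd (D : BT Γ P Ξ) : Type := MulAction.orbitRel.Quotient Γ (Zd D)

/-- The orbit of `z`. -/
def mkB (z : Zd D) : Bd D := Quotient.mk (MulAction.orbitRel Γ (Zd D)) z

theorem mkB_smul (γ : Γ) (z : Zd D) : mkB (γ • z) = mkB z := Quotient.sound ⟨γ, rfl⟩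

/-- The representative of an orbit, over the chosen point. -/
noncomputable def rep (q : Bd D) : Zd D :=
  (exists_rho (Γ := Γ) (Quotient.out q).x).choose⁻¹ • Quotient.out q

theorem rep_x_out (q : Bd D) : (rep q).x = rho Γ (Quotient.out q).x := by
  have h := (exists_rho (Γ := Γ) (Quotient.out q).x).choose_spec
  unfold rep
  rw [Zd.smul_x, inv_smul_eq_iff]
  exact h

theorem mkB_rep (q : Bd D) : mkB (rep q) = q := by
  unfold rep
  rw [mkB_smul]
  exact Quotient.out_eq q

theorem exists_tau (z : Zd D) : ∃ γ : Γ, z = γ • rep (mkB z) := by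
  have h : (MulAction.orbitRel Γ (Zd D)).r (Quotient.out (mkB z)) z :=
    Quotient.exact (Quotient.out_eq (mkB z))
  obtain ⟨γ, hγ⟩ := h
  refine ⟨γ⁻¹ * (exists_rho (Γ := Γ) (Quotient.out (mkB z)).x).choose, ?_⟩
  unfold rep
  rw [mul_smul, smul_inv_smul]
  rw [← hγ]
  change z = γ⁻¹ • γ • z
  rw [inv_smul_smul]

/-- The element which moves the representative to `z`. -/
noncomputable def tau (z : Zd D) : Γ := (exists_tau z).choose

theorem tau_smul_rep (z : Zd D) : tau z • rep (mkB z) = z := (exists_tau z).choose_spec.symm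

theorem tau_eq {z : Zd D} {γ : Γ} (h : γ • rep (mkB z) = z) : tau z = γ :=
  Zd.free ((tau_smul_rep z).trans h.symm)

theorem tau_smul (γ : Γ) (z : Zd D) : tau (γ • z) = γ * tau z := by
  apply tau_eq
  rw [mkB_smul, mul_smul, tau_smul_rep]

theorem rep_x (z : Zd D) : (rep (mkB z)).x = rho Γ z.x := by
  have h := congrArg Zd.x (tau_smul_rep z)
  rw [Zd.smul_x] at h
  conv_rhs => rw [← h, rho_smul]
  rw [rep_x_out, rho_rho]

theorem rep_rep_x (q : Bd D) : rho Γ (rep q).x = (rep q).x := by
  rw [rep_x_out, rho_rho]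

theorem rep_b (z : Zd D) : (rep (mkB z)).b = z.b := by
  have h := congrArg Zd.b (tau_smul_rep z)
  rwa [Zd.smul_b] at h

end Rep

/-! ### The induced bimodule -/

section Ind

variable {Γ P Ξ : Type} [Group Γ] [PartialOrder P] [MulAction Γ P] [MonoAct Γ P] [MulAction Γ Ξ]
  (D : BT Γ P Ξ)

variable {D}

/-- The element `z t` for a morphism `t`. -/
def Zd.rm (z : Zd D) (t : Tri Γ P) (h : z.b = t.a) : Zd D where
  x := z.x
  g := z.g * t.g
  b := t.b
  le := by
    rw [mul_smul]
    refine le_trans (MonoAct.mono z.g ?_) z.le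
    rw [h]
    exact t.le

theorem Zd.smul_rm (γ : Γ) (z : Zd D) (t : Tri Γ P) (h : z.b = t.a) :
    (γ • z).rm t h = γ • z.rm t h := Zd.ext rfl (mul_assoc _ _ _) rfl

theorem mkB_rm_rep (z : Zd D) (t : Tri Γ P) (h : z.b = t.a) (h' : (rep (mkB z)).b = t.a) :
    mkB ((rep (mkB z)).rm t h') = mkB (z.rm t h) := by
  have e : z.rm t h = tau z • (rep (mkB z)).rm t h' := by
    rw [← Zd.smul_rm (h := h')]
    congr 1
    exact (tau_smul_rep z).symm
  rw [e, mkB_smul]

theorem tau_rm (z : Zd D) (t : Tri Γ P) (h : z.b = t.a) (h' : (rep (mkB z)).b = t.a) :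
    tau (z.rm t h) = tau z * tau ((rep (mkB z)).rm t h') := by
  have e : z.rm t h = tau z • (rep (mkB z)).rm t h' := by
    rw [← Zd.smul_rm (h := h')]
    congr 1
    exact (tau_smul_rep z).symm
  rw [e, tau_smul]

/-- The element which moves a representative to its product with a morphism fixes the point. -/
theorem tau_fix (q : Bd D) (t : Tri Γ P) (h : (rep q).b = t.a) :
    tau ((rep q).rm t h) • (rep q).x = (rep q).x := by
  have e1 := congrArg Zd.x (tau_smul_rep ((rep q).rm t h))
  rw [Zd.smul_x, rep_x] at e1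
  change tau ((rep q).rm t h) • rho Γ (rep q).x = (rep q).x at e1
  rwa [rep_rep_x] at e1

theorem rep_rm_x (q : Bd D) (t : Tri Γ P) (h : (rep q).b = t.a) :
    (rep (mkB ((rep q).rm t h))).x = (rep q).x := by
  rw [rep_x]
  change rho Γ (rep q).x = _
  rw [rep_rep_x]

/-- The top of the representative. -/
noncomputable def tp (q : Bd D) : P := D.top (rep q).x

theorem tau_top (q : Bd D) (t : Tri Γ P) (h : (rep q).b = t.a) :
    tau ((rep q).rm t h) • tp q ≤ tp q := by
  unfold tp
  rw [← D.top_smul, tau_fix]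

theorem tp_rm (q : Bd D) (t : Tri Γ P) (h : (rep q).b = t.a) :
    tp (mkB ((rep q).rm t h)) = tp q := by
  unfold tp
  rw [rep_rm_x]

open Classical in
/-- The right action of a morphism on a basis element. -/
noncomputable def actM (q : Bd D) (t : Tri Γ P) : Option (MonoidAlgebra ℤ (Mo Γ P) × Bd D) :=
  if h : (rep q).b = t.a then
    some (et (tp q) (tau ((rep q).rm t h)), mkB ((rep q).rm t h))
  else none

theorem actM_pos {q : Bd D} {t : Tri Γ P} (h : (rep q).b = t.a) :
    actM q t = some (et (tp q) (tau ((rep q).rm t h)), mkB ((rep q).rm t h)) := dif_pos h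

theorem actM_neg {q : Bd D} {t : Tri Γ P} (h : ¬ (rep q).b = t.a) : actM q t = none := dif_neg h

variable (D) in
/-- The right action on the basis. -/
noncomputable def raD : RA (Mo Γ P) (Bd D) where
  act q s := match s with
    | .one => some (1, q)
    | .zero => none
    | .mor t => actM q t
  act_one _ := rfl
  act_mul q s t := by
    cases s with
    | one =>
      cases t with
      | one =>
        change some ((1 : MonoidAlgebra ℤ (Mo Γ P)), q) = some (1 * 1, q)
        rw [one_mul]
      | zero => rfl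
      | mor t =>
        change actM q t = (actM q t).map fun v => (1 * v.1, v.2)
        cases actM q t with
        | none => rfl
        | some v =>
          change some v = some (1 * v.1, v.2)
          rw [one_mul]
    | zero => rfl
    | mor s =>
      cases t with
      | one =>
        change actM q s = (actM q s).bind fun u => some (u.1 * 1, u.2)
        cases actM q s with
        | none => rfl
        | some v =>
          change some v = some (v.1 * 1, v.2)
          rw [mul_one]
      | zero =>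
        change none = (actM q s).bind fun _ => none
        cases actM q s <;> rfl
      | mor t =>
        by_cases h1 : s.b = t.a
        · have e0 : (Mo.mor s * Mo.mor t : Mo Γ P) = .mor (s.comp t h1) := by
            rw [Mo.mor_mul_mor, mulO_pos h1]
            rfl
          rw [e0]
          change actM q (s.comp t h1) = (actM q s).bind fun u =>
            (actM u.2 t).map fun v => (u.1 * v.1, v.2)
          by_cases h2 : (rep q).b = s.a
          · have h3 : (rep (mkB ((rep q).rm s h2))).b = t.a := by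
              rw [rep_b]
              exact h1
            rw [actM_pos (show (rep q).b = (s.comp t h1).a from h2), actM_pos h2, Option.bind_some,
              actM_pos h3]
            have e1 : (rep q).rm (s.comp t h1) h2 = ((rep q).rm s h2).rm t h1 :=
              Zd.ext rfl (mul_assoc _ _ _).symm rfl
            have e2 := tau_rm ((rep q).rm s h2) t h1 h3
            have e3 := mkB_rm_rep ((rep q).rm s h2) t h1 h3
            have e4 := tau_top (mkB ((rep q).rm s h2)) t h3
            rw [tp_rm] at e4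
            change some _ = some _
            refine congrArg some (Prod.ext ?_ ?_)
            · change et (tp q) (tau ((rep q).rm (s.comp t h1) h2)) = et (tp q) _ * et (tp _) _
              rw [e1, e2, tp_rm, et_mul (tau_top q s h2) e4]
            · change mkB ((rep q).rm (s.comp t h1) h2) = _
              rw [e1]
              exact e3.symm
          · rw [actM_neg (show ¬ (rep q).b = (s.comp t h1).a from h2), actM_neg h2,
              Option.bind_none]
        · have e0 : (Mo.mor s * Mo.mor t : Mo Γ P) = .zero := by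
            rw [Mo.mor_mul_mor, mulO_neg h1]
            rfl
          rw [e0]
          change none = (actM q s).bind fun u => (actM u.2 t).map fun v => (u.1 * v.1, v.2)
          by_cases h2 : (rep q).b = s.a
          · have h3 : ¬ (rep (mkB ((rep q).rm s h2))).b = t.a := by
              rw [rep_b]
              exact h1
            rw [actM_pos h2, Option.bind_some, actM_neg h3]
            rfl
          · rw [actM_neg h2, Option.bind_none]

/-- The element of `Zd` of an element of `Qd`. -/
def Qd.z (q : Qd D) : Zd D := ⟨q.x, q.g, q.b, q.le⟩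

theorem Qd.tau_le (q : Qd D) : tau q.z • tp (mkB q.z) ≤ q.a := by
  unfold tp
  rw [← D.top_smul, ← Zd.smul_x, tau_smul_rep]
  exact q.le'

/-- The morphism from the representative to the element of `Qd`. -/
noncomputable def Qd.mo (q : Qd D) : Tri Γ P := ⟨q.a, tau q.z, tp (mkB q.z), q.tau_le⟩

/-- The embedding. -/
noncomputable def iD (D : BT Γ P Ξ) : PM (Qd D) →+ NR (raD D) :=
  PM.lift fun q => NR.sg (raD D) (mkB q.z) (hm q.mo)

/-- The basis element as an element of `Qd`. -/
noncomputable def bq (q : Bd D) : Qd D := ⟨tp q, (rep q).x, (rep q).g, (rep q).b, (rep q).le, le_rfl⟩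

/-- The projection. -/
noncomputable def pD (D : BT Γ P Ξ) : NR (raD D) →+ PM (Qd D) :=
  NR.lift fun q =>
    { toFun := fun r => r • (PM.of (bq q) : PM (Qd D))
      map_zero' := zero_smul _ _
      map_add' := fun a b => add_smul a b _ }

theorem iD_of (q : Qd D) : iD D (PM.of q) = NR.sg (raD D) (mkB q.z) (hm q.mo) := PM.lift_of _ q

theorem iD_ofO (q : Option (Qd D)) :
    iD D (PM.ofO q) = q.elim 0 fun q => NR.sg (raD D) (mkB q.z) (hm q.mo) := PM.lift_ofO _ q

theorem pD_sg (q : Bd D) (r : MonoidAlgebra ℤ (Mo Γ P)) :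
    pD D (NR.sg (raD D) q r) = r • (PM.of (bq q) : PM (Qd D)) := NR.lift_sg _ q r

theorem zero_smul_of (x : Qd D) :
    MonoidAlgebra.single (Mo.zero : Mo Γ P) (1 : ℤ) • (PM.of x : PM (Qd D)) = 0 := by
  rw [PM.single_smul_of]
  rfl

theorem hm_smul_of_pos {t : Tri Γ P} {x : Qd D} (h : t.b = x.a) :
    hm t • (PM.of x : PM (Qd D)) = PM.of (Qd.lm t x h) := by
  rw [hm, sub_smul, zero_smul_of, sub_zero, PM.single_smul_of]
  change PM.ofO (Qd.lM t x) = _
  rw [Qd.lM_pos h]
  rfl

theorem pD_iD (m : PM (Qd D)) : pD D (iD D m) = m := by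
  have h : (pD D).comp (iD D) = AddMonoidHom.id _ := by
    refine PM.ext fun q => ?_
    rw [AddMonoidHom.comp_apply, iD_of, pD_sg, hm_smul_of_pos (show q.mo.b = (bq (mkB q.z)).a from rfl)]
    congr 1
    refine Qd.ext rfl ?_ ?_ ?_
    · exact congrArg Zd.x (tau_smul_rep q.z)
    · exact congrArg Zd.g (tau_smul_rep q.z)
    · exact congrArg Zd.b (tau_smul_rep q.z)
  exact DFunLike.congr_fun h m

theorem iD_isBi : IsBi (S := Mo Γ P) (iD D) := by
  constructor
  · intro s m
    rw [PM.single_smul]
    have e : (iD D).comp (PM.lift fun x => PM.ofO (PBi.l s x)) =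
        (DistribSMul.toAddMonoidHom (NR (raD D)) (MonoidAlgebra.single s (1 : ℤ))).comp
          (iD D) := by
      refine PM.ext fun q => ?_
      rw [AddMonoidHom.comp_apply, AddMonoidHom.comp_apply, PM.lift_of, iD_ofO, iD_of]
      change _ = MonoidAlgebra.single s (1 : ℤ) • NR.sg (raD D) (mkB q.z) (hm q.mo)
      rw [NR.smul_sg]
      cases s with
      | one =>
        change NR.sg (raD D) (mkB q.z) (hm q.mo) = NR.sg _ _ (1 * hm q.mo)
        rw [one_mul]
      | zero =>
        rw [zero_mul_hm, NR.sg_zero]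
        rfl
      | mor t =>
        change (Qd.lM t q).elim 0 _ = _
        by_cases h : t.b = q.a
        · rw [Qd.lM_pos h, single_mul_hm_pos (show t.b = q.mo.a from h)]
          have e1 : (Qd.lm t q h).z = t.g • q.z := rfl
          change NR.sg (raD D) (mkB (Qd.lm t q h).z) (hm (Qd.lm t q h).mo) = _
          have e2 : (Qd.lm t q h).mo = t.comp q.mo h := by
            refine Tri.ext rfl ?_ ?_
            · change tau (Qd.lm t q h).z = t.g * tau q.z
              rw [e1, tau_smul]
            · change tp (mkB (Qd.lm t q h).z) = tp (mkB q.z)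
              rw [e1, mkB_smul]
          rw [e2, e1, mkB_smul]
        · rw [Qd.lM_neg h, single_mul_hm_neg (show ¬ t.b = q.mo.a from h), NR.sg_zero]
          rfl
    exact DFunLike.congr_fun e m
  · intro s m
    rw [PM.op_smul, NR.op_smul]
    have e : (iD D).comp (PM.lift fun x => PM.ofO (PBi.r x s)) =
        (NR.ra (raD D) s).comp (iD D) := by
      refine PM.ext fun q => ?_
      rw [AddMonoidHom.comp_apply, AddMonoidHom.comp_apply, PM.lift_of, iD_ofO, iD_of, NR.ra_sg]
      cases s with
      | one =>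
        change NR.sg (raD D) (mkB q.z) (hm q.mo) = NR.sg _ _ (hm q.mo * 1)
        rw [mul_one]
      | zero => rfl
      | mor t =>
        change (Qd.rM q t).elim 0 _ = (actM (mkB q.z) t).elim 0 _
        by_cases h : q.b = t.a
        · have h' : (rep (mkB q.z)).b = t.a := by
            rw [rep_b]
            exact h
          rw [Qd.rM_pos h, actM_pos h']
          have e1 : (Qd.rm q t h).z = q.z.rm t h := rfl
          change NR.sg (raD D) (mkB (Qd.rm q t h).z) (hm (Qd.rm q t h).mo) =
            NR.sg _ (mkB ((rep (mkB q.z)).rm t h')) (hm q.mo * et (tp (mkB q.z)) _)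
          rw [hm_mul_et (t := q.mo) (p := tp (mkB q.z)) rfl (tau_top (mkB q.z) t h'),
            mkB_rm_rep q.z t h h', e1]
          have e2 : (Qd.rm q t h).mo = q.mo.comp ⟨tp (mkB q.z), tau ((rep (mkB q.z)).rm t h'),
              tp (mkB q.z), tau_top (mkB q.z) t h'⟩ rfl := by
            refine Tri.ext rfl ?_ ?_
            · change tau (q.z.rm t h) = tau q.z * tau ((rep (mkB q.z)).rm t h')
              exact tau_rm q.z t h h'
            · change tp (mkB (q.z.rm t h)) = tp (mkB q.z)
              rw [← mkB_rm_rep q.z t h h', tp_rm]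
          rw [e2]
        · have h' : ¬ (rep (mkB q.z)).b = t.a := by
            rw [rep_b]
            exact h
          rw [Qd.rM_neg h, actM_neg h']
          rfl
    exact DFunLike.congr_fun e m

theorem pD_isBi : IsBi (S := Mo Γ P) (pD D) := by
  constructor
  · intro s m
    refine NR.ind (p := fun m => pD D (MonoidAlgebra.single s (1 : ℤ) • m) =
      MonoidAlgebra.single s (1 : ℤ) • pD D m) ?_ ?_ ?_ m
    · rw [smul_zero, map_zero, smul_zero]
    · intro x y hx hy
      rw [smul_add, map_add, hx, hy, map_add, smul_add]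
    · intro b r
      rw [NR.smul_sg, pD_sg, pD_sg, mul_smul]
  · intro s m
    refine NR.ind (p := fun m => pD D (MulOpposite.op s • m) = MulOpposite.op s • pD D m)
      ?_ ?_ ?_ m
    · rw [smul_zero, map_zero, smul_zero]
    · intro x y hx hy
      rw [smul_add, map_add, hx, hy, map_add, smul_add]
    · intro b r
      rw [NR.op_smul_sg, pD_sg, ← smul_comm r (MulOpposite.op s) (PM.of (bq b) : PM (Qd D)),
        PM.op_smul_of]
      cases s with
      | one =>
        change pD D (NR.sg (raD D) b (r * 1)) = r • PM.of (bq b)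
        rw [mul_one, pD_sg]
      | zero =>
        change pD D 0 = r • (0 : PM (Qd D))
        rw [map_zero, smul_zero]
      | mor t =>
        change pD D ((actM b t).elim 0 fun u => NR.sg (raD D) u.2 (r * u.1)) =
          r • PM.ofO (Qd.rM (bq b) t)
        by_cases h : (rep b).b = t.a
        · rw [actM_pos h, Qd.rM_pos (show (bq b).b = t.a from h)]
          change pD D (NR.sg (raD D) (mkB ((rep b).rm t h)) (r * et (tp b) _)) =
            r • PM.of (Qd.rm (bq b) t h)
          rw [pD_sg, mul_smul]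
          congr 1
          have ht := tau_top b t h
          have hb : (bq (mkB ((rep b).rm t h))).a = tp b := tp_rm b t h
          rw [et_of ht, sub_smul, add_smul, one_smul, hm_smul_of_pos
            (t := ⟨tp b, tau ((rep b).rm t h), tp b, ht⟩) hb.symm,
            hm_smul_of_pos (t := ⟨tp b, 1, tp b, (one_smul Γ _).le⟩) hb.symm]
          have e1 : Qd.lm ⟨tp b, 1, tp b, (one_smul Γ _).le⟩ (bq (mkB ((rep b).rm t h))) hb.symm =
              bq (mkB ((rep b).rm t h)) :=
            Qd.ext hb.symm (one_smul Γ _) (one_mul _) rfl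
          have e2 : Qd.lm ⟨tp b, tau ((rep b).rm t h), tp b, ht⟩ (bq (mkB ((rep b).rm t h)))
              hb.symm = Qd.rm (bq b) t h := by
            refine Qd.ext rfl ?_ ?_ ?_
            · exact congrArg Zd.x (tau_smul_rep ((rep b).rm t h))
            · exact congrArg Zd.g (tau_smul_rep ((rep b).rm t h))
            · exact congrArg Zd.b (tau_smul_rep ((rep b).rm t h))
          rw [e1, e2, add_sub_cancel_right]
        · rw [actM_neg h, Qd.rM_neg (show ¬ (bq b).b = t.a from h)]
          change pD D 0 = r • (0 : PM (Qd D))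
          rw [map_zero, smul_zero]

/-- The homomorphism of the stabiliser of `x`. -/
noncomputable def etH (D : BT Γ P Ξ) (x : Ξ) :
    MulAction.stabilizer Γ x →* MonoidAlgebra ℤ (Mo Γ P) where
  toFun h := et (D.top x) (h : Γ)
  map_one' := et_one _
  map_mul' h h' := by
    have e : ∀ h : MulAction.stabilizer Γ x, (h : Γ) • D.top x ≤ D.top x := by
      intro h
      rw [← D.top_smul, MulAction.mem_stabilizer_iff.1 h.2]
    exact et_mul (e h) (e h')

open Classical in
/-- The values of the retraction on the morphisms. -/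
noncomputable def sM0 (D : BT Γ P Ξ) (x : Ξ) (t : Tri Γ P) :
    MonoidAlgebra ℤ (MulAction.stabilizer Γ x) :=
  if h : t.g ∈ MulAction.stabilizer Γ x then
    (if t.a = D.top x ∧ t.b = D.top x then MonoidAlgebra.single ⟨t.g, h⟩ 1 else 0) else 0

/-- The values of the retraction on the basis elements. -/
noncomputable def sH0 (D : BT Γ P Ξ) (x : Ξ) :
    Mo Γ P → MonoidAlgebra ℤ (MulAction.stabilizer Γ x)
  | .one => 1
  | .zero => 0
  | .mor t => sM0 D x t

/-- The retraction to the group ring of the stabiliser. -/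
noncomputable def sH (D : BT Γ P Ξ) (x : Ξ) :
    MonoidAlgebra ℤ (Mo Γ P) →+ MonoidAlgebra ℤ (MulAction.stabilizer Γ x) :=
  (Finsupp.liftAddHom fun s => zmultiplesHom _ (sH0 D x s)).comp
    (MonoidAlgebra.coeffAddEquiv : MonoidAlgebra ℤ (Mo Γ P) ≃+ (Mo Γ P →₀ ℤ)).toAddMonoidHom

theorem sH_single (x : Ξ) (s : Mo Γ P) :
    sH D x (MonoidAlgebra.single s 1) = sH0 D x s := by
  change Finsupp.liftAddHom (fun s => zmultiplesHom _ (sH0 D x s)) (Finsupp.single s (1 : ℤ)) = _
  rw [Finsupp.liftAddHom_apply_single]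
  exact one_zsmul _

theorem sH_hm (x : Ξ) (t : Tri Γ P) : sH D x (hm t) = sH0 D x (.mor t) := by
  rw [hm, map_sub, sH_single, sH_single]
  exact sub_zero _

theorem sH_etH (x : Ξ) (h : MulAction.stabilizer Γ x) :
    sH D x (etH D x h) = MonoidAlgebra.single h 1 := by
  have e : (h : Γ) • D.top x ≤ D.top x := by
    rw [← D.top_smul, MulAction.mem_stabilizer_iff.1 h.2]
  change sH D x (et (D.top x) (h : Γ)) = _
  rw [et_of e, map_sub, map_add, sH_hm, sH_hm]
  have e0 : sH D x 1 = 1 := sH_single x .one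
  have e1 : sH0 D x (.mor ⟨D.top x, (h : Γ), D.top x, e⟩) = MonoidAlgebra.single h 1 := by
    change sM0 D x _ = _
    unfold sM0
    rw [dif_pos (show (h : Γ) ∈ MulAction.stabilizer Γ x from h.2), if_pos ⟨rfl, rfl⟩]
  have e2 : sH0 D x (.mor ⟨D.top x, 1, D.top x, (one_smul Γ _).le⟩) = 1 := by
    change sM0 D x _ = _
    unfold sM0
    rw [dif_pos (show (1 : Γ) ∈ MulAction.stabilizer Γ x from one_mem _), if_pos ⟨rfl, rfl⟩]
    rfl
  rw [e0, e1, e2]
  abel

theorem sH_gz (x : Ξ) (r : MonoidAlgebra ℤ (MulAction.stabilizer Γ x)) :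
    sH D x (gz (etH D x) r) = r := by
  induction r using MonoidAlgebra.induction_linear with
  | zero => rw [map_zero, map_zero]
  | add a b ha hb => rw [map_add, map_add, ha, hb]
  | single h n =>
    have e : gz (etH D x) (MonoidAlgebra.single h n) = n • etH D x h := by
      change (MonoidAlgebra.lift ℤ (MonoidAlgebra ℤ (Mo Γ P)) _ (etH D x)) _ = _
      rw [MonoidAlgebra.lift_single]
    rw [e, map_zsmul, sH_etH, MonoidAlgebra.smul_single, smul_eq_mul, mul_one]

theorem isInd (D : BT Γ P Ξ) :
    IsInd (H := fun x : Ξ => MulAction.stabilizer Γ x) (NR.basis (raD D))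
      (fun q : Bd D => (rep q).x) (fun x => etH D x) where
  rule b s := by
    cases s with
    | one =>
      refine ⟨Finsupp.single b 1, ?_, ?_⟩
      · intro b' hb'
        rw [Finsupp.mem_support_single] at hb'
        rw [hb'.1]
      · rw [Finsupp.sum_single_index]
        · rw [map_one, one_smul]
          change NR.ra (raD D) (1 : Mo Γ P) _ = _
          rw [NR.ra_one]
          rfl
        · rw [map_zero, zero_smul]
    | zero =>
      refine ⟨0, ?_, ?_⟩
      · intro b' hb'
        simp at hb'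
      · rw [Finsupp.sum_zero_index, NR.basis_apply, NR.op_smul_sg]
        rfl
    | mor t =>
      by_cases h : (rep b).b = t.a
      · have hx := rep_rm_x b t h
        have hf : tau ((rep b).rm t h) ∈ MulAction.stabilizer Γ (rep b).x :=
          MulAction.mem_stabilizer_iff.2 (tau_fix b t h)
        refine ⟨Finsupp.single (mkB ((rep b).rm t h)) (MonoidAlgebra.single ⟨_, hf⟩ 1), ?_, ?_⟩
        · intro b' hb'
          rw [Finsupp.mem_support_single] at hb'
          rw [hb'.1]
          exact hx
        · rw [Finsupp.sum_single_index]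
          · rw [NR.basis_apply, NR.basis_apply, NR.op_smul_sg, NR.smul_sg, mul_one]
            change (actM b t).elim 0 _ = _
            rw [actM_pos h]
            change NR.sg _ _ (1 * _) = NR.sg _ _ _
            rw [one_mul]
            congr 1
            change _ = (MonoidAlgebra.lift ℤ (MonoidAlgebra ℤ (Mo Γ P)) _ (etH D (rep b).x)) _
            rw [MonoidAlgebra.lift_single, one_smul]
            rfl
          · rw [map_zero, zero_smul]
      · refine ⟨0, ?_, ?_⟩
        · intro b' hb'
          simp at hb'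
        · rw [Finsupp.sum_zero_index, NR.basis_apply, NR.op_smul_sg]
          change (actM b t).elim 0 _ = _
          rw [actM_neg h]
          rfl
  ret x := ⟨sH D x, sH_gz x⟩

/-- `PM (Qd D)` is a retract of an induced bimodule. -/
theorem isRet (D : BT Γ P Ξ) (𝒞 : ∀ (H : Type) [Group H], Prop)
    (h𝒞 : ∀ K : Subgroup Γ, (∃ p : P, K ≤ MulAction.stabilizer Γ p) → 𝒞 K) :
    IsRet (Mo Γ P) 𝒞 (PM (Qd D)) := by
  refine ⟨NR (raD D), inferInstance, inferInstance, inferInstance, inferInstance, Bd D, Ξ,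
    fun x => MulAction.stabilizer Γ x, fun _ => inferInstance, NR.basis (raD D),
    fun q => (rep q).x, fun x => etH D x, iD D, pD D, isInd D, ?_, iD_isBi, pD_isBi, pD_iD⟩
  intro x
  refine h𝒞 _ ⟨D.bot x, ?_⟩
  intro g hg
  rw [MulAction.mem_stabilizer_iff] at hg ⊢
  rw [← D.bot_smul, hg]

end Ind

end Pool.Agent.BB
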