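import Pool.Agent.Lib.MP_8f66f0_al_BB.DefsK
import Pool.Agent.Lib.MP_8f66f0_al_BB.Ret

/-!
# Basic computations in `k[Mo Γ P]` (project GLn, part BB)
-/

set_option autoImplicit false
set_option linter.unusedSectionVars false

namespace Pool.Agent.BB

open Pool.Agent.GLA Pool.Agent.Wald Pool.Agent.Ind Pool.Agent.Hier Pool.Agent.TreeC
open Pool.Agent.HierR (Mo MoN Tri Mo0 MonoAct mA)

section Hk

variable {k Γ P : Type} [CommRing k] [Group Γ] [PartialOrder P] [MulAction Γ P] [MonoAct Γ P]

theorem sg_mul_sg (s t : Mo Γ P) : (MonoidAlgebra.single s (1 : k) * MonoidAlgebra.single t 1 :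
    MonoidAlgebra k (Mo Γ P)) = MonoidAlgebra.single (s * t) 1 := by
  rw [MonoidAlgebra.single_mul_single, one_mul]

theorem hk_mul_pos {s t : Tri Γ P} (h : s.b = t.a) : hk k s * hk k t = hk k (s.comp t h) := by
  unfold hk
  rw [mul_sub, sub_mul, sub_mul, sg_mul_sg, sg_mul_sg, sg_mul_sg, sg_mul_sg,
    Pool.Agent.HierR.Mo.mor_mul_mor, mulO_pos h, Pool.Agent.HierR.Mo.mul_zero',
    Pool.Agent.HierR.Mo.zero_mul', Pool.Agent.HierR.Mo.zero_mul']
  change MonoidAlgebra.single (Mo.mor (s.comp t h)) 1 - _ - _ = _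
  abel

theorem hk_mul_neg {s t : Tri Γ P} (h : ¬ s.b = t.a) : hk k s * hk k t = 0 := by
  unfold hk
  rw [mul_sub, sub_mul, sub_mul, sg_mul_sg, sg_mul_sg, sg_mul_sg, sg_mul_sg,
    Pool.Agent.HierR.Mo.mor_mul_mor, mulO_neg h, Pool.Agent.HierR.Mo.mul_zero',
    Pool.Agent.HierR.Mo.zero_mul', Pool.Agent.HierR.Mo.zero_mul']
  change MonoidAlgebra.single (Mo.zero) 1 - _ - _ = _
  abel

theorem zk_mul_zk : zk k Γ P * zk k Γ P = zk k Γ P := by
  unfold zk
  rw [sg_mul_sg, Pool.Agent.HierR.Mo.zero_mul']

theorem zk_mul_hk (t : Tri Γ P) : zk k Γ P * hk k t = 0 := by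
  unfold zk hk
  rw [mul_sub, sg_mul_sg, sg_mul_sg, Pool.Agent.HierR.Mo.zero_mul',
    Pool.Agent.HierR.Mo.zero_mul', sub_self]

theorem hk_mul_zk (t : Tri Γ P) : hk k t * zk k Γ P = 0 := by
  unfold zk hk
  rw [sub_mul, sg_mul_sg, sg_mul_sg, Pool.Agent.HierR.Mo.mul_zero',
    Pool.Agent.HierR.Mo.mul_zero', sub_self]

theorem idT_comp (t : Tri Γ P) : (idT Γ t.a).comp t rfl = t :=
  Tri.ext rfl (one_mul _) rfl

theorem comp_idT (t : Tri Γ P) : t.comp (idT Γ t.b) rfl = t :=
  Tri.ext rfl (mul_one _) rfl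

theorem hk_idT_mul (t : Tri Γ P) : hk k (idT Γ t.a) * hk k t = hk k t := by
  rw [hk_mul_pos (show (idT Γ t.a).b = t.a from rfl), idT_comp]

theorem hk_mul_idT (t : Tri Γ P) : hk k t * hk k (idT Γ t.b) = hk k t := by
  rw [hk_mul_pos (show t.b = (idT Γ t.b).a from rfl), comp_idT]

theorem hk_idT_idem (x : P) : hk k (idT Γ x) * hk k (idT Γ x) = hk k (idT Γ x) :=
  hk_idT_mul (idT Γ x)

theorem single_mor (t : Tri Γ P) :
    (MonoidAlgebra.single (Mo.mor t) 1 : MonoidAlgebra k (Mo Γ P)) = hk k t + zk k Γ P := by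
  unfold hk zk
  abel

end Hk

section Lf

variable {k Γ P : Type} [CommRing k] [Group Γ] [PartialOrder P] [MulAction Γ P] [MonoAct Γ P]

open Classical in
/-- The value of `lf` on a group element. -/
noncomputable def lf0 (k : Type) [CommRing k] (x y : P) (g : Γ) : MonoidAlgebra k (Mo Γ P) :=
  if h : g • y ≤ x then hk k ⟨x, g, y, h⟩ else 0

theorem lf0_pos {x y : P} {g : Γ} (h : g • y ≤ x) : lf0 k x y g = hk k ⟨x, g, y, h⟩ := dif_pos h

theorem lf0_neg {x y : P} {g : Γ} (h : ¬ g • y ≤ x) : lf0 k x y g = 0 := dif_neg h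

theorem lf_eq (x y : P) (a : MonoidAlgebra k Γ) :
    lf x y a = a.coeff.sum fun g r => r • lf0 k x y g := rfl

theorem lf_add (x y : P) (a b : MonoidAlgebra k Γ) : lf x y (a + b) = lf x y a + lf x y b := by
  rw [lf_eq, lf_eq, lf_eq]
  change Finsupp.sum (a.coeff + b.coeff) _ = _
  exact Finsupp.sum_add_index' (fun g => zero_smul _ _) fun g r r' => add_smul _ _ _

theorem lf_zero (x y : P) : lf x y (0 : MonoidAlgebra k Γ) = 0 := by
  rw [lf_eq]
  exact Finsupp.sum_zero_index

theorem lf_single (x y : P) (g : Γ) (r : k) :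
    lf x y (MonoidAlgebra.single g r) = r • lf0 k x y g := by
  rw [lf_eq]
  exact Finsupp.sum_single_index (zero_smul _ _)

theorem lf_smul (x y : P) (c : k) (a : MonoidAlgebra k Γ) : lf x y (c • a) = c • lf x y a := by
  induction a using MonoidAlgebra.induction_linear with
  | zero => rw [smul_zero, lf_zero, smul_zero]
  | add a b ha hb => rw [smul_add, lf_add, ha, hb, lf_add, smul_add]
  | single g r => rw [MonoidAlgebra.smul_single, lf_single, lf_single, smul_eq_mul, mul_smul]

/-- The additive map. -/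
noncomputable def lfA (x y : P) : MonoidAlgebra k Γ →+ MonoidAlgebra k (Mo Γ P) where
  toFun := lf x y
  map_zero' := lf_zero x y
  map_add' := lf_add x y

theorem lfA_apply (x y : P) (a : MonoidAlgebra k Γ) : lfA x y a = lf x y a := rfl

theorem lf_sum {ι : Type} (s : Finset ι) (f : ι → MonoidAlgebra k Γ) (x y : P) :
    lf x y (∑ i ∈ s, f i) = ∑ i ∈ s, lf x y (f i) := map_sum (lfA x y) f s

theorem lf0_mul {x y z : P} {g h : Γ} (h1 : g • y ≤ x) (h2 : h • z ≤ y) :
    lf0 k x y g * lf0 k y z h = lf0 k x z (g * h) := by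
  have h3 : (g * h) • z ≤ x := by
    rw [mul_smul]
    exact (MonoAct.mono g h2).trans h1
  rw [lf0_pos h1, lf0_pos h2, lf0_pos h3, hk_mul_pos (show y = y from rfl)]
  rfl

/-- Induction over the elements with support in a set. -/
theorem ind_supp {R G : Type} [CommRing R] {p : G → Prop} {M : MonoidAlgebra R G → Prop}
    (h0 : M 0) (ha : ∀ x y, M x → M y → M (x + y))
    (hs : ∀ g r, p g → M (MonoidAlgebra.single g r)) (a : MonoidAlgebra R G)
    (h : ∀ g, a.coeff g ≠ 0 → p g) : M a := by
  have e : a = ∑ g ∈ a.coeff.support, MonoidAlgebra.single g (a.coeff g) := by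
    conv_lhs => rw [← MonoidAlgebra.sum_coeff_single a]
    rfl
  rw [e]
  exact Finset.sum_induction _ M ha h0 fun g hg => hs g _ (h g (Finsupp.mem_support_iff.1 hg))

/-- Label respecting elements multiply. -/
theorem lf_mul {x y z : P} {a b : MonoidAlgebra k Γ} (ha : ∀ g, a.coeff g ≠ 0 → g • y ≤ x)
    (hb : ∀ g, b.coeff g ≠ 0 → g • z ≤ y) : lf x y a * lf y z b = lf x z (a * b) := by
  refine ind_supp (p := fun g => g • y ≤ x) (M := fun a => lf x y a * lf y z b = lf x z (a * b))
    ?_ ?_ ?_ a ha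
  · rw [lf_zero, zero_mul, zero_mul, lf_zero]
  · intro a a' h h'
    rw [lf_add, add_mul, h, h', add_mul, lf_add]
  · intro g r hg
    refine ind_supp (p := fun g => g • z ≤ y) (M := fun b => lf x y (MonoidAlgebra.single g r) *
      lf y z b = lf x z (MonoidAlgebra.single g r * b)) ?_ ?_ ?_ b hb
    · rw [lf_zero, mul_zero, mul_zero, lf_zero]
    · intro b b' h h'
      rw [lf_add, mul_add, h, h', mul_add, lf_add]
    · intro g' r' hg'
      rw [lf_single, lf_single, MonoidAlgebra.single_mul_single, lf_single, smul_mul_smul_comm,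
        lf0_mul hg hg']

/-- The product for different middle objects. -/
theorem lf_mul_ne {x y y' z : P} (h : y ≠ y') (a b : MonoidAlgebra k Γ) :
    lf x y a * lf y' z b = 0 := by
  have h0 : ∀ g g' : Γ, lf0 k x y g * lf0 k y' z g' = 0 := by
    intro g g'
    by_cases h1 : g • y ≤ x
    · by_cases h2 : g' • z ≤ y'
      · rw [lf0_pos h1, lf0_pos h2]
        exact hk_mul_neg h
      · rw [lf0_neg h2, mul_zero]
    · rw [lf0_neg h1, zero_mul]
  induction a using MonoidAlgebra.induction_linear with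
  | zero => rw [lf_zero, zero_mul]
  | add a a' ha ha' => rw [lf_add, add_mul, ha, ha', add_zero]
  | single g r =>
    induction b using MonoidAlgebra.induction_linear with
    | zero => rw [lf_zero, mul_zero]
    | add b b' hb hb' => rw [lf_add, mul_add, hb, hb', add_zero]
    | single g' r' => rw [lf_single, lf_single, smul_mul_smul_comm, h0, smul_zero]

theorem lf_one (x : P) : lf x x (1 : MonoidAlgebra k Γ) = hk k (idT Γ x) := by
  rw [MonoidAlgebra.one_def, lf_single, one_smul, lf0_pos (one_smul Γ x).le]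
  rfl

end Lf

section Th

variable {k Γ P : Type} [CommRing k] [Group Γ] [PartialOrder P] [MulAction Γ P] [MonoAct Γ P]

/-- The morphism of an element of the stabiliser. -/
def stT (x : P) (h : MulAction.stabilizer Γ x) : Tri Γ P :=
  ⟨x, (h : Γ), x, (MulAction.mem_stabilizer_iff.1 h.2).le⟩

theorem thf_eq (x : P) (a : MonoidAlgebra k (MulAction.stabilizer Γ x)) :
    thf x a = a.coeff.sum fun h r => r • hk k (stT x h) := rfl

theorem thf_zero (x : P) : thf x (0 : MonoidAlgebra k (MulAction.stabilizer Γ x)) = 0 := by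
  rw [thf_eq]
  exact Finsupp.sum_zero_index

theorem thf_add (x : P) (a b : MonoidAlgebra k (MulAction.stabilizer Γ x)) :
    thf x (a + b) = thf x a + thf x b := by
  rw [thf_eq, thf_eq, thf_eq]
  change Finsupp.sum (a.coeff + b.coeff) _ = _
  exact Finsupp.sum_add_index' (fun g => zero_smul _ _) fun g r r' => add_smul _ _ _

theorem thf_single (x : P) (h : MulAction.stabilizer Γ x) (r : k) :
    thf x (MonoidAlgebra.single h r) = r • hk k (stT x h) := by
  rw [thf_eq]
  exact Finsupp.sum_single_index (zero_smul _ _)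

theorem thf_mul (x : P) (a b : MonoidAlgebra k (MulAction.stabilizer Γ x)) :
    thf x (a * b) = thf x a * thf x b := by
  induction a using MonoidAlgebra.induction_linear with
  | zero => rw [zero_mul, thf_zero, zero_mul]
  | add a a' ha ha' => rw [add_mul, thf_add, ha, ha', thf_add, add_mul]
  | single g r =>
    induction b using MonoidAlgebra.induction_linear with
    | zero => rw [mul_zero, thf_zero, mul_zero]
    | add b b' hb hb' => rw [mul_add, thf_add, hb, hb', thf_add, mul_add]
    | single g' r' =>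
      rw [MonoidAlgebra.single_mul_single, thf_single, thf_single, thf_single, smul_mul_smul_comm,
        hk_mul_pos (show (stT x g).b = (stT x g').a from rfl)]
      rfl

theorem thf_one (x : P) : thf x (1 : MonoidAlgebra k (MulAction.stabilizer Γ x)) =
    hk k (idT Γ x) := by
  rw [MonoidAlgebra.one_def, thf_single, one_smul]
  rfl

/-- The homomorphism of rings without unit. -/
noncomputable def thR (k : Type) [CommRing k] (x : P) :
    MonoidAlgebra k (MulAction.stabilizer Γ x) →ₙ+* MonoidAlgebra k (Mo Γ P) where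
  toFun := thf x
  map_mul' := thf_mul x
  map_zero' := thf_zero x
  map_add' := thf_add x

theorem thR_apply (x : P) (a : MonoidAlgebra k (MulAction.stabilizer Γ x)) :
    thR k x a = thf x a := rfl

theorem lf_incl (x : P) (a : MonoidAlgebra k (MulAction.stabilizer Γ x)) :
    lf x x (MonoidAlgebra.mapDomainRingHom k (MulAction.stabilizer Γ x).subtype a) = thf x a := by
  induction a using MonoidAlgebra.induction_linear with
  | zero => rw [map_zero, lf_zero, thf_zero]
  | add a b ha hb => rw [map_add, lf_add, ha, hb, thf_add]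
  | single h r =>
    rw [thf_single]
    have e : MonoidAlgebra.mapDomainRingHom k (MulAction.stabilizer Γ x).subtype
        (MonoidAlgebra.single h r) = MonoidAlgebra.single (h : Γ) r := by
      simp
    rw [e, lf_single, lf0_pos (MulAction.mem_stabilizer_iff.1 h.2).le]
    rfl

end Th

section Corner

variable {A B K : Type} [Ring A] [Ring B] [CommGroup K]

theorem cor_mul (θ : A →ₙ+* B) {n : Type} [Fintype n] [DecidableEq n] (M N : Matrix n n A) :
    cor θ (M * N) = cor θ M * cor θ N := by
  unfold cor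
  have h1 : ∀ a, θ a * θ 1 = θ a := fun a => by rw [← map_mul, mul_one]
  have h2 : ∀ a, θ 1 * θ a = θ a := fun a => by rw [← map_mul, one_mul]
  have e1 : ∀ M : Matrix n n A, M.map θ * (Matrix.diagonal fun _ => 1 - θ 1) = 0 := by
    intro M
    ext i j
    rw [Matrix.mul_diagonal, Matrix.map_apply, mul_sub, mul_one, h1, sub_self]
    rfl
  have e2 : ∀ M : Matrix n n A, (Matrix.diagonal fun _ => 1 - θ 1) * M.map θ = 0 := by
    intro M
    ext i j
    rw [Matrix.diagonal_mul, Matrix.map_apply, sub_mul, one_mul, h2, sub_self]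
    rfl
  have e3 : (1 - θ 1) * (1 - θ 1) = 1 - θ 1 := by
    rw [mul_sub, mul_one, sub_mul, one_mul, h1, sub_self, sub_zero]
  have e4 : (M * N).map θ = M.map θ * N.map θ := by
    ext i j
    rw [Matrix.map_apply, Matrix.mul_apply, Matrix.mul_apply, map_sum]
    exact Finset.sum_congr rfl fun l _ => map_mul θ _ _
  rw [Matrix.add_mul, Matrix.mul_add, Matrix.mul_add, e1, e2, Matrix.diagonal_mul_diagonal, e3, e4,
    add_zero, zero_add]

theorem cor_one (θ : A →ₙ+* B) {n : Type} [Fintype n] [DecidableEq n] :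
    cor θ (1 : Matrix n n A) = 1 := by
  unfold cor
  ext i j
  rw [Matrix.add_apply, Matrix.map_apply]
  by_cases h : i = j
  · subst h
    rw [Matrix.one_apply_eq, Matrix.one_apply_eq, Matrix.diagonal_apply_eq]
    abel
  · rw [Matrix.one_apply_ne h, Matrix.one_apply_ne h, Matrix.diagonal_apply_ne _ h, map_zero,
      add_zero]

theorem cor_unit (θ : A →ₙ+* B) {n : Type} [Fintype n] [DecidableEq n] {M : Matrix n n A}
    (hM : IsUnit M) : IsUnit (cor θ M) := by
  obtain ⟨u, rfl⟩ := hM
  exact ⟨⟨cor θ u.1, cor θ u.2, by rw [← cor_mul, u.3, cor_one],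
    by rw [← cor_mul, u.4, cor_one]⟩, rfl⟩

/-- The corner invariant. -/
noncomputable def corK (θ : A →ₙ+* B) (κ : K1Fun B K) : K1Fun A K where
  f := fun {n} _ _ M => κ.f (cor θ M)
  mul := fun {n} _ _ M N hM hN => by rw [cor_mul, κ.mul _ _ (cor_unit θ hM) (cor_unit θ hN)]
  reindex := fun {n m} _ _ _ _ e M hM => by
    have h := κ.reindex e (cor θ M) (cor_unit θ hM)
    rw [← h]
    congr 1
    unfold cor
    ext i j
    rw [Matrix.submatrix_apply, Matrix.add_apply, Matrix.add_apply, Matrix.map_apply,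
      Matrix.map_apply, Matrix.submatrix_apply]
    congr 1
    by_cases hij : i = j
    · subst hij
      rw [Matrix.diagonal_apply_eq, Matrix.diagonal_apply_eq]
    · rw [Matrix.diagonal_apply_ne _ hij,
        Matrix.diagonal_apply_ne _ fun h => hij (e.symm.injective h)]
  tri := fun {n m} _ _ _ _ M N D hM hD => by
    have h := κ.tri (cor θ M) (N.map θ) (cor θ D) (cor_unit θ hM) (cor_unit θ hD)
    rw [← h]
    congr 1
    unfold cor
    ext i j
    rcases i with i | i <;> rcases j with j | j
    · simp only [Matrix.add_apply, Matrix.map_apply, Matrix.fromBlocks_apply₁₁]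
      congr 1
      by_cases hij : i = j
      · subst hij
        rw [Matrix.diagonal_apply_eq, Matrix.diagonal_apply_eq]
      · rw [Matrix.diagonal_apply_ne _ hij,
          Matrix.diagonal_apply_ne _ fun h => hij (Sum.inl_injective h)]
    · simp only [Matrix.add_apply, Matrix.map_apply, Matrix.fromBlocks_apply₁₂]
      rw [Matrix.diagonal_apply_ne _ (by simp), add_zero]
    · simp only [Matrix.add_apply, Matrix.map_apply, Matrix.fromBlocks_apply₂₁]
      rw [Matrix.diagonal_apply_ne _ (by simp), add_zero, Matrix.zero_apply, map_zero,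
        Matrix.zero_apply]
    · simp only [Matrix.add_apply, Matrix.map_apply, Matrix.fromBlocks_apply₂₂]
      congr 1
      by_cases hij : i = j
      · subst hij
        rw [Matrix.diagonal_apply_eq, Matrix.diagonal_apply_eq]
      · rw [Matrix.diagonal_apply_ne _ hij,
          Matrix.diagonal_apply_ne _ fun h => hij (Sum.inr_injective h)]

theorem corK_f (θ : A →ₙ+* B) (κ : K1Fun B K) {n : Type} [Fintype n] [DecidableEq n]
    (M : Matrix n n A) : (corK θ κ).f M = κ.f (cor θ M) := rfl

end Corner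

end Pool.Agent.BB
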