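import Pool.Agent.Lib.MP_8f66f0_al_BB.Fun

/-! # From matrices over `k[Mo Γ P]` to label respecting matrices (project GLn, part BB, K8) -/

set_option autoImplicit false
set_option linter.unusedSectionVars false

namespace Pool.Agent.BB

open Pool.Agent.GLA Pool.Agent.Wald Pool.Agent.Ind Pool.Agent.Hier Pool.Agent.TreeC
open Pool.Agent.HierR (Mo MoN Tri Mo0 MonoAct mA)

section RS

variable {k Γ P : Type} [CommRing k] [Group Γ] [PartialOrder P] [MulAction Γ P] [MonoAct Γ P]

/-- The support consists of `g` with `g • y ≤ x`. -/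
def RS (x y : P) (a : MonoidAlgebra k Γ) : Prop := ∀ g, a.coeff g ≠ 0 → g • y ≤ x

theorem RS.zero (x y : P) : RS x y (0 : MonoidAlgebra k Γ) := fun _ h => absurd rfl h

theorem RS.add {x y : P} {a b : MonoidAlgebra k Γ} (ha : RS x y a) (hb : RS x y b) :
    RS x y (a + b) := by
  intro g hg
  by_cases h : a.coeff g = 0
  · refine hb g fun h1 => hg ?_
    change a.coeff g + b.coeff g = 0
    rw [h, h1, add_zero]
  · exact ha g h

theorem RS.neg {x y : P} {a : MonoidAlgebra k Γ} (ha : RS x y a) : RS x y (-a) := by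
  intro g hg
  refine ha g fun h1 => hg ?_
  change -a.coeff g = 0
  rw [h1, neg_zero]

theorem RS.sub {x y : P} {a b : MonoidAlgebra k Γ} (ha : RS x y a) (hb : RS x y b) :
    RS x y (a - b) := by
  rw [sub_eq_add_neg]
  exact ha.add hb.neg

theorem RS.single {x y : P} {g : Γ} (h : g • y ≤ x) (r : k) :
    RS x y (MonoidAlgebra.single g r : MonoidAlgebra k Γ) := by
  intro g' hg'
  by_cases h1 : g = g'
  · rw [← h1]
    exact h
  · exact absurd (Finsupp.single_eq_of_ne' h1) hg'

theorem RS.smul {x y : P} {a : MonoidAlgebra k Γ} (ha : RS x y a) (c : k) : RS x y (c • a) := by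
  intro g hg
  refine ha g fun h1 => hg ?_
  change c • a.coeff g = 0
  rw [h1, smul_zero]

theorem RS.one (x : P) : RS x x (1 : MonoidAlgebra k Γ) := by
  rw [MonoidAlgebra.one_def]
  exact RS.single (one_smul Γ x).le 1

theorem RS.sum {ι : Type} (s : Finset ι) {x y : P} (f : ι → MonoidAlgebra k Γ)
    (h : ∀ i ∈ s, RS x y (f i)) : RS x y (∑ i ∈ s, f i) :=
  Finset.sum_induction f (RS x y) (fun _ _ => RS.add) (RS.zero x y) h

theorem RS.mul {x y z : P} {a b : MonoidAlgebra k Γ} (ha : RS x y a) (hb : RS y z b) :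
    RS x z (a * b) := by
  refine ind_supp (p := fun g => g • y ≤ x) (M := fun a => RS x z (a * b)) ?_ ?_ ?_ a ha
  · rw [zero_mul]
    exact RS.zero x z
  · intro a a' h h'
    rw [add_mul]
    exact h.add h'
  · intro g r hg
    refine ind_supp (p := fun g => g • z ≤ y)
      (M := fun b => RS x z (MonoidAlgebra.single g r * b)) ?_ ?_ ?_ b hb
    · rw [mul_zero]
      exact RS.zero x z
    · intro b b' h h'
      rw [mul_add]
      exact h.add h'
    · intro g' r' hg'
      rw [MonoidAlgebra.single_mul_single]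
      refine RS.single ?_ _
      rw [mul_smul]
      exact (MonoAct.mono g hg').trans hg

theorem RS.en0 (x y : P) (s : Mo Γ P) : RS x y (en0 k x y s) := by
  cases s with
  | one =>
    by_cases h : x = y
    · subst h
      rw [en0_one_eq]
      exact RS.one x
    · rw [en0_one_ne h]
      exact RS.zero x y
  | zero => exact RS.zero x y
  | mor t =>
    by_cases h : t.a = x
    · by_cases h' : t.b = y
      · rw [en0_mor_pos h h']
        refine RS.single ?_ 1
        rw [← h, ← h']
        exact t.le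
      · rw [en0_mor_ne' h']
        exact RS.zero x y
    · rw [en0_mor_ne h]
      exact RS.zero x y

theorem RS.en (x y : P) (r : MonoidAlgebra k (Mo Γ P)) : RS x y (en x y r) := by
  induction r using MonoidAlgebra.induction_linear with
  | zero =>
    rw [en_zero]
    exact RS.zero x y
  | add a b ha hb =>
    rw [en_add]
    exact ha.add hb
  | single s c =>
    rw [en_single]
    exact (RS.en0 x y s).smul c

end RS

section RespL

variable {k Γ P n m l : Type} [CommRing k] [Group Γ] [PartialOrder P] [MulAction Γ P]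
  [MonoAct Γ P]

theorem Resp.mul [Fintype m] {c : n → P} {d : m → P} {f : l → P}
    {A : Matrix n m (MonoidAlgebra k Γ)} {B : Matrix m l (MonoidAlgebra k Γ)} (hA : Resp c d A)
    (hB : Resp d f B) : Resp c f (A * B) := by
  intro i j
  change RS (c i) (f j) ((A * B) i j)
  rw [Matrix.mul_apply]
  exact RS.sum _ _ fun q _ => RS.mul (hA i q) (hB q j)

theorem Resp.sub {c : n → P} {d : m → P} {A B : Matrix n m (MonoidAlgebra k Γ)}
    (hA : Resp c d A) (hB : Resp c d B) : Resp c d (A - B) :=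
  fun i j => RS.sub (hA i j) (hB i j)

theorem Resp.one [DecidableEq n] (c : n → P) : Resp c c (1 : Matrix n n (MonoidAlgebra k Γ)) := by
  intro i j
  by_cases h : i = j
  · subst h
    rw [Matrix.one_apply_eq]
    exact RS.one (c i)
  · rw [Matrix.one_apply_ne h]
    exact RS.zero _ _

theorem resp_mF (F : Finset P) (A : Matrix m n (MonoidAlgebra k (Mo Γ P))) :
    Resp (fun p : m × F => (p.2 : P)) (fun p : n × F => (p.2 : P)) (mF F A) :=
  fun i j => RS.en _ _ _

end RespL

section Entries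

variable {k Γ P : Type} [CommRing k] [Group Γ] [PartialOrder P] [MulAction Γ P] [MonoAct Γ P]

theorem en_zk (x y : P) : en x y (zk k Γ P) = 0 := by
  unfold zk
  rw [en_single, en0_zero, smul_zero]

theorem en_hk (x y : P) (t : Tri Γ P) : en x y (hk k t) = en0 k x y (.mor t) := by
  unfold hk
  rw [en_sub, en_single, en_single, en0_zero, smul_zero, sub_zero, one_smul]

theorem en_lf {x y c d : P} [Decidable (c = x ∧ d = y)] (a : MonoidAlgebra k Γ) (ha : RS c d a) :
    en x y (lf c d a) = if c = x ∧ d = y then a else 0 := by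
  refine ind_supp (p := fun g => g • d ≤ c)
    (M := fun a => en x y (lf c d a) = if c = x ∧ d = y then a else 0) ?_ ?_ ?_ a ha
  · rw [lf_zero, en_zero, ite_self]
  · intro a b ha hb
    rw [lf_add, en_add, ha, hb]
    by_cases h : c = x ∧ d = y
    · rw [if_pos h, if_pos h, if_pos h]
    · rw [if_neg h, if_neg h, if_neg h, add_zero]
  · intro g r hg
    rw [lf_single, lf0_pos hg, en_smul, en_hk]
    by_cases h : c = x ∧ d = y
    · rw [if_pos h, en0_mor_pos (t := ⟨c, g, d, hg⟩) h.1 h.2, MonoidAlgebra.smul_single, smul_eq_mul,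
        mul_one]
    · rw [if_neg h]
      by_cases h1 : c = x
      · rw [en0_mor_ne' (t := ⟨c, g, d, hg⟩) fun h2 => h ⟨h1, h2⟩, smul_zero]
      · rw [en0_mor_ne (t := ⟨c, g, d, hg⟩) h1, smul_zero]

/-- The entries of the standard idempotents. -/
theorem en_qst {s : MonoidAlgebra k (Mo Γ P)} (hs : s = 1 ∨ ∃ a, s = qst k Γ P a) :
    (∀ x y : P, x ≠ y → en x y s = 0) ∧ ∀ x : P, en x x s = 0 ∨ en x x s = 1 := by
  classical
  rcases hs with rfl | ⟨a, rfl⟩
  · refine ⟨fun x y h => ?_, fun x => Or.inr ?_⟩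
    · rw [en_one, if_neg h]
    · rw [en_one, if_pos rfl]
  · cases a with
    | none => exact ⟨fun x y _ => en_zk x y, fun x => Or.inl (en_zk x x)⟩
    | some z =>
      have e1 : ∀ x y : P, en x y (qst k Γ P (some z)) = en0 k x y (.mor (idT Γ z)) :=
        fun x y => en_hk x y _
      refine ⟨fun x y h => ?_, fun x => ?_⟩
      · rw [e1]
        by_cases h1 : z = x
        · exact en0_mor_ne' (t := idT Γ z) fun h2 : z = y => h (h1.symm.trans h2)
        · exact en0_mor_ne (t := idT Γ z) h1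
      · rw [e1]
        by_cases h1 : z = x
        · exact Or.inr (en0_mor_pos (t := idT Γ z) h1 h1)
        · exact Or.inl (en0_mor_ne (t := idT Γ z) h1)

theorem qst_idem {s : MonoidAlgebra k (Mo Γ P)} (hs : s = 1 ∨ ∃ a, s = qst k Γ P a) :
    s * s = s := by
  rcases hs with rfl | ⟨a, rfl⟩
  · exact one_mul 1
  · cases a with
    | none => exact zk_mul_zk
    | some z => exact hk_idT_idem z

end Entries

section Swap

variable {R N₁ N₂ : Type} [Ring R] [Fintype N₁] [DecidableEq N₁] [Fintype N₂] [DecidableEq N₂]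

/-- The involution which exchanges two isomorphic idempotents. -/
theorem swap_w (a : Matrix N₁ N₁ R) (b : Matrix N₂ N₂ R) (U : Matrix N₁ N₂ R) (V : Matrix N₂ N₁ R)
    (ha : a * a = a) (hb : b * b = b) (h1 : U * V = a) (h2 : V * U = b) :
    Matrix.fromBlocks (1 - a) (a * U) (V * a) (1 - b) *
        Matrix.fromBlocks (1 - a) (a * U) (V * a) (1 - b) = 1 ∧
      Matrix.fromBlocks (1 - a) (a * U) (V * a) (1 - b) * Matrix.fromBlocks a 0 0 0 *
        Matrix.fromBlocks (1 - a) (a * U) (V * a) (1 - b) = Matrix.fromBlocks 0 0 0 b := by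
  have h3 : a * U = U * b := by rw [← h1, ← h2, Matrix.mul_assoc]
  have h4 : V * a = b * V := by rw [← h1, ← h2, Matrix.mul_assoc]
  have a1 : (1 - a) * (1 - a) = 1 - a := by
    rw [Matrix.sub_mul, Matrix.one_mul, Matrix.mul_sub, Matrix.mul_one, ha, sub_self, sub_zero]
  have b1 : (1 - b) * (1 - b) = 1 - b := by
    rw [Matrix.sub_mul, Matrix.one_mul, Matrix.mul_sub, Matrix.mul_one, hb, sub_self, sub_zero]
  have e1 : (1 - a) * (1 - a) + a * U * (V * a) = 1 := by
    rw [a1, Matrix.mul_assoc a, ← Matrix.mul_assoc U V, h1, ha, ha, sub_add_cancel]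
  have e2 : (1 - a) * (a * U) + a * U * (1 - b) = 0 := by
    rw [← Matrix.mul_assoc, Matrix.sub_mul, Matrix.one_mul, ha, sub_self, Matrix.zero_mul,
      Matrix.mul_sub, Matrix.mul_one, h3, Matrix.mul_assoc, hb, sub_self, add_zero]
  have e3 : V * a * (1 - a) + (1 - b) * (V * a) = 0 := by
    rw [Matrix.mul_sub, Matrix.mul_one, Matrix.mul_assoc, ha, sub_self, zero_add, Matrix.sub_mul,
      Matrix.one_mul, h4, ← Matrix.mul_assoc, hb, sub_self]
  have e5 : V * a * (a * U) = b := by
    rw [← Matrix.mul_assoc, Matrix.mul_assoc V, ha, Matrix.mul_assoc, h3, ← Matrix.mul_assoc, h2, hb]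
  have e4 : V * a * (a * U) + (1 - b) * (1 - b) = 1 := by
    rw [e5, b1, add_sub_cancel]
  refine ⟨?_, ?_⟩
  · rw [Matrix.fromBlocks_multiply, e1, e2, e3, e4, Matrix.fromBlocks_one]
  · have f1 : Matrix.fromBlocks (1 - a) (a * U) (V * a) (1 - b) * Matrix.fromBlocks a 0 0 0 =
        Matrix.fromBlocks 0 0 (V * a) 0 := by
      rw [Matrix.fromBlocks_multiply]
      simp only [Matrix.mul_zero, add_zero, Matrix.sub_mul, Matrix.one_mul, ha, sub_self,
        Matrix.mul_assoc]
    rw [f1, Matrix.fromBlocks_multiply]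
    simp only [Matrix.zero_mul, add_zero, Matrix.mul_sub, Matrix.mul_one, Matrix.mul_assoc V a a,
      ha, sub_self, e5]

end Swap

theorem desc_end {R N n m' : Type} [Ring R] [Fintype N] [DecidableEq N] [Fintype n] [DecidableEq n]
    [Fintype m'] [DecidableEq m'] (E : n ⊕ m' ≃ N) (w a0 b0 : Matrix N N R) (e : Matrix n n R)
    (hw1 : w * w = 1) (hw2 : w * a0 * w = b0)
    (h11 : ∀ i j, a0 (E (Sum.inl i)) (E (Sum.inl j)) = e i j)
    (h12 : ∀ i q, a0 (E (Sum.inl i)) (E (Sum.inr q)) = 0)
    (h21 : ∀ q j, a0 (E (Sum.inr q)) (E (Sum.inl j)) = 0)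
    (h22 : ∀ q q', q ≠ q' → a0 (E (Sum.inr q)) (E (Sum.inr q')) = 0)
    (h22' : ∀ q, a0 (E (Sum.inr q)) (E (Sum.inr q)) = 0 ∨ a0 (E (Sum.inr q)) (E (Sum.inr q)) = 1)
    (hb0 : ∀ q q', q ≠ q' → b0 q q' = 0) (hb1 : ∀ q, b0 q q = 0 ∨ b0 q q = 1)
    (sp : m' → Prop) (hsp : ∀ q, sp q ↔ a0 (E (Sum.inr q)) (E (Sum.inr q)) = 1)
    (tp : n ⊕ m' → Prop) (htp : ∀ q, tp q ↔ b0 (E q) (E q) = 1)
    [DecidablePred sp] [DecidablePred tp] :
    w.submatrix E E * w.submatrix E E = 1 ∧
      w.submatrix E E * Matrix.fromBlocks e 0 0 (Matrix.diagonal fun q => if sp q then 1 else 0) *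
        w.submatrix E E = Matrix.diagonal fun q => if tp q then 1 else 0 := by
  refine ⟨by rw [Matrix.submatrix_mul_equiv, hw1, Matrix.submatrix_one_equiv], ?_⟩
  have h1 : Matrix.fromBlocks e 0 0 (Matrix.diagonal fun q => if sp q then 1 else 0) =
      a0.submatrix E E := by
    apply Matrix.ext
    rintro (i | q) (j | q')
    · exact (h11 i j).symm
    · exact (h12 i q').symm
    · exact (h21 q j).symm
    · rw [Matrix.fromBlocks_apply₂₂]
      by_cases h : q = q'
      · subst h
        rw [Matrix.diagonal_apply_eq]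
        change _ = a0 (E (Sum.inr q)) (E (Sum.inr q))
        by_cases h3 : sp q
        · rw [if_pos h3, (hsp q).1 h3]
        · rw [if_neg h3]
          exact ((h22' q).resolve_right fun h4 => h3 ((hsp q).2 h4)).symm
      · rw [Matrix.diagonal_apply_ne _ h]
        exact (h22 q q' h).symm
  rw [h1, Matrix.submatrix_mul_equiv, Matrix.submatrix_mul_equiv, hw2]
  apply Matrix.ext
  intro q q'
  rw [Matrix.submatrix_apply]
  by_cases h : q = q'
  · subst h
    rw [Matrix.diagonal_apply_eq]
    by_cases h3 : tp q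
    · rw [if_pos h3, (htp q).1 h3]
    · rw [if_neg h3]
      exact (hb1 (E q)).resolve_right fun h4 => h3 ((htp q).2 h4)
  · rw [Matrix.diagonal_apply_ne _ h]
    exact hb0 _ _ fun h1 => h (E.injective h1)

theorem desc : S_desc := by
  classical
  intro k Γ P _ _ _ _ _ n m l _ _ _ _ _ _ c e hc he s t U V hs ht hUV hVU
  have hp : (Matrix.of fun i j => lf (c i) (c j) (e i j)) *
      (Matrix.of fun i j => lf (c i) (c j) (e i j)) =
      (Matrix.of fun i j => lf (c i) (c j) (e i j) : Matrix n n (MonoidAlgebra k (Mo Γ P))) := by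
    apply Matrix.ext
    intro i j
    rw [Matrix.mul_apply, Matrix.of_apply]
    conv_rhs => rw [← he, Matrix.mul_apply, lf_sum]
    exact Finset.sum_congr rfl fun q _ => lf_mul (hc i q) (hc q j)
  have hUV2 : U * V * (U * V) = U * V := by
    rw [hUV, Matrix.fromBlocks_multiply]
    simp only [Matrix.zero_mul, Matrix.mul_zero, add_zero, zero_add, hp,
      Matrix.diagonal_mul_diagonal]
    congr 2
    funext i
    exact qst_idem (hs i)
  have hVU2 : V * U * (V * U) = V * U := by
    rw [hVU, Matrix.diagonal_mul_diagonal]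
    congr 1
    funext i
    exact qst_idem (ht i)
  obtain ⟨F, hFU, hFV, hFc⟩ : ∃ F : Finset P, SpF F U ∧ SpF F V ∧ ∀ i, c i ∈ F :=
    ⟨Fs U ∪ Fs V ∪ Finset.univ.image c,
      (spF_Fs U).mono (Finset.subset_union_left.trans Finset.subset_union_left),
      (spF_Fs V).mono (Finset.subset_union_right.trans Finset.subset_union_left),
      fun i => Finset.mem_union_right _ (Finset.mem_image_of_mem c (Finset.mem_univ i))⟩
  have hmU : ∀ {q : Type} (X : Matrix l q (MonoidAlgebra k (Mo Γ P))),
      mF F (U * X) = mF F U * mF F X := fun X => mF_mul k Γ P F _ _ _ U X (Or.inl hFU)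
  have hmV : ∀ {q : Type} (X : Matrix (n ⊕ m) q (MonoidAlgebra k (Mo Γ P))),
      mF F (V * X) = mF F V * mF F X := fun X => mF_mul k Γ P F _ _ _ V X (Or.inl hFV)
  -- the idempotents
  have ha : mF F (U * V) * mF F (U * V) = mF F (U * V) := by
    conv_rhs => rw [← hUV2, Matrix.mul_assoc, hmU, hmV]
    conv_lhs => rw [hmU V, Matrix.mul_assoc, ← hmU V]
  have hb : mF F (V * U) * mF F (V * U) = mF F (V * U) := by
    conv_rhs => rw [← hVU2, Matrix.mul_assoc, hmV, hmU]
    conv_lhs => rw [hmV U, Matrix.mul_assoc, ← hmV U]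
  obtain ⟨hw1, hw2⟩ := swap_w (mF F (U * V)) (mF F (V * U)) (mF F U) (mF F V) ha hb (hmU V).symm
    (hmV U).symm
  generalize hw : Matrix.fromBlocks (1 - mF F (U * V)) (mF F (U * V) * mF F U)
    (mF F V * mF F (U * V)) (1 - mF F (V * U)) = w at hw1 hw2
  -- labels
  let lab : ((n ⊕ m) × F) ⊕ (l × F) → P := Sum.elim (fun p => (p.2 : P)) (fun p => (p.2 : P))
  have hwR : Resp lab lab w := by
    have r1 := resp_mF F (U * V)
    have r2 := resp_mF F (V * U)
    have r3 := resp_mF F U
    have r4 := resp_mF F V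
    have q1 := (Resp.one (k := k) (Γ := Γ) fun p : (n ⊕ m) × F => (p.2 : P)).sub r1
    have q2 := (Resp.one (k := k) (Γ := Γ) fun p : l × F => (p.2 : P)).sub r2
    have q3 := r1.mul r3
    have q4 := r4.mul r1
    intro i j
    rw [← hw]
    rcases i with i | i <;> rcases j with j | j
    · exact q1 i j
    · exact q3 i j
    · exact q4 i j
    · exact q2 i j
  -- the embedding
  let ι : n → ((n ⊕ m) × F) ⊕ (l × F) := fun i => Sum.inl (Sum.inl i, ⟨c i, hFc i⟩)
  have hι : Function.Injective ι := by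
    intro i j hij
    have h1 := Sum.inl_injective hij
    exact Sum.inl_injective (congrArg Prod.fst h1)
  let m' : Type := {q : ((n ⊕ m) × F) ⊕ (l × F) // ¬ q ∈ Set.range ι}
  let E : n ⊕ m' ≃ ((n ⊕ m) × F) ⊕ (l × F) :=
    ((Equiv.ofInjective ι hι).sumCongr (Equiv.refl m')).trans
      (Equiv.sumCompl fun q => q ∈ Set.range ι)
  have hE1 : ∀ i, E (Sum.inl i) = ι i := fun i => rfl
  have hE2 : ∀ q, E (Sum.inr q) = q.1 := fun q => rfl
  have hlab : ∀ q, lab (E q) = Sum.elim c (fun q : m' => lab q.1) q := by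
    rintro (i | q)
    · rfl
    · rfl
  -- the entries
  let a0 : Matrix (((n ⊕ m) × F) ⊕ (l × F)) (((n ⊕ m) × F) ⊕ (l × F)) (MonoidAlgebra k Γ) :=
    Matrix.fromBlocks (mF F (U * V)) 0 0 0
  let b0 : Matrix (((n ⊕ m) × F) ⊕ (l × F)) (((n ⊕ m) × F) ⊕ (l × F)) (MonoidAlgebra k Γ) :=
    Matrix.fromBlocks 0 0 0 (mF F (V * U))
  have hb0 : ∀ q q', q ≠ q' → b0 q q' = 0 := by
    intro q q' h
    rcases q with q | ⟨i, x⟩ <;> rcases q' with q' | ⟨j, y⟩
    · rfl
    · rfl
    · rfl
    · change en (x : P) (y : P) ((V * U) i j) = 0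
      rw [hVU]
      by_cases h1 : i = j
      · subst h1
        rw [Matrix.diagonal_apply_eq]
        refine (en_qst (ht i)).1 _ _ fun h2 => h ?_
        rw [Subtype.ext h2]
      · rw [Matrix.diagonal_apply_ne _ h1, en_zero]
  have hb1 : ∀ q, b0 q q = 0 ∨ b0 q q = 1 := by
    intro q
    rcases q with q | ⟨i, x⟩
    · exact Or.inl rfl
    · change en (x : P) (x : P) ((V * U) i i) = 0 ∨ en (x : P) (x : P) ((V * U) i i) = 1
      rw [hVU, Matrix.diagonal_apply_eq]
      exact (en_qst (ht i)).2 x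
  have hae : ∀ i j, a0 (ι i) (ι j) = e i j := by
    intro i j
    change en (c i) (c j) ((U * V) (Sum.inl i) (Sum.inl j)) = e i j
    rw [hUV, Matrix.fromBlocks_apply₁₁, Matrix.of_apply, en_lf _ (hc i j), if_pos ⟨rfl, rfl⟩]
  have ha0 : ∀ q q', q ≠ q' → (q ∉ Set.range ι ∨ q' ∉ Set.range ι) → a0 q q' = 0 := by
    intro q q' h hq
    rcases q with ⟨i, x⟩ | q <;> rcases q' with ⟨j, y⟩ | q'
    · change en (x : P) (y : P) ((U * V) i j) = 0
      rw [hUV]
      rcases i with i | i <;> rcases j with j | j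
      · rw [Matrix.fromBlocks_apply₁₁, Matrix.of_apply, en_lf _ (hc i j), if_neg]
        rintro ⟨h1, h2⟩
        rcases hq with hq | hq
        · exact hq ⟨i, by
            change Sum.inl (Sum.inl i, _) = _
            congr 2
            exact Subtype.ext h1⟩
        · exact hq ⟨j, by
            change Sum.inl (Sum.inl j, _) = _
            congr 2
            exact Subtype.ext h2⟩
      · rw [Matrix.fromBlocks_apply₁₂, Matrix.zero_apply, en_zero]
      · rw [Matrix.fromBlocks_apply₂₁, Matrix.zero_apply, en_zero]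
      · rw [Matrix.fromBlocks_apply₂₂]
        by_cases h1 : i = j
        · subst h1
          rw [Matrix.diagonal_apply_eq]
          refine (en_qst (hs i)).1 _ _ fun h2 => h ?_
          rw [Subtype.ext h2]
        · rw [Matrix.diagonal_apply_ne _ h1, en_zero]
    · rfl
    · rfl
    · rfl
  have ha1 : ∀ q, q ∉ Set.range ι → a0 q q = 0 ∨ a0 q q = 1 := by
    intro q hq
    rcases q with ⟨i, x⟩ | q
    · change en (x : P) (x : P) ((U * V) i i) = 0 ∨ en (x : P) (x : P) ((U * V) i i) = 1
      rw [hUV]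
      rcases i with i | i
      · left
        rw [Matrix.fromBlocks_apply₁₁, Matrix.of_apply, en_lf _ (hc i i), if_neg]
        rintro ⟨h1, h2⟩
        exact hq ⟨i, by
            change Sum.inl (Sum.inl i, _) = _
            congr 2
            exact Subtype.ext h1⟩
      · rw [Matrix.fromBlocks_apply₂₂, Matrix.diagonal_apply_eq]
        exact (en_qst (hs i)).2 x
    · exact Or.inl rfl
  let iD : DecidableEq m' := Classical.decEq m'
  let sp : m' → Prop := fun q => a0 q.1 q.1 = 1
  let tp : n ⊕ m' → Prop := fun q => b0 (E q) (E q) = 1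
  let iS : DecidablePred sp := Classical.decPred _
  let iT : DecidablePred tp := Classical.decPred _
  have hend := desc_end E w a0 b0 e hw1 hw2 hae (fun i q => ha0 _ _ (fun h => q.2 ⟨i, h⟩) (Or.inr q.2))
    (fun q j => ha0 _ _ (fun h => q.2 ⟨j, h.symm⟩) (Or.inl q.2))
    (fun q q' h => ha0 _ _ (fun h1 => h (Subtype.ext h1)) (Or.inl q.2)) (fun q => ha1 q.1 q.2)
    hb0 hb1 sp (fun q => Iff.rfl) tp (fun q => Iff.rfl)
  refine ⟨m', inferInstance, iD, fun q => lab q.1, sp, iS, tp, iT, w.submatrix E E,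
    w.submatrix E E, ?_, ?_, hend.1, hend.1, hend.2⟩
  · intro i j
    rw [← hlab, ← hlab]
    exact hwR (E i) (E j)
  · intro i j
    rw [← hlab, ← hlab]
    exact hwR (E i) (E j)

end Pool.Agent.BB
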