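import Pool.Agent.Lib.MP_8f66f0_al_BB.MF

/-! # Invariants of `k[Γ]` give invariants of `k[Mo Γ P]` (project GLn, part BB, K2) -/

set_option autoImplicit false

namespace Pool.Agent.BB

open Pool.Agent.GLA Pool.Agent.Wald Pool.Agent.Ind Pool.Agent.Hier Pool.Agent.TreeC
open Pool.Agent.HierR (Mo MoN Tri Mo0 MonoAct mA)

section Al

variable {k Γ P : Type} [CommRing k] [Group Γ] [PartialOrder P] [MulAction Γ P] [MonoAct Γ P]

theorem one_of_mul {s t : Mo Γ P} (h : s * t = .one) : s = .one ∧ t = .one := by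
  cases s with
  | one =>
    refine ⟨rfl, ?_⟩
    exact (one_mul t).symm.trans h
  | zero => exact absurd h (by rintro ⟨⟩)
  | mor s =>
    cases t with
    | one => exact absurd h (by rintro ⟨⟩)
    | zero => exact absurd h (by rintro ⟨⟩)
    | mor t =>
      rw [Pool.Agent.HierR.Mo.mor_mul_mor] at h
      cases h1 : s.mulO t with
      | none =>
        rw [h1] at h
        exact absurd h (by rintro ⟨⟩)
      | some u =>
        rw [h1] at h
        exact absurd h (by rintro ⟨⟩)

/-- The coefficient of `1` is multiplicative. -/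
theorem coeff_one_mul (a b : MonoidAlgebra k (Mo Γ P)) :
    (a * b).coeff .one = a.coeff .one * b.coeff .one := by
  classical
  induction a using MonoidAlgebra.induction_linear with
  | zero => rw [zero_mul]; exact (zero_mul _).symm
  | add a a' ha ha' =>
    rw [add_mul]
    change (a * b).coeff .one + (a' * b).coeff .one = (a.coeff .one + a'.coeff .one) * _
    rw [ha, ha', add_mul]
  | single s c =>
    induction b using MonoidAlgebra.induction_linear with
    | zero => rw [mul_zero]; exact (mul_zero _).symm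
    | add b b' hb hb' =>
      rw [mul_add]
      change (_ * b).coeff .one + (_ * b').coeff .one = _ * (b.coeff .one + b'.coeff .one)
      rw [hb, hb', mul_add]
    | single t c' =>
      rw [MonoidAlgebra.single_mul_single]
      change (Finsupp.single (s * t) (c * c') : Mo Γ P →₀ k) .one =
        (Finsupp.single s c : Mo Γ P →₀ k) .one * (Finsupp.single t c' : Mo Γ P →₀ k) .one
      by_cases hs : s = .one
      · by_cases ht : t = .one
        · subst hs ht
          rw [show (Mo.one * Mo.one : Mo Γ P) = .one from rfl, Finsupp.single_eq_same,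
            Finsupp.single_eq_same, Finsupp.single_eq_same]
        · rw [Finsupp.single_eq_of_ne' ht, mul_zero,
            Finsupp.single_eq_of_ne' fun h => ht (one_of_mul h).2]
      · rw [Finsupp.single_eq_of_ne' hs, zero_mul,
          Finsupp.single_eq_of_ne' fun h => hs (one_of_mul h).1]

theorem al_mul {m n l : Type} [Fintype n] (A : Matrix m n (MonoidAlgebra k (Mo Γ P)))
    (B : Matrix n l (MonoidAlgebra k (Mo Γ P))) : al (A * B) = al A * al B := by
  funext i j
  change ((A * B) i j).coeff .one = _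
  rw [Matrix.mul_apply, Matrix.mul_apply]
  have h : ∀ (s : Finset n) (f : n → MonoidAlgebra k (Mo Γ P)),
      (∑ i ∈ s, f i).coeff .one = ∑ i ∈ s, (f i).coeff .one := by
    intro s f
    classical
    induction s using Finset.induction_on with
    | empty => rfl
    | insert a s ha ih =>
      rw [Finset.sum_insert ha, Finset.sum_insert ha, ← ih]
      rfl
  rw [h]
  exact Finset.sum_congr rfl fun l _ => coeff_one_mul _ _

theorem al_one {n : Type} [DecidableEq n] :
    al (1 : Matrix n n (MonoidAlgebra k (Mo Γ P))) = 1 := by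
  funext i j
  change ((1 : Matrix n n (MonoidAlgebra k (Mo Γ P))) i j).coeff .one = _
  by_cases h : i = j
  · subst h
    rw [Matrix.one_apply_eq, Matrix.one_apply_eq, MonoidAlgebra.one_def]
    exact Finsupp.single_eq_same
  · rw [Matrix.one_apply_ne h, Matrix.one_apply_ne h]
    rfl

end Al

set_option linter.unusedSectionVars false

section MF

variable {k Γ P : Type} [CommRing k] [Group Γ] [PartialOrder P] [MulAction Γ P] [MonoAct Γ P]

theorem InF.mono {F F' : Finset P} (h : F ⊆ F') {s : Mo Γ P} (hs : InF F s) : InF F' s := by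
  cases s with
  | one => trivial
  | zero => trivial
  | mor t => exact ⟨h hs.1, h hs.2⟩

theorem SpF.mono {F F' : Finset P} (h : F ⊆ F') {m n : Type}
    {A : Matrix m n (MonoidAlgebra k (Mo Γ P))} (hA : SpF F A) : SpF F' A :=
  fun i j s hs => (hA i j s hs).mono h

/-- The objects of a monoid element. -/
noncomputable def ob [DecidableEq P] : Mo Γ P → Finset P
  | .one => ∅
  | .zero => ∅
  | .mor t => {t.a, t.b}

theorem inF_ob [DecidableEq P] (s : Mo Γ P) : InF (ob s) s := by
  cases s with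
  | one => trivial
  | zero => trivial
  | mor t =>
    exact ⟨Finset.mem_insert_self _ _, Finset.mem_insert_of_mem (Finset.mem_singleton_self _)⟩

/-- The objects of a matrix. -/
noncomputable def Fs [DecidableEq P] {m n : Type} [Fintype m] [Fintype n]
    (A : Matrix m n (MonoidAlgebra k (Mo Γ P))) : Finset P :=
  Finset.univ.biUnion fun i => Finset.univ.biUnion fun j => (A i j).coeff.support.biUnion ob

theorem spF_Fs [DecidableEq P] {m n : Type} [Fintype m] [Fintype n]
    (A : Matrix m n (MonoidAlgebra k (Mo Γ P))) : SpF (Fs A) A := by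
  intro i j s hs
  refine (inF_ob s).mono ?_
  intro x hx
  unfold Fs
  rw [Finset.mem_biUnion]
  refine ⟨i, Finset.mem_univ _, ?_⟩
  rw [Finset.mem_biUnion]
  refine ⟨j, Finset.mem_univ _, ?_⟩
  rw [Finset.mem_biUnion]
  exact ⟨s, hs, hx⟩

theorem mF_one (F : Finset P) [DecidableEq P] {n : Type} [DecidableEq n] :
    mF F (1 : Matrix n n (MonoidAlgebra k (Mo Γ P))) = 1 := by
  funext p q
  change en (p.2 : P) (q.2 : P) ((1 : Matrix n n (MonoidAlgebra k (Mo Γ P))) p.1 q.1) = _
  by_cases h : p.1 = q.1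
  · rw [h, Matrix.one_apply_eq, en_one]
    by_cases h' : (p.2 : P) = q.2
    · have h2 : p = q := Prod.ext h (Subtype.ext h')
      rw [if_pos h', h2, Matrix.one_apply_eq]
    · rw [if_neg h', Matrix.one_apply_ne fun h2 => h' (by rw [h2])]
  · rw [Matrix.one_apply_ne h, en_zero, Matrix.one_apply_ne fun h2 => h (by rw [h2])]

theorem mF_unit (F : Finset P) [DecidableEq P] {n : Type} [Fintype n] [DecidableEq n]
    {A : Matrix n n (MonoidAlgebra k (Mo Γ P))} (hA : IsUnit A) (h : SpF F A) :
    IsUnit (mF F A) := by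
  obtain ⟨u, rfl⟩ := hA
  refine ⟨⟨mF F u.1, mF F u.2, ?_, ?_⟩, rfl⟩
  · rw [← mF_mul k Γ P F n n n _ _ (Or.inl h), u.3, mF_one]
  · rw [← mF_mul k Γ P F n n n _ _ (Or.inr h), u.4, mF_one]

/-- Entries at objects outside `F`. -/
theorem en_out {F : Finset P} {x y : P} (h : x ∉ F ∨ y ∉ F) [DecidableEq P]
    (r : MonoidAlgebra k (Mo Γ P)) (hr : ∀ s ∈ r.coeff.support, InF F s) :
    en x y r = if x = y then algebraMap k (MonoidAlgebra k Γ) (r.coeff .one) else 0 := by
  refine ind_supp (p := InF F) (M := fun r => en x y r =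
    if x = y then algebraMap k (MonoidAlgebra k Γ) (r.coeff .one) else 0) ?_ ?_ ?_ r
    (fun s hs => hr s (Finsupp.mem_support_iff.2 hs))
  · rw [en_zero]
    change 0 = if x = y then algebraMap k (MonoidAlgebra k Γ) 0 else 0
    rw [map_zero, ite_self]
  · intro a b ha hb
    rw [en_add, ha, hb]
    change _ = if x = y then algebraMap k (MonoidAlgebra k Γ) (a.coeff .one + b.coeff .one) else 0
    rw [map_add]
    by_cases hxy : x = y
    · rw [if_pos hxy, if_pos hxy, if_pos hxy]
    · rw [if_neg hxy, if_neg hxy, if_neg hxy, add_zero]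
  · intro s c hs
    rw [en_single]
    change _ = if x = y then algebraMap k (MonoidAlgebra k Γ)
      ((Finsupp.single s c : Mo Γ P →₀ k) .one) else 0
    cases s with
    | one =>
      rw [Finsupp.single_eq_same]
      by_cases hxy : x = y
      · subst hxy
        rw [if_pos rfl, en0_one_eq, Algebra.algebraMap_eq_smul_one]
      · rw [if_neg hxy, en0_one_ne hxy, smul_zero]
    | zero =>
      rw [Finsupp.single_eq_of_ne' (by rintro ⟨⟩), map_zero, ite_self, en0_zero, smul_zero]
    | mor t =>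
      rw [Finsupp.single_eq_of_ne' (by rintro ⟨⟩), map_zero, ite_self]
      rcases h with h | h
      · rw [en0_mor_ne (fun h1 => h (by rw [← h1]; exact hs.1)), smul_zero]
      · rw [en0_mor_ne' (fun h1 => h (by rw [← h1]; exact hs.2)), smul_zero]

/-- Reindexing `n × F'` for `F ⊆ F'`. -/
noncomputable def spl [DecidableEq P] {F F' : Finset P} (h : F ⊆ F') (n : Type) :
    n × F' ≃ (n × F) ⊕ (n × (F' \ F : Finset P)) where
  toFun p := if hp : (p.2 : P) ∈ F then Sum.inl (p.1, ⟨p.2, hp⟩)
    else Sum.inr (p.1, ⟨p.2, Finset.mem_sdiff.2 ⟨p.2.2, hp⟩⟩)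
  invFun := Sum.elim (fun p => (p.1, ⟨p.2, h p.2.2⟩))
    fun p => (p.1, ⟨p.2, (Finset.mem_sdiff.1 p.2.2).1⟩)
  left_inv p := by
    by_cases hp : (p.2 : P) ∈ F
    · simp only [dif_pos hp, Sum.elim_inl]
    · simp only [dif_neg hp, Sum.elim_inr]
  right_inv p := by
    rcases p with ⟨i, x, hx⟩ | ⟨i, x, hx⟩
    · simp only [Sum.elim_inl, dif_pos hx]
    · simp only [Sum.elim_inr, dif_neg (Finset.mem_sdiff.1 hx).2]

/-- `al A ⊗ 1`. -/
noncomputable def alG (G : Finset P) [DecidableEq P] {n : Type}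
    (A : Matrix n n (MonoidAlgebra k (Mo Γ P))) : Matrix (n × G) (n × G) k :=
  fun p q => if p.2 = q.2 then al A p.1 q.1 else 0

theorem alG_mul (G : Finset P) [DecidableEq P] {n : Type} [Fintype n]
    (A B : Matrix n n (MonoidAlgebra k (Mo Γ P))) : alG G (A * B) = alG G A * alG G B := by
  funext p q
  rw [Matrix.mul_apply, Fintype.sum_prod_type]
  unfold alG
  by_cases h : p.2 = q.2
  · rw [if_pos h, al_mul, Matrix.mul_apply]
    refine Finset.sum_congr rfl fun j _ => ?_
    rw [Finset.sum_eq_single p.2]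
    · rw [if_pos rfl, if_pos h]
    · intro z _ hz
      rw [if_neg (fun h1 => hz h1.symm), zero_mul]
    · exact fun h1 => absurd (Finset.mem_univ _) h1
  · rw [if_neg h]
    refine (Finset.sum_eq_zero fun j _ => Finset.sum_eq_zero fun z _ => ?_).symm
    by_cases h1 : p.2 = z
    · rw [if_neg (fun h2 : z = q.2 => h (h1.trans h2)), mul_zero]
    · rw [if_neg h1, zero_mul]

theorem alG_one (G : Finset P) [DecidableEq P] {n : Type} [DecidableEq n] :
    alG G (1 : Matrix n n (MonoidAlgebra k (Mo Γ P))) = 1 := by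
  funext p q
  unfold alG
  rw [al_one]
  by_cases h : p.2 = q.2
  · rw [if_pos h]
    by_cases h' : p.1 = q.1
    · have h2 : p = q := Prod.ext h' h
      rw [h2, Matrix.one_apply_eq, Matrix.one_apply_eq]
    · rw [Matrix.one_apply_ne h', Matrix.one_apply_ne fun h2 => h' (by rw [h2])]
  · rw [if_neg h, Matrix.one_apply_ne fun h2 => h (by rw [h2])]

theorem mF_spl [DecidableEq P] {F F' : Finset P} (h : F ⊆ F') {n : Type}
    (A : Matrix n n (MonoidAlgebra k (Mo Γ P))) (hA : SpF F A) :
    (mF F' A).submatrix (spl h n).symm (spl h n).symm =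
      Matrix.fromBlocks (mF F A) 0 0 ((alG (F' \ F) A).map (algebraMap k (MonoidAlgebra k Γ))) := by
  apply Matrix.ext
  intro p q
  rcases p with ⟨i, x, hx⟩ | ⟨i, x, hx⟩ <;> rcases q with ⟨j, y, hy⟩ | ⟨j, y, hy⟩
  · rfl
  · rw [Matrix.fromBlocks_apply₁₂]
    change en x y (A i j) = 0
    rw [en_out (Or.inr (Finset.mem_sdiff.1 hy).2) _ (hA i j), if_neg]
    rintro rfl
    exact (Finset.mem_sdiff.1 hy).2 hx
  · rw [Matrix.fromBlocks_apply₂₁]
    change en x y (A i j) = 0
    rw [en_out (Or.inl (Finset.mem_sdiff.1 hx).2) _ (hA i j), if_neg]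
    rintro rfl
    exact (Finset.mem_sdiff.1 hx).2 hy
  · rw [Matrix.fromBlocks_apply₂₂]
    change en x y (A i j) = algebraMap k (MonoidAlgebra k Γ)
      (if (⟨x, hx⟩ : (F' \ F : Finset P)) = ⟨y, hy⟩ then al A i j else 0)
    rw [en_out (Or.inl (Finset.mem_sdiff.1 hx).2) _ (hA i j)]
    by_cases hxy : x = y
    · subst hxy
      rw [if_pos rfl, if_pos rfl]
      rfl
    · rw [if_neg hxy, if_neg (fun h1 => hxy (congrArg Subtype.val h1)), map_zero]

/-- The invariant does not depend on the finite set. -/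
theorem kap_mono [DecidableEq P] {K : Type} [CommGroup K] (κ : K1Fun (MonoidAlgebra k Γ) K)
    (hκ : ∀ (n : Type) [Fintype n] [DecidableEq n] (A : Matrix n n k), IsUnit A →
      κ.f (A.map (algebraMap k (MonoidAlgebra k Γ))) = 1)
    {F F' : Finset P} (h : F ⊆ F') {n : Type} [Fintype n] [DecidableEq n]
    {A : Matrix n n (MonoidAlgebra k (Mo Γ P))} (hA : IsUnit A) (hF : SpF F A) :
    κ.f (mF F' A) = κ.f (mF F A) := by
  have h1 := κ.reindex (spl h n) (mF F' A) (mF_unit F' hA (hF.mono h))
  rw [mF_spl h A hF] at h1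
  have h2 : IsUnit (alG (F' \ F) A) := by
    obtain ⟨u, rfl⟩ := hA
    exact ⟨⟨alG _ u.1, alG _ u.2, by rw [← alG_mul, u.3, alG_one],
      by rw [← alG_mul, u.4, alG_one]⟩, rfl⟩
  have h3 : IsUnit ((alG (F' \ F) A).map (algebraMap k (MonoidAlgebra k Γ))) :=
    h2.map (algebraMap k (MonoidAlgebra k Γ)).mapMatrix
  rw [κ.diag _ _ (mF_unit F hA hF) h3, hκ _ _ h2, mul_one] at h1
  exact h1.symm

theorem kap_ind [DecidableEq P] {K : Type} [CommGroup K] (κ : K1Fun (MonoidAlgebra k Γ) K)
    (hκ : ∀ (n : Type) [Fintype n] [DecidableEq n] (A : Matrix n n k), IsUnit A →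
      κ.f (A.map (algebraMap k (MonoidAlgebra k Γ))) = 1)
    {F F' : Finset P} {n : Type} [Fintype n] [DecidableEq n]
    {A : Matrix n n (MonoidAlgebra k (Mo Γ P))} (hA : IsUnit A) (hF : SpF F A) (hF' : SpF F' A) :
    κ.f (mF F A) = κ.f (mF F' A) :=
  (kap_mono κ hκ Finset.subset_union_left hA hF).symm.trans
    (kap_mono κ hκ (F' := F ∪ F') Finset.subset_union_right hA hF')

end MF

theorem fun_k : S_fun := by
  intro k Γ P _ _ _ _ _ _ K _ κ hκ
  have key : ∀ (F : Finset P) (n : Type) [Fintype n] [DecidableEq n]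
      (A : Matrix n n (MonoidAlgebra k (Mo Γ P))), IsUnit A → SpF F A →
      κ.f (mF (Fs A) A) = κ.f (mF F A) := fun F n _ _ A hA hF =>
    kap_ind κ hκ hA (spF_Fs A) hF
  refine ⟨{ f := fun {n} _ _ A => κ.f (mF (Fs A) A)
            mul := ?_
            reindex := ?_
            tri := ?_ }, fun F n _ _ A hA hF => key F n A hA hF⟩
  · intro n _ _ A B hA hB
    have hAB : IsUnit (A * B) := hA.mul hB
    have s1 : SpF (Fs A ∪ Fs B ∪ Fs (A * B)) A :=
      (spF_Fs A).mono (Finset.subset_union_left.trans Finset.subset_union_left)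
    have s2 : SpF (Fs A ∪ Fs B ∪ Fs (A * B)) B :=
      (spF_Fs B).mono (Finset.subset_union_right.trans Finset.subset_union_left)
    have s3 : SpF (Fs A ∪ Fs B ∪ Fs (A * B)) (A * B) :=
      (spF_Fs (A * B)).mono Finset.subset_union_right
    rw [key _ n A hA s1, key _ n B hB s2, key _ n (A * B) hAB s3,
      mF_mul k Γ P _ n n n A B (Or.inl s1), κ.mul _ _ (mF_unit _ hA s1) (mF_unit _ hB s2)]
  · intro n m _ _ _ _ e A hA
    have hA' : IsUnit (A.submatrix e.symm e.symm) := K1Fun.isUnit_submatrix e hA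
    have s1 : SpF (Fs A) (A.submatrix e.symm e.symm) := fun i j => spF_Fs A _ _
    rw [key _ m _ hA' s1]
    have h := κ.reindex (e.prodCongr (Equiv.refl (Fs A : Finset P))) (mF (Fs A) A)
      (mF_unit _ hA (spF_Fs A))
    rw [← h]
    rfl
  · intro n m _ _ _ _ A B D hA hD
    have hT : IsUnit (Matrix.fromBlocks A B 0 D) := K1Fun.isUnit_tri B hA hD
    have s0 := spF_Fs (Matrix.fromBlocks A B 0 D)
    have s1 : SpF (Fs (Matrix.fromBlocks A B 0 D)) A := fun i j => s0 (Sum.inl i) (Sum.inl j)
    have s2 : SpF (Fs (Matrix.fromBlocks A B 0 D)) D := fun i j => s0 (Sum.inr i) (Sum.inr j)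
    rw [key _ n A hA s1, key _ m D hD s2]
    have h := κ.reindex (Equiv.sumProdDistrib n m (Fs (Matrix.fromBlocks A B 0 D) : Finset P))
      (mF (Fs (Matrix.fromBlocks A B 0 D)) (Matrix.fromBlocks A B 0 D)) (mF_unit _ hT s0)
    rw [← h]
    have h1 : (mF (Fs (Matrix.fromBlocks A B 0 D)) (Matrix.fromBlocks A B 0 D)).submatrix
        (Equiv.sumProdDistrib n m (Fs (Matrix.fromBlocks A B 0 D) : Finset P)).symm
        (Equiv.sumProdDistrib n m (Fs (Matrix.fromBlocks A B 0 D) : Finset P)).symm =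
        Matrix.fromBlocks (mF (Fs (Matrix.fromBlocks A B 0 D)) A)
          (mF (Fs (Matrix.fromBlocks A B 0 D)) B) 0 (mF (Fs (Matrix.fromBlocks A B 0 D)) D) := by
      apply Matrix.ext
      intro p q
      rcases p with ⟨i, x⟩ | ⟨i, x⟩ <;> rcases q with ⟨j, y⟩ | ⟨j, y⟩
      · rfl
      · rfl
      · exact en_zero (k := k) (Γ := Γ) (x : P) (y : P)
      · rfl
    rw [h1, κ.tri _ _ _ (mF_unit _ hA s1) (mF_unit _ hD s2)]

end Pool.Agent.BB
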