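import Pool.Agent.Lib.MP_8f66f0_al_BB.SpecK

/-!
# K5. The index theorem modulo the classes of standard idempotents (project GLn, part BB)
-/

set_option autoImplicit false

namespace Pool.Agent.BB

open Pool.Agent.GLA Pool.Agent.Wald Pool.Agent.Ind Pool.Agent.Hier Pool.Agent.TreeC
open Matrix

namespace IdxAux

section MvN

variable {T : Type} [Ring T]

/-- Equivalence of idempotent matrices. -/
def MvN {n m : Type} [Fintype n] [Fintype m] (p : Matrix n n T) (q : Matrix m m T) : Prop :=
  p * p = p ∧ q * q = q ∧ ∃ (U : Matrix n m T) (V : Matrix m n T), U * V = p ∧ V * U = q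

variable {n m l n' m' : Type} [Fintype n] [Fintype m] [Fintype l] [Fintype n'] [Fintype m']

theorem MvN.refl {p : Matrix n n T} (hp : p * p = p) : MvN p p := ⟨hp, hp, p, p, hp, hp⟩

theorem MvN.symm {p : Matrix n n T} {q : Matrix m m T} (h : MvN p q) : MvN q p := by
  obtain ⟨hp, hq, U, V, h1, h2⟩ := h
  exact ⟨hq, hp, V, U, h2, h1⟩

theorem MvN.trans {p : Matrix n n T} {q : Matrix m m T} {r : Matrix l l T} (h : MvN p q)
    (h' : MvN q r) : MvN p r := by
  obtain ⟨hp, hq, U, V, h1, h2⟩ := h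
  obtain ⟨_, hr, U', V', h3, h4⟩ := h'
  refine ⟨hp, hr, U * U', V' * V, ?_, ?_⟩
  · calc U * U' * (V' * V) = U * (U' * V') * V := by simp only [Matrix.mul_assoc]
      _ = (U * V) * (U * V) := by rw [h3, ← h2]; simp only [Matrix.mul_assoc]
      _ = p := by rw [h1, hp]
  · calc V' * V * (U * U') = V' * (V * U) * U' := by simp only [Matrix.mul_assoc]
      _ = (V' * U') * (V' * U') := by rw [h2, ← h3]; simp only [Matrix.mul_assoc]
      _ = r := by rw [h4, hr]

theorem blk_idem {p : Matrix n n T} {q : Matrix m m T} (hp : p * p = p) (hq : q * q = q) :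
    fromBlocks p 0 0 q * fromBlocks p 0 0 q = fromBlocks p 0 0 q := by
  rw [fromBlocks_multiply]
  simp [hp, hq]

theorem MvN.sum {p : Matrix n n T} {q : Matrix m m T} {p' : Matrix n' n' T} {q' : Matrix m' m' T}
    (h : MvN p q) (h' : MvN p' q') : MvN (fromBlocks p 0 0 p') (fromBlocks q 0 0 q') := by
  obtain ⟨hp, hq, U, V, h1, h2⟩ := h
  obtain ⟨hp', hq', U', V', h3, h4⟩ := h'
  refine ⟨blk_idem hp hp', blk_idem hq hq', fromBlocks U 0 0 U', fromBlocks V 0 0 V', ?_, ?_⟩
  · rw [fromBlocks_multiply]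
    simp [h1, h3]
  · rw [fromBlocks_multiply]
    simp [h2, h4]

theorem MvN.reindex (e : n ≃ m) {p : Matrix n n T} (hp : p * p = p) :
    MvN p (p.submatrix e.symm e.symm) := by
  refine ⟨hp, ?_, p.submatrix id e.symm, p.submatrix e.symm id, ?_, ?_⟩
  · rw [submatrix_mul_equiv, hp]
  · rw [submatrix_mul_equiv, hp, submatrix_id_id]
  · have h := submatrix_mul_equiv p p e.symm (Equiv.refl n) e.symm
    rw [hp] at h
    exact h

theorem MvN.split [DecidableEq n] {p : Matrix n n T} (hp : p * p = p) :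
    MvN (fromBlocks (1 - p) 0 0 p) (1 : Matrix n n T) := by
  have e1 : (1 - p) * (1 - p) = 1 - p := by
    rw [Matrix.mul_sub, Matrix.mul_one, Matrix.sub_mul, hp, Matrix.one_mul, sub_self, sub_zero]
  have e2 : (1 - p) * p = 0 := by rw [Matrix.sub_mul, hp, Matrix.one_mul, sub_self]
  have e3 : p * (1 - p) = 0 := by rw [Matrix.mul_sub, hp, Matrix.mul_one, sub_self]
  refine ⟨blk_idem e1 hp, Matrix.one_mul 1, fromRows (1 - p) p, fromCols (1 - p) p, ?_, ?_⟩
  · rw [fromRows_mul_fromCols, e1, e2, e3, hp]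
  · rw [fromCols_mul_fromRows, e1, hp, sub_add_cancel]

omit [Fintype m] in
theorem ext_vecMul [DecidableEq n] {A B : Matrix n m T} (h : ∀ x, vecMul x A = vecMul x B) :
    A = B := by
  ext i j
  have := congrFun (h (Pi.single i 1)) j
  rwa [Matrix.single_one_vecMul, Matrix.single_one_vecMul] at this

/-- The matrix of a linear map, acting from the right on row vectors. -/
def mt [DecidableEq n] (g : (n → T) →ₗ[T] (m → T)) : Matrix n m T :=
  Matrix.of fun i j => g (Pi.single i 1) j

omit [Fintype m] in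
theorem vecMul_mt [DecidableEq n] (g : (n → T) →ₗ[T] (m → T)) (x : n → T) :
    vecMul x (mt g) = g x := by
  have h1 : x = ∑ i, x i • (Pi.single i 1 : n → T) := by
    ext j
    rw [Finset.sum_apply, Finset.sum_eq_single j]
    · rw [Pi.smul_apply, Pi.single_eq_same, smul_eq_mul, mul_one]
    · intro i _ hij
      rw [Pi.smul_apply, Pi.single_eq_of_ne hij.symm, smul_zero]
    · intro h
      exact absurd (Finset.mem_univ j) h
  have h2 : g x = ∑ i, x i • g (Pi.single i 1) := by
    conv_lhs => rw [h1]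
    rw [map_sum]
    apply Finset.sum_congr rfl
    intro i _
    rw [map_smul]
  rw [h2]
  ext j
  rw [Finset.sum_apply]
  simp only [Matrix.vecMul, dotProduct, mt, Matrix.of_apply, Pi.smul_apply, smul_eq_mul]

theorem mvn_of_iso {r : ℕ} {p : Matrix (Fin r) (Fin r) T} (hp : p * p = p) {a b : ℕ}
    (f : (LinearMap.range (Matrix.vecMulLinear p) × (Fin a → T)) ≃ₗ[T] (Fin b → T)) :
    MvN (fromBlocks p 0 0 (1 : Matrix (Fin a) (Fin a) T)) (1 : Matrix (Fin b) (Fin b) T) := by
  have hpp : ∀ x : LinearMap.range (Matrix.vecMulLinear p),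
      vecMul (x : Fin r → T) p = (x : Fin r → T) := by
    rintro ⟨x, c, hc⟩
    change vecMul x p = x
    rw [← hc]
    change vecMul (vecMul c p) p = vecMul c p
    rw [Matrix.vecMul_vecMul, hp]
  let G : (Fin r ⊕ Fin a → T) →ₗ[T] (Fin b → T) :=
    f.toLinearMap ∘ₗ (LinearMap.prodMap (Matrix.vecMulLinear p).rangeRestrict LinearMap.id) ∘ₗ
      (LinearEquiv.sumArrowLequivProdArrow (Fin r) (Fin a) T T).toLinearMap
  let H : (Fin b → T) →ₗ[T] (Fin r ⊕ Fin a → T) :=
    (LinearEquiv.sumArrowLequivProdArrow (Fin r) (Fin a) T T).symm.toLinearMap ∘ₗ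
      (LinearMap.prodMap (LinearMap.range (Matrix.vecMulLinear p)).subtype LinearMap.id) ∘ₗ
      f.symm.toLinearMap
  have hHG : ∀ x, H (G x) = Sum.elim (vecMul (x ∘ Sum.inl) p) (x ∘ Sum.inr) := by
    intro x
    simp only [G, H, LinearMap.comp_apply, LinearEquiv.coe_coe, LinearEquiv.symm_apply_apply,
      LinearMap.prodMap_apply]
    rfl
  have hGH : ∀ z, G (H z) = z := by
    intro z
    have e1 : (LinearMap.prodMap (Matrix.vecMulLinear p).rangeRestrict LinearMap.id)
        ((LinearMap.prodMap (LinearMap.range (Matrix.vecMulLinear p)).subtype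
          (LinearMap.id : (Fin a → T) →ₗ[T] (Fin a → T))) (f.symm z)) = f.symm z := by
      refine Prod.ext (Subtype.ext ?_) rfl
      exact hpp (f.symm z).1
    simp only [G, H, LinearMap.comp_apply, LinearEquiv.coe_coe, LinearEquiv.apply_symm_apply]
    rw [e1, LinearEquiv.apply_symm_apply]
  refine ⟨blk_idem hp (Matrix.one_mul 1), Matrix.one_mul 1, mt G, mt H, ?_, ?_⟩
  · apply ext_vecMul
    intro x
    rw [← Matrix.vecMul_vecMul, vecMul_mt, vecMul_mt, hHG, Matrix.vecMul_fromBlocks]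
    simp
  · apply ext_vecMul
    intro x
    rw [← Matrix.vecMul_vecMul, vecMul_mt, vecMul_mt, hGH, Matrix.vecMul_one]

end MvN

section Ty

variable {T : Type} [Ring T] {n m : Type} [Fintype n] [Fintype m] [DecidableEq n] [DecidableEq m]

/-- `1 + p (y - 1)`. -/
noncomputable def ty (p : Matrix n n T) : Matrix n n (LaurentSeries T) :=
  1 + p.map fun a => (HahnSeries.single 0 a * (HahnSeries.single 1 1 - 1) : LaurentSeries T)

omit [Fintype n] in
theorem ty_up (p : Matrix n n T) : ty p = 1 - up T (LaurentSeries T) p +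
    (up T (LaurentSeries T) p).map fun q => q * (HahnSeries.single 1 1 : LaurentSeries T) := by
  have h1 : ∀ a : T, a • (1 : LaurentSeries T) = HahnSeries.single 0 a := by
    intro a
    rw [← HahnSeries.C_mul_eq_smul, mul_one]
    rfl
  ext1 i j
  unfold ty up
  rw [Matrix.add_apply, Matrix.add_apply, Matrix.sub_apply, Matrix.map_apply, Matrix.map_apply,
    Matrix.map_apply, Matrix.map_apply, h1, mul_sub, mul_one]
  abel

omit [Fintype n] [Fintype m] in
theorem ty_blk (p : Matrix n n T) (q : Matrix m m T) :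
    ty (fromBlocks p 0 0 q) = fromBlocks (ty p) 0 0 (ty q) := by
  unfold ty
  rw [← fromBlocks_one, fromBlocks_map, fromBlocks_add]
  have h0 : ∀ (a b : Type), (0 : Matrix a b (LaurentSeries T)) + (0 : Matrix a b T).map
      (fun a => (HahnSeries.single 0 a * (HahnSeries.single 1 1 - 1) : LaurentSeries T)) = 0 := by
    intro a b
    ext1 i j
    rw [Matrix.add_apply, Matrix.map_apply, Matrix.zero_apply, Matrix.zero_apply,
      HahnSeries.single_eq_zero, zero_mul, zero_add]
  rw [h0, h0]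

omit [Fintype n] [Fintype m] in
theorem ty_sub (e : m ≃ n) (p : Matrix n n T) :
    (ty p).submatrix e e = ty (p.submatrix e e) := by
  ext1 i j
  unfold ty
  rw [Matrix.submatrix_apply, Matrix.add_apply, Matrix.add_apply, Matrix.map_apply,
    Matrix.map_apply, Matrix.submatrix_apply, Matrix.one_apply, Matrix.one_apply]
  simp only [EmbeddingLike.apply_eq_iff_eq]

theorem y_comm (q : LaurentSeries T) : (HahnSeries.single 1 1 : LaurentSeries T) * q =
    q * HahnSeries.single 1 1 := by
  obtain ⟨v, hvy, -, -⟩ := exists_val T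
  rw [← hvy]
  exact v.y_comm q

theorem ty_compl {p : Matrix n n T} (hp : p * p = p) : ty (1 - p) * ty p = ty 1 := by
  set e : Matrix n n (LaurentSeries T) := p.map (HahnSeries.C : T →+* LaurentSeries T) with he
  set Y : Matrix n n (LaurentSeries T) :=
    Matrix.diagonal (fun _ => (HahnSeries.single 1 1 : LaurentSeries T)) with hY
  have hee : e * e = e := by rw [he, ← Matrix.map_mul, hp]
  have hYc : ∀ A : Matrix n n (LaurentSeries T), Y * A = A * Y := by
    intro A
    ext1 i j
    rw [hY, Matrix.diagonal_mul, Matrix.mul_diagonal, y_comm]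
  have ht : ∀ A : Matrix n n T, ty A =
      1 - A.map (HahnSeries.C : T →+* LaurentSeries T) +
        A.map (HahnSeries.C : T →+* LaurentSeries T) * Y := by
    intro A
    ext1 i j
    unfold ty
    rw [Matrix.add_apply, Matrix.add_apply, Matrix.sub_apply, hY, Matrix.mul_diagonal,
      Matrix.map_apply, Matrix.map_apply, mul_sub, mul_one]
    change _ + (HahnSeries.C (A i j) * _ - HahnSeries.C (A i j)) = _
    abel
  rw [ht, ht, ht, Matrix.map_sub _ (map_sub _), Matrix.map_one _ (map_zero _) (map_one _), ← he]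
  have h1 : e * Y * e = e * Y := by
    rw [Matrix.mul_assoc, hYc, ← Matrix.mul_assoc, hee]
  have h2 : Y * e = e * Y := hYc e
  have h3 : e * (e * Y) = e * Y := by rw [← Matrix.mul_assoc, hee]
  have h4 : e * Y * (e * Y) = e * Y * Y := by rw [← Matrix.mul_assoc, h1]
  calc (1 - (1 - e) + (1 - e) * Y) * (1 - e + e * Y)
      = (e + Y - e * Y) * (1 - e + e * Y) := by noncomm_ring
    _ = e - e * e + e * (e * Y) + Y - Y * e + (Y * e) * Y - e * Y + e * Y * e -
        e * Y * (e * Y) := by noncomm_ring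
    _ = Y := by
        rw [hee, h3, h2, h1, h4]
        abel
    _ = 1 - 1 + 1 * Y := by rw [Matrix.one_mul]; abel

theorem ty_unit_fin {r : ℕ} {p : Matrix (Fin r) (Fin r) T} (hp : p * p = p)
    (v : Val T (LaurentSeries T)) (hv : v.y = HahnSeries.single 1 1) (D : K0Data T) :
    IsUnit (ty p) := by
  rw [ty_up, ← hv]
  exact (index_idem v D p hp).2

theorem ty_unit {p : Matrix n n T} (hp : p * p = p) : IsUnit (ty p) := by
  obtain ⟨v, hv, -, -⟩ := exists_val T
  obtain ⟨D⟩ := exists_k0 T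
  have e := Fintype.equivFin n
  have h1 : (p.submatrix e.symm e.symm) * (p.submatrix e.symm e.symm) =
      p.submatrix e.symm e.symm := by
    rw [submatrix_mul_equiv, hp]
  have h2 := K1Fun.isUnit_submatrix e.symm (ty_unit_fin h1 v hv D)
  rw [ty_sub, submatrix_submatrix] at h2
  have h3 : (p.submatrix (e.symm ∘ e.symm.symm) (e.symm ∘ e.symm.symm)) = p := by
    ext i j
    simp
  rwa [h3] at h2

end Ty

section Main

variable {T K : Type} [Ring T] [CommGroup K] (κ : K1Fun (LaurentSeries T) K)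

theorem f_blk {n m : Type} [Fintype n] [Fintype m] [DecidableEq n] [DecidableEq m]
    {p : Matrix n n T} {q : Matrix m m T} (hp : p * p = p) (hq : q * q = q) :
    κ.f (ty (fromBlocks p 0 0 q)) = κ.f (ty p) * κ.f (ty q) := by
  rw [ty_blk]
  exact κ.tri _ _ _ (ty_unit hp) (ty_unit hq)

theorem f_sub {n m : Type} [Fintype n] [Fintype m] [DecidableEq n] [DecidableEq m] (e : n ≃ m)
    {p : Matrix n n T} (hp : p * p = p) :
    κ.f (ty (p.submatrix e.symm e.symm)) = κ.f (ty p) := by
  rw [← ty_sub]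
  exact κ.reindex e _ (ty_unit hp)

theorem f_compl {n : Type} [Fintype n] [DecidableEq n] {p : Matrix n n T} (hp : p * p = p) :
    κ.f (ty (1 - p)) * κ.f (ty p) = κ.f (ty (1 : Matrix n n T)) := by
  have e1 : (1 - p) * (1 - p) = 1 - p := by
    rw [Matrix.mul_sub, Matrix.mul_one, Matrix.sub_mul, hp, Matrix.one_mul, sub_self, sub_zero]
  rw [← ty_compl hp, κ.mul _ _ (ty_unit e1) (ty_unit hp)]

/-- Composition of an invariant with a homomorphism. -/
def post {Λ K' : Type} [Ring Λ] [CommGroup K'] (κ : K1Fun Λ K) (g : K →* K') : K1Fun Λ K' where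
  f := fun {n} _ _ A => g (κ.f A)
  mul := fun {n} _ _ A B hA hB => by rw [κ.mul A B hA hB, map_mul]
  reindex := fun {n m} _ _ _ _ e A hA => by rw [κ.reindex e A hA]
  tri := fun {n m} _ _ _ _ A B D hA hD => by rw [κ.tri A B D hA hD, map_mul]

theorem of_unit {Q : Type} [Ring Q] {w wi : Q} (h : w * wi = 1) (h' : wi * w = 1) :
    IsUnit (Matrix.of fun _ _ : Fin 1 => w) := by
  have key : ∀ a b : Q, a * b = 1 →
      (Matrix.of fun _ _ : Fin 1 => a) * (Matrix.of fun _ _ : Fin 1 => b) = 1 := by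
    intro a b hab
    ext i j
    rw [Matrix.mul_apply]
    simp only [Matrix.of_apply, Finset.univ_unique, Finset.sum_singleton, hab]
    rw [Subsingleton.elim i j, Matrix.one_apply_eq]
  exact ⟨⟨_, _, key w wi h, key wi w h'⟩, rfl⟩

theorem fgp_range {r : ℕ} {p : Matrix (Fin r) (Fin r) T} (hp : p * p = p) :
    FGP T (LinearMap.range (Matrix.vecMulLinear p)) := by
  refine ⟨inferInstance, ?_⟩
  refine Module.Projective.of_split (LinearMap.range (Matrix.vecMulLinear p)).subtype
    (Matrix.vecMulLinear p).rangeRestrict ?_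
  ext ⟨x, c, hc⟩ i
  have : Matrix.vecMul x p = x := by
    rw [← hc]
    change vecMul (vecMul c p) p = vecMul c p
    rw [Matrix.vecMul_vecMul, hp]
  exact congrFun this i

/-- first reindexing -/
theorem re1 {n m l a : Type} [DecidableEq m] [DecidableEq l] [DecidableEq a] (p : Matrix n n T)
    (s : m → T) :
    (fromBlocks p 0 0 (diagonal (Sum.elim s (Sum.elim (fun _ : l => (1 : T))
      (fun _ : a => (1 : T)))))).submatrix (Equiv.sumAssoc n m (l ⊕ a))
        (Equiv.sumAssoc n m (l ⊕ a)) =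
      fromBlocks (fromBlocks p 0 0 (diagonal s)) 0 0 (fromBlocks 1 0 0 1) := by
  ext ((i | i) | (i | i)) ((j | j) | (j | j)) <;>
    simp [fromBlocks, Matrix.diagonal_apply, Matrix.one_apply]

/-- the bijection of the second reindexing -/
def eqv (N l a : Type) : N ⊕ ((l ⊕ l) ⊕ a) ≃ ((N ⊕ l) ⊕ a) ⊕ l where
  toFun
    | .inl x => .inl (.inl (.inl x))
    | .inr (.inl (.inl x)) => .inl (.inl (.inr x))
    | .inr (.inl (.inr x)) => .inr x
    | .inr (.inr x) => .inl (.inr x)
  invFun
    | .inl (.inl (.inl x)) => .inl x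
    | .inl (.inl (.inr x)) => .inr (.inl (.inl x))
    | .inr x => .inr (.inl (.inr x))
    | .inl (.inr x) => .inr (.inr x)
  left_inv := by rintro (x | ((x | x) | x)) <;> rfl
  right_inv := by rintro (((x | x) | x) | x) <;> rfl

/-- second reindexing -/
theorem re2 {N l a : Type} (A : Matrix N N T) (B C : Matrix l l T) (D : Matrix a a T) :
    (fromBlocks A 0 0 (fromBlocks (fromBlocks B 0 0 C) 0 0 D)).submatrix (eqv N l a).symm
      (eqv N l a).symm = fromBlocks (fromBlocks (fromBlocks A 0 0 B) 0 0 D) 0 0 C := by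
  ext (((i | i) | i) | i) (((j | j) | j) | j) <;> rfl

end Main

end IdxAux

open IdxAux in
/-- K5. The index theorem modulo the classes of the standard idempotents. -/
theorem idx : S_idx := by
  intro T Λ _ q hq n _ _ p hp H
  obtain ⟨D⟩ := exists_k0 T
  obtain ⟨v, hvy, -, hvP⟩ := exists_val T
  obtain ⟨κ, hκ⟩ := exists_index v D
  have hmem0 : ∀ x : LaurentSeries T, x ∈ v.P → x * v.y ^ 0 ∈ v.P := by
    intro x hx
    rwa [pow_zero, mul_one]
  -- values at matrices over `Fin r`
  have hcls : ∀ (r : ℕ) (p : Matrix (Fin r) (Fin r) T), p * p = p →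
      κ.f (ty p) = D.cls (LinearMap.range (Matrix.vecMulLinear p)) := by
    intro r p hp
    have hu := ty_unit hp
    rw [ty_up, ← hvy] at hu ⊢
    rw [hκ (Fin r) _ 0 hu, (index_idem v D p hp).1]
    intro i j
    apply hmem0
    rw [Matrix.add_apply, Matrix.sub_apply, Matrix.map_apply]
    unfold up
    rw [Matrix.map_apply]
    refine v.P.add_mem (v.P.sub_mem ?_ (v.P.smul_mem _ v.one_mem))
      (v.mul_mem _ (v.P.smul_mem _ v.one_mem) _ v.y_mem)
    rw [Matrix.one_apply]
    split_ifs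
    · exact v.one_mem
    · exact v.P.zero_mem
  have hfree : ∀ (r : Type) [Fintype r] [DecidableEq r], κ.f (ty (1 : Matrix r r T)) = 1 := by
    intro r _ _
    have e := Fintype.equivFin r
    have h1 := f_sub κ e (p := (1 : Matrix r r T)) (Matrix.one_mul 1)
    rw [Matrix.submatrix_one_equiv] at h1
    rw [← h1, hcls _ _ (Matrix.one_mul 1)]
    have h2 : LinearMap.range (Matrix.vecMulLinear
        (1 : Matrix (Fin (Fintype.card r)) (Fin (Fintype.card r)) T)) = ⊤ := by
      rw [LinearMap.range_eq_top]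
      intro x
      exact ⟨x, Matrix.vecMul_one x⟩
    rw [D.cls_iso _ (Fin (Fintype.card r) → T) (fgp_range (Matrix.one_mul 1))
      (LinearEquiv.ofTop _ h2), D.cls_free]
  have hsi : ∀ {m : Type} [Fintype m] [DecidableEq m] (s : m → T),
      (∀ i, s i = 1 ∨ ∃ a, s i = q a) →
      (diagonal s : Matrix m m T) * diagonal s = diagonal s := by
    intro m _ _ s hs
    rw [Matrix.diagonal_mul_diagonal]
    congr 1
    funext i
    rcases hs i with h | ⟨a, h⟩
    · rw [h, mul_one]
    · rw [h, hq]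
  have hse : ∀ {m m' : Type} (s : m → T) (s' : m' → T), (∀ i, s i = 1 ∨ ∃ a, s i = q a) →
      (∀ i, s' i = 1 ∨ ∃ a, s' i = q a) →
      ∀ i, Sum.elim s s' i = 1 ∨ ∃ a, Sum.elim s s' i = q a := by
    intro m m' s s' hs hs' i
    rcases i with i | i
    · exact hs i
    · exact hs' i
  -- the subgroup
  let S : Subgroup D.K :=
    { carrier := {x | ∃ (m l : Type) (_ : Fintype m) (_ : DecidableEq m) (_ : Fintype l)
        (_ : DecidableEq l) (s : m → T) (t : l → T), (∀ i, s i = 1 ∨ ∃ a, s i = q a) ∧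
        (∀ i, t i = 1 ∨ ∃ a, t i = q a) ∧
        x * κ.f (ty (diagonal s)) = κ.f (ty (diagonal t))}
      mul_mem' := by
        rintro x y ⟨m, l, _, _, _, _, s, t, hs, ht, h⟩ ⟨m', l', _, _, _, _, s', t', hs', ht', h'⟩
        refine ⟨m ⊕ m', l ⊕ l', inferInstance, inferInstance, inferInstance, inferInstance,
          Sum.elim s s', Sum.elim t t', hse s s' hs hs', hse t t' ht ht', ?_⟩
        rw [← fromBlocks_diagonal, ← fromBlocks_diagonal, f_blk κ (hsi s hs) (hsi s' hs'),
          f_blk κ (hsi t ht) (hsi t' ht'), ← h, ← h', mul_mul_mul_comm]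
      one_mem' := ⟨Fin 1, Fin 1, inferInstance, inferInstance, inferInstance, inferInstance,
        fun _ => 1, fun _ => 1, fun _ => Or.inl rfl, fun _ => Or.inl rfl, one_mul _⟩
      inv_mem' := by
        rintro x ⟨m, l, _, _, _, _, s, t, hs, ht, h⟩
        refine ⟨l, m, inferInstance, inferInstance, inferInstance, inferInstance, t, s, ht, hs, ?_⟩
        rw [← h, inv_mul_cancel_left] }
  have hmk : ∀ x : D.K, QuotientGroup.mk' S x = 1 ↔ x ∈ S := by
    intro x
    exact QuotientGroup.eq_one_iff x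
  have hin : κ.f (ty p) ∈ S := by
    rw [← hmk]
    refine H (D.K ⧸ S) (post κ (QuotientGroup.mk' S)) ?_ ?_ ?_
    · change QuotientGroup.mk' S (κ.f _) = 1
      rw [← hvy, hκ (Fin 1) _ 0 (of_unit v.y_yi v.yi_y) (fun i j => hmem0 _ v.y_mem),
        index_y v D, map_one]
    · intro w wi hw hwi h h'
      rw [← hvP] at hw hwi
      change QuotientGroup.mk' S (κ.f _) = 1
      rw [hκ (Fin 1) _ 0 (of_unit h h') (fun i j => hmem0 _ hw),
        index_unit v D hw hwi h h', map_one]
    · intro l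
      change QuotientGroup.mk' S (κ.f _) = 1
      rw [hmk]
      refine ⟨Fin 1, Fin 1, inferInstance, inferInstance, inferInstance, inferInstance,
        fun _ => 1, fun _ => q l, fun _ => Or.inl rfl, fun _ => Or.inr ⟨l, rfl⟩, ?_⟩
      rw [Matrix.diagonal_one, hfree, mul_one]
      congr 1
      ext1 i j
      unfold ty
      rw [Subsingleton.elim i j, Matrix.add_apply, Matrix.map_apply, Matrix.diagonal_apply_eq,
        Matrix.one_apply_eq]
      rfl
  obtain ⟨m, l, _, _, _, _, s, t, hs, ht, h⟩ := hin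
  have hs2 := hsi s hs
  have ht2 := hsi t ht
  set P2 : Matrix l l T := diagonal t with hP2
  have hP2' : (1 - P2) * (1 - P2) = 1 - P2 := by
    rw [Matrix.mul_sub, Matrix.mul_one, Matrix.sub_mul, ht2, Matrix.one_mul, sub_self, sub_zero]
  have hP1 := blk_idem hp hs2
  have hP4 := blk_idem hP1 hP2'
  set P1 : Matrix (n ⊕ m) (n ⊕ m) T := fromBlocks p 0 0 (diagonal s) with hP1def
  set P4 : Matrix ((n ⊕ m) ⊕ l) ((n ⊕ m) ⊕ l) T := fromBlocks P1 0 0 (1 - P2) with hP4def
  have hval : κ.f (ty P4) = 1 := by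
    rw [hP4def, f_blk κ hP1 hP2', hP1def, f_blk κ hp hs2, h, mul_comm, f_compl κ ht2, hfree]
  have e := Fintype.equivFin ((n ⊕ m) ⊕ l)
  have hP3 : P4.submatrix e.symm e.symm * P4.submatrix e.symm e.symm =
      P4.submatrix e.symm e.symm := by
    rw [submatrix_mul_equiv, hP4]
  have hval3 : D.cls (LinearMap.range (Matrix.vecMulLinear (P4.submatrix e.symm e.symm))) = 1 := by
    rw [← hcls _ _ hP3, f_sub κ e hP4, hval]
  obtain ⟨a, b, ⟨f⟩⟩ := D.cls_one _ (fgp_range hP3) hval3
  have c2 : MvN (fromBlocks P4 0 0 (1 : Matrix (Fin a) (Fin a) T))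
      (1 : Matrix (Fin b) (Fin b) T) :=
    ((MvN.reindex e hP4).sum (MvN.refl (Matrix.one_mul 1))).trans (mvn_of_iso hP3 f)
  have c3 := c2.sum (MvN.refl ht2)
  -- the left side
  have hs' : ∀ i, Sum.elim s (Sum.elim (fun _ : l => (1 : T)) (fun _ : Fin a => (1 : T))) i = 1 ∨
      ∃ c, Sum.elim s (Sum.elim (fun _ : l => (1 : T)) (fun _ : Fin a => (1 : T))) i = q c :=
    hse _ _ hs (hse _ _ (fun _ => Or.inl rfl) fun _ => Or.inl rfl)
  have ht' : ∀ i, Sum.elim (fun _ : Fin b => (1 : T)) t i = 1 ∨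
      ∃ c, Sum.elim (fun _ : Fin b => (1 : T)) t i = q c :=
    hse _ _ (fun _ => Or.inl rfl) ht
  have c4 := MvN.reindex (Equiv.sumAssoc n m (l ⊕ Fin a)).symm (blk_idem hp (hsi _ hs'))
  rw [Equiv.symm_symm, re1] at c4
  have c5 : MvN (fromBlocks P1 0 0 (fromBlocks (1 : Matrix l l T) 0 0
      (1 : Matrix (Fin a) (Fin a) T)))
      (fromBlocks P1 0 0 (fromBlocks (fromBlocks (1 - P2) 0 0 P2) 0 0
      (1 : Matrix (Fin a) (Fin a) T))) :=
    (MvN.refl hP1).sum ((MvN.split ht2).symm.sum (MvN.refl (Matrix.one_mul 1)))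
  have c6 := MvN.reindex (eqv (n ⊕ m) l (Fin a)) c5.2.1
  rw [re2] at c6
  have c7 := ((c4.trans c5).trans c6).trans c3
  obtain ⟨-, -, U, V, hUV, hVU⟩ := c7
  refine ⟨m ⊕ (l ⊕ Fin a), Fin b ⊕ l, inferInstance, inferInstance, inferInstance, inferInstance,
    _, Sum.elim (fun _ : Fin b => (1 : T)) t, U, V, hs', ht', hUV, ?_⟩
  rw [hVU, hP2, ← Matrix.diagonal_one, fromBlocks_diagonal]

end Pool.Agent.BB
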