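import Pool.Agent.Lib.MP_8f66f0_al_BB.KillB

/-!
# K7: the index hypothesis for label respecting idempotents (project GLn, part BB)
-/

set_option autoImplicit false

namespace Pool.Agent.BB

open Pool.Agent.GLA Pool.Agent.Wald Pool.Agent.Ind Pool.Agent.Hier Pool.Agent.TreeC
open Pool.Agent.WaldL
open Pool.Agent.HierR (Mo MoN Tri Mo0 MonoAct mA)
open scoped Polynomial

theorem idem_inv {Λ : Type} [Ring Λ] {n : Type} [Fintype n] [DecidableEq n]
    {P : Matrix n n Λ} (hP : P * P = P) {y yi : Λ} (hy : ∀ q, y * q = q * y)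
    (h : y * yi = 1) :
    (1 - P + P.map fun q => q * y) * (1 - P + P.map fun q => q * yi) = 1 := by
  have e1 : ∀ (A B : Matrix n n Λ) (c : Λ), A * (B.map fun q => q * c) =
      (A * B).map fun q => q * c := by
    intro A B c
    ext i j
    rw [Matrix.map_apply, Matrix.mul_apply, Matrix.mul_apply, Finset.sum_mul]
    apply Finset.sum_congr rfl
    intro k _
    rw [Matrix.map_apply, mul_assoc]
  have e2 : ∀ (A B : Matrix n n Λ), (A.map fun q => q * y) * B =
      (A * B).map fun q => q * y := by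
    intro A B
    ext i j
    rw [Matrix.map_apply, Matrix.mul_apply, Matrix.mul_apply, Finset.sum_mul]
    apply Finset.sum_congr rfl
    intro k _
    rw [Matrix.map_apply, mul_assoc, hy, mul_assoc]
  have e3 : ((P.map fun q => q * y).map fun q => q * yi) = P := by
    ext i j
    rw [Matrix.map_apply, Matrix.map_apply, mul_assoc, h, mul_one]
  have e4 : (1 - P) * P = 0 := by rw [Matrix.sub_mul, Matrix.one_mul, hP, sub_self]
  have e5 : P * (1 - P) = 0 := by rw [Matrix.mul_sub, Matrix.mul_one, hP, sub_self]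
  have e6 : (1 - P) * (1 - P) = 1 - P := by
    rw [Matrix.mul_sub, Matrix.mul_one, e4, sub_zero]
  have e7 : ∀ c : Λ, (0 : Matrix n n Λ).map (fun q => q * c) = 0 := by
    intro c
    ext i j
    rw [Matrix.map_apply, Matrix.zero_apply, zero_mul]
  rw [Matrix.add_mul, Matrix.mul_add, Matrix.mul_add, e6, e1, e4, e7, e2, e5, e7, e1, e2, hP, e3,
    add_zero, zero_add, sub_add_cancel]

theorem cor_of {A B : Type} [Ring A] [Ring B] (θ : A →ₙ+* B) (a : A) :
    cor θ (Matrix.of fun _ _ : Fin 1 => a) = Matrix.of fun _ _ : Fin 1 => θ a + (1 - θ 1) := by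
  unfold cor
  ext i j
  rw [Subsingleton.elim i j, Matrix.add_apply, Matrix.diagonal_apply_eq]
  rfl

theorem lmap_single {L A : Type} [CommRing L] [Ring A] (α : L →+* A) (m : ℤ) :
    lmap α (HahnSeries.single m 1) = HahnSeries.single m 1 := by
  apply HahnSeries.ext
  funext i
  rw [lmap_coeff, HahnSeries.coeff_single, HahnSeries.coeff_single]
  split_ifs
  · exact map_one α
  · exact map_zero α

theorem EE_y {L A : Type} [CommRing L] [Ring A] (α : L →+* A) (q : A) :
    EE α q (HahnSeries.single 1 1) q =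
      1 + HahnSeries.single 0 q * (HahnSeries.single 1 1 - 1) := by
  unfold EE
  rw [FF_one_left]
  unfold FF
  rw [lmap_single, HahnSeries.single_mul_single, mul_sub, mul_one, HahnSeries.single_mul_single,
    one_mul, mul_one, add_zero, zero_add]
  abel

theorem muN_inc {L Γ P : Type} [CommRing L] [Group Γ] [PartialOrder P] [MulAction Γ P]
    [MonoAct Γ P] (s : Mo Γ P) : muN L (MoN.inc Γ P s) = MonoidAlgebra.single s 1 := by
  cases s with
  | one => rfl
  | zero => rfl
  | mor t =>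
    change (Polynomial.X ^ 0 : L[X]) • hk L[X] t + zk L[X] Γ P = _
    rw [pow_zero, one_smul, single_mor]

section Psi

variable {L Γ P : Type} [CommRing L] [Group Γ] [PartialOrder P] [MulAction Γ P] [MonoAct Γ P]
  (Φ : MonoidAlgebra (LaurentSeries L) (MoN Γ P) →+*
    LaurentSeries (MonoidAlgebra L[X] (Mo Γ P)))
  (hΦ : ∀ (s : MoN Γ P) (f : LaurentSeries L) (i : ℤ),
    (Φ (MonoidAlgebra.single s f)).coeff i = (Polynomial.C (f.coeff i)) • muN L s)

/-- The composition with the inclusion of `L'[Mo]`. -/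
noncomputable def Psi : MonoidAlgebra (LaurentSeries L) (Mo Γ P) →+*
    LaurentSeries (MonoidAlgebra L[X] (Mo Γ P)) :=
  Φ.comp (mA (LaurentSeries L) (MoN.inc Γ P) :
    MonoidAlgebra (LaurentSeries L) (Mo Γ P) →+* MonoidAlgebra (LaurentSeries L) (MoN Γ P))

theorem Psi_apply (r : MonoidAlgebra (LaurentSeries L) (Mo Γ P)) :
    Psi Φ r = Φ (mA (LaurentSeries L) (MoN.inc Γ P) r) := rfl

include hΦ

theorem Psi_smul (f : LaurentSeries L) (r : MonoidAlgebra (LaurentSeries L) (Mo Γ P)) :
    Psi Φ (f • r) = lmap (αL L Γ P) f * Psi Φ r := by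
  rw [Psi_apply, map_smul, Φ_smul Φ hΦ, Psi_apply]

theorem Psi_single (s : Mo Γ P) :
    Psi Φ (MonoidAlgebra.single s 1) = HahnSeries.single 0 (MonoidAlgebra.single s 1) := by
  have e : mA (LaurentSeries L) (MoN.inc Γ P) (MonoidAlgebra.single s 1) =
      MonoidAlgebra.single (MoN.inc Γ P s) 1 := by
    change MonoidAlgebra.lift _ _ _ _ (MonoidAlgebra.single s 1) = _
    rw [MonoidAlgebra.lift_single, one_smul]
    rfl
  rw [Psi_apply, e, Φ_single Φ hΦ, FF_one_left, muN_inc]

theorem Psi_hk (t : Tri Γ P) :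
    Psi Φ (hk (LaurentSeries L) t) = HahnSeries.single 0 (hk L[X] t) := by
  unfold hk
  rw [map_sub, Psi_single Φ hΦ, Psi_single Φ hΦ]
  exact (map_sub (HahnSeries.C : MonoidAlgebra L[X] (Mo Γ P) →+*
    LaurentSeries (MonoidAlgebra L[X] (Mo Γ P))) _ _).symm

theorem Psi_zk :
    Psi Φ (zk (LaurentSeries L) Γ P) = HahnSeries.single 0 (zk L[X] Γ P) :=
  Psi_single Φ hΦ _

theorem Psi_smul_hk (f : LaurentSeries L) (t : Tri Γ P) :
    Psi Φ (f • hk (LaurentSeries L) t) = FF (αL L Γ P) f (hk L[X] t) := by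
  rw [Psi_smul Φ hΦ, Psi_hk Φ hΦ]
  rfl

theorem Psi_smul_zk (f : LaurentSeries L) :
    Psi Φ (f • zk (LaurentSeries L) Γ P) = FF (αL L Γ P) f (zk L[X] Γ P) := by
  rw [Psi_smul Φ hΦ, Psi_zk Φ hΦ]
  rfl

end Psi

theorem kill (hL0 : S_L0) : S_kill := by
  intro L Γ P _ _ _ _ _ _ hL hKK hN h0 n _ _ c e hc he K _ κ hy hu hq
  obtain ⟨Φ, hΦ⟩ := phi L Γ P
  have hα : ∀ (r : L) (a : MonoidAlgebra L[X] (Mo Γ P)), αL L Γ P r * a = a * αL L Γ P r :=
    fun r a => Algebra.commutes _ _
  have hL' : IsEuc (LaurentSeries L) := isEuc_laurent hL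
  have hqz : κ.f (Matrix.of fun _ _ : Fin 1 => EE (αL L Γ P) (zk L[X] Γ P)
      (HahnSeries.single 1 1) (zk L[X] Γ P)) = 1 := by
    rw [EE_y]
    exact hq none
  have hqx : ∀ x : P, κ.f (Matrix.of fun _ _ : Fin 1 => EE (αL L Γ P) (hk L[X] (idT Γ x))
      (HahnSeries.single 1 1) (hk L[X] (idT Γ x))) = 1 := by
    intro x
    rw [EE_y]
    exact hq (some x)
  have hq1 : κ.f (Matrix.of fun _ _ : Fin 1 => EE (αL L Γ P)
      (1 : MonoidAlgebra L[X] (Mo Γ P)) (HahnSeries.single 1 1) 1) = 1 := by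
    rw [EE_y]
    have e1 : (1 : LaurentSeries (MonoidAlgebra L[X] (Mo Γ P))) +
        HahnSeries.single 0 (1 : MonoidAlgebra L[X] (Mo Γ P)) * (HahnSeries.single 1 1 - 1) =
        HahnSeries.single 1 1 := by
      change 1 + 1 * (HahnSeries.single 1 1 - 1) = _
      rw [one_mul]
      abel
    rw [e1]
    exact hy
  -- the scalars
  have kA : KilA (pull (Psi Φ) κ) := by
    intro m _ _ B hB
    let ψ : LaurentSeries L →+* LaurentSeries (MonoidAlgebra L[X] (Mo Γ P)) :=
      (Psi Φ).comp (algebraMap (LaurentSeries L) (MonoidAlgebra (LaurentSeries L) (Mo Γ P)))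
    have h1 := euc_kill hL' (pull ψ κ) (fun u => by
      rw [pull_f]
      have e1 : (Matrix.of fun _ _ : Fin 1 => (u : LaurentSeries L)).map ψ =
          Matrix.of fun _ _ : Fin 1 => EE (αL L Γ P) 1 (u : LaurentSeries L) 1 := by
        apply Matrix.ext
        intro i j
        change Psi Φ (algebraMap _ _ (u : LaurentSeries L)) = EE (αL L Γ P) 1 _ 1
        rw [Algebra.algebraMap_eq_smul_one, Psi_smul Φ hΦ, map_one, mul_one]
        unfold EE
        rw [FF_one, sub_self, add_zero]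
        unfold FF
        exact (mul_one _).symm
      rw [e1]
      exact kill_gen (αL L Γ P) hα κ hu (mul_one 1) (mul_one 1) (mul_one 1) (mul_one 1)
        (mul_one 1) (mul_one 1) (mul_one 1) hq1 u) B hB
    exact h1
  -- the zero element
  have kZ : KilZ (pull (Psi Φ) κ) := by
    intro m _ _ B hB
    let θ : LaurentSeries L →ₙ+* LaurentSeries (MonoidAlgebra L[X] (Mo Γ P)) :=
      { toFun := fun c => Psi Φ (c • zk (LaurentSeries L) Γ P)
        map_mul' := fun c d => by
          rw [← map_mul, smul_mul_smul_comm, zk_mul_zk]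
        map_zero' := by rw [zero_smul, map_zero]
        map_add' := fun c d => by rw [add_smul, map_add] }
    have hθ : ∀ c, θ c = FF (αL L Γ P) c (zk L[X] Γ P) := fun c => Psi_smul_zk Φ hΦ c
    have h1 := euc_kill hL' (corK θ κ) (fun u => by
      rw [corK_f, cor_of, hθ, hθ]
      exact kill_gen (αL L Γ P) hα κ hu zk_mul_zk zk_mul_zk zk_mul_zk zk_mul_zk
        zk_mul_zk zk_mul_zk zk_mul_zk hqz u) B hB
    rw [corK_f] at h1
    rw [pull_f, ← h1]
    congr 1
    apply Matrix.ext
    intro i j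
    unfold cor
    rw [Matrix.map_apply, Matrix.add_apply, Matrix.add_apply, map_add, Matrix.map_apply,
      Matrix.map_apply]
    congr 1
    by_cases hij : i = j
    · subst hij
      rw [Matrix.diagonal_apply_eq, Matrix.diagonal_apply_eq, map_sub, map_one]
      congr 1
      change _ = Psi Φ ((1 : LaurentSeries L) • zk (LaurentSeries L) Γ P)
      rw [one_smul]
    · rw [Matrix.diagonal_apply_ne _ hij, Matrix.diagonal_apply_ne _ hij, map_zero]
  -- the stabilisers
  have kS : KilS (pull (Psi Φ) κ) := by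
    intro x m _ _ B hB
    let θ : MonoidAlgebra (LaurentSeries L) (MulAction.stabilizer Γ x) →ₙ+*
        LaurentSeries (MonoidAlgebra L[X] (Mo Γ P)) :=
      ((Psi Φ : MonoidAlgebra (LaurentSeries L) (Mo Γ P) →+* _) :
        MonoidAlgebra (LaurentSeries L) (Mo Γ P) →ₙ+* _).comp (thR (LaurentSeries L) x)
    have hθ : ∀ a, θ a = Psi Φ (thf x a) := fun a => rfl
    have hinv : ∀ g : MulAction.stabilizer Γ x,
        hk L[X] (stT x g) * hk L[X] (stT x g⁻¹) = hk L[X] (idT Γ x) := by
      intro g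
      rw [hk_mul_pos (show (stT x g).b = (stT x g⁻¹).a from rfl)]
      congr 1
      refine Tri.ext rfl ?_ rfl
      change (g : Γ) * ((g⁻¹ : MulAction.stabilizer Γ x) : Γ) = 1
      rw [Subgroup.coe_inv, mul_inv_cancel]
    have h1 := hKK x (LaurentSeries L) hL' K (corK θ κ) (fun g u => by
      rw [corK_f, cor_of, hθ, hθ, thf_single, thf_one, Psi_smul_hk Φ hΦ, Psi_hk Φ hΦ]
      have h2 := hinv g⁻¹
      rw [inv_inv] at h2
      have h3 := kill_gen (αL L Γ P) hα κ hu (hk_idT_idem x) (hinv g) h2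
        (hk_mul_idT (stT x g)) (hk_idT_mul (stT x g)) (hk_mul_idT (stT x g⁻¹))
        (hk_idT_mul (stT x g⁻¹)) (hqx x) u
      unfold EE at h3
      rw [FF_one_left] at h3
      exact h3) m B hB
    rw [corK_f] at h1
    rw [pull_f, ← h1]
    congr 1
    apply Matrix.ext
    intro i j
    unfold cor
    rw [Matrix.map_apply, Matrix.add_apply, Matrix.add_apply, map_add, Matrix.map_apply,
      Matrix.map_apply]
    congr 1
    by_cases hij : i = j
    · subst hij
      rw [Matrix.diagonal_apply_eq, Matrix.diagonal_apply_eq, map_sub, map_one, hθ, thf_one]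
    · rw [Matrix.diagonal_apply_ne _ hij, Matrix.diagonal_apply_ne _ hij, map_zero]
  have h2 := h0 K (pull (Psi Φ) κ) (hL0 _ Γ P K (pull (Psi Φ) κ) kA kZ kS)
  have h3 := hN K (pull Φ κ) (fun m _ _ B hB => by
    have h4 := h2 m B hB
    rw [pull_f] at h4 ⊢
    rw [← h4]
    rfl)
  -- the idempotent
  set P' : Matrix n n (MonoidAlgebra (LaurentSeries L) (MoN Γ P)) :=
    Matrix.of fun i j => lfN (HahnSeries.C : L →+* LaurentSeries L) (c i) (c j) (e i j)
    with hP'
  have hPP : P' * P' = P' := by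
    ext1 i j
    rw [Matrix.mul_apply]
    change ∑ l, lfN _ (c i) (c l) (e i l) * lfN _ (c l) (c j) (e l j) = lfN _ (c i) (c j) (e i j)
    rw [Finset.sum_congr rfl fun l _ => lfN_mul _ (fun g hg => hc i l g hg)
      (fun g hg => hc l j g hg), ← lfN_sum]
    congr 1
    have := congrFun (congrFun he i) j
    rwa [Matrix.mul_apply] at this
  set Y : MonoidAlgebra (LaurentSeries L) (MoN Γ P) :=
    MonoidAlgebra.single 1 (HahnSeries.single 1 1) with hY
  set Yi : MonoidAlgebra (LaurentSeries L) (MoN Γ P) :=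
    MonoidAlgebra.single 1 (HahnSeries.single (-1) 1) with hYi
  have hYc : ∀ q, Y * q = q * Y := fun q => MonoidAlgebra.single_one_comm _ q
  have hYic : ∀ q, Yi * q = q * Yi := fun q => MonoidAlgebra.single_one_comm _ q
  have hYYi : Y * Yi = 1 := by
    rw [hY, hYi, MonoidAlgebra.single_mul_single, one_mul, HahnSeries.single_mul_single,
      add_neg_cancel, one_mul]
    rfl
  have hYiY : Yi * Y = 1 := by rw [hYic, hYYi]
  have hunit : IsUnit (1 - P' + P'.map fun q => q * Y) :=
    ⟨⟨_, _, idem_inv hPP hYc hYYi, idem_inv hPP hYic hYiY⟩, rfl⟩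
  have hfin := h3 n _ hunit
  rw [pull_f] at hfin
  rw [← hfin]
  congr 1
  have hΦY : Φ Y = HahnSeries.single 1 1 := by
    rw [hY, Φ_single Φ hΦ]
    unfold FF
    rw [lmap_single]
    exact mul_one _
  apply Matrix.ext
  intro i j
  rw [Matrix.map_apply, Matrix.add_apply, Matrix.add_apply, Matrix.sub_apply, map_add, map_sub,
    Matrix.map_apply, Matrix.map_apply, map_mul, hΦY]
  have e1 : Φ (P' i j) = HahnSeries.single 0 (lf (c i) (c j) (e i j)) := Φ_lfN Φ hΦ _ _ _
  have e2 : Φ ((1 : Matrix n n (MonoidAlgebra (LaurentSeries L) (MoN Γ P))) i j) =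
      (1 : Matrix n n (LaurentSeries (MonoidAlgebra L[X] (Mo Γ P)))) i j := by
    by_cases hij : i = j
    · subst hij
      rw [Matrix.one_apply_eq, Matrix.one_apply_eq, map_one]
    · rw [Matrix.one_apply_ne hij, Matrix.one_apply_ne hij, map_zero]
  rw [e1, e2]
  change _ + HahnSeries.single 0 (lf (c i) (c j) (e i j)) * (HahnSeries.single 1 1 - 1) = _
  rw [mul_sub, mul_one]
  abel

end Pool.Agent.BB
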