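import Pool.Agent.Lib.MP_8f66f0_al_BB.Desc

/-! # `KTT` from part BA (project GLn, part BB, K4) -/

set_option autoImplicit false
set_option linter.unusedSectionVars false

namespace Pool.Agent.BB

open Pool.Agent.GLA Pool.Agent.Wald Pool.Agent.Ind Pool.Agent.Hier Pool.Agent.TreeC
open Pool.Agent.HierR (Mo MoN Tri Mo0 MonoAct mA)

section J

variable {R P n : Type} [Ring R] [Fintype n] [DecidableEq n] [DecidableEq P]

/-- The inclusion of `n` in `n × F`, `j ↦ (j, c j)`. -/
def mJ (R : Type) [Ring R] (F : Finset P) (c : n → P) : Matrix (n × F) n R :=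
  fun p j => if p.1 = j ∧ (p.2 : P) = c j then 1 else 0

/-- The projection. -/
def mJt (R : Type) [Ring R] (F : Finset P) (c : n → P) : Matrix n (n × F) R :=
  fun j p => if p.1 = j ∧ (p.2 : P) = c j then 1 else 0

theorem mJt_mul_mJ (F : Finset P) (c : n → P) (hF : ∀ i, c i ∈ F) : mJt R F c * mJ R F c = 1 := by
  apply Matrix.ext
  intro j j'
  rw [Matrix.mul_apply, Finset.sum_eq_single ((j, ⟨c j, hF j⟩) : n × F)]
  · unfold mJt mJ
    rw [if_pos ⟨rfl, rfl⟩, one_mul]
    by_cases h : j = j'
    · subst h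
      rw [if_pos ⟨rfl, rfl⟩, Matrix.one_apply_eq]
    · rw [if_neg fun h1 => h h1.1, Matrix.one_apply_ne h]
  · intro p _ hp
    unfold mJt
    rw [if_neg, zero_mul]
    rintro ⟨h1, h2⟩
    exact hp (Prod.ext h1 (Subtype.ext h2))
  · exact fun h => absurd (Finset.mem_univ _) h

theorem mJ_mul_apply {m : Type} (F : Finset P) (c : n → P) (X : Matrix n m R) (p : n × F) (j : m) :
    (mJ R F c * X) p j = if (p.2 : P) = c p.1 then X p.1 j else 0 := by
  rw [Matrix.mul_apply, Finset.sum_eq_single p.1]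
  · unfold mJ
    by_cases h : (p.2 : P) = c p.1
    · rw [if_pos ⟨rfl, h⟩, if_pos h, one_mul]
    · rw [if_neg fun h1 => h h1.2, if_neg h, zero_mul]
  · intro i _ hi
    unfold mJ
    rw [if_neg fun h1 => hi h1.1.symm, zero_mul]
  · exact fun h => absurd (Finset.mem_univ _) h

theorem mul_mJt_apply {m : Type} (F : Finset P) (c : n → P) (X : Matrix m n R) (i : m)
    (q : n × F) : (X * mJt R F c) i q = if (q.2 : P) = c q.1 then X i q.1 else 0 := by
  rw [Matrix.mul_apply, Finset.sum_eq_single q.1]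
  · unfold mJt
    by_cases h : (q.2 : P) = c q.1
    · rw [if_pos ⟨rfl, h⟩, if_pos h, mul_one]
    · rw [if_neg fun h1 => h h1.2, if_neg h, mul_zero]
  · intro j _ hj
    unfold mJt
    rw [if_neg fun h1 => hj h1.1.symm, mul_zero]
  · exact fun h => absurd (Finset.mem_univ _) h

end J

section

variable {k Γ P : Type} [CommRing k] [Group Γ] [PartialOrder P] [MulAction Γ P] [MonoAct Γ P]

/-- Invariants of empty matrices. -/
theorem k1_empty {R K n : Type} [Ring R] [CommGroup K] (κ : K1Fun R K) [Fintype n] [DecidableEq n]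
    [IsEmpty n] (A : Matrix n n R) : κ.f A = 1 := by
  rw [Subsingleton.elim A 1]
  exact K1Fun.f_one κ

theorem spF_of_supp {F : Finset P} {n m : Type} {A : Matrix n m (MonoidAlgebra k (Mo Γ P))}
    (h : ∀ i j s, (A i j).coeff s ≠ 0 → InF F s) : SpF F A :=
  fun i j s hs => h i j s (Finsupp.mem_support_iff.1 hs)

/-- The support lies in `F`. -/
def SE (F : Finset P) (r : MonoidAlgebra k (Mo Γ P)) : Prop := ∀ s, r.coeff s ≠ 0 → InF F s

theorem SE.zero (F : Finset P) : SE F (0 : MonoidAlgebra k (Mo Γ P)) := fun _ h => absurd rfl h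

theorem SE.add {F : Finset P} {a b : MonoidAlgebra k (Mo Γ P)} (ha : SE F a) (hb : SE F b) :
    SE F (a + b) := by
  intro g hg
  by_cases h : a.coeff g = 0
  · refine hb g fun h1 => hg ?_
    change a.coeff g + b.coeff g = 0
    rw [h, h1, add_zero]
  · exact ha g h

theorem SE.neg {F : Finset P} {a : MonoidAlgebra k (Mo Γ P)} (ha : SE F a) : SE F (-a) := by
  intro g hg
  refine ha g fun h1 => hg ?_
  change -a.coeff g = 0
  rw [h1, neg_zero]

theorem SE.sub {F : Finset P} {a b : MonoidAlgebra k (Mo Γ P)} (ha : SE F a) (hb : SE F b) :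
    SE F (a - b) := by
  rw [sub_eq_add_neg]
  exact ha.add hb.neg

theorem SE.smul {F : Finset P} {a : MonoidAlgebra k (Mo Γ P)} (ha : SE F a) (c : k) :
    SE F (c • a) := by
  intro g hg
  refine ha g fun h1 => hg ?_
  change c • a.coeff g = 0
  rw [h1, smul_zero]

theorem SE.single {F : Finset P} {s : Mo Γ P} (h : InF F s) (r : k) :
    SE F (MonoidAlgebra.single s r : MonoidAlgebra k (Mo Γ P)) := by
  intro g' hg'
  by_cases h1 : s = g'
  · rw [← h1]
    exact h
  · exact absurd (Finsupp.single_eq_of_ne' h1) hg'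

theorem SE.one (F : Finset P) : SE F (1 : MonoidAlgebra k (Mo Γ P)) := by
  rw [MonoidAlgebra.one_def]
  exact SE.single (s := Mo.one) trivial 1

theorem SE.zk (F : Finset P) : SE F (zk k Γ P) := SE.single (s := Mo.zero) trivial 1

theorem SE.hk {F : Finset P} {t : Tri Γ P} (h : t.a ∈ F) (h' : t.b ∈ F) : SE F (hk k t) :=
  (SE.single (s := Mo.mor t) ⟨h, h'⟩ 1).sub (SE.zk F)

theorem SE.sum {ι : Type} {F : Finset P} (s : Finset ι) (f : ι → MonoidAlgebra k (Mo Γ P))
    (h : ∀ i ∈ s, SE F (f i)) : SE F (∑ i ∈ s, f i) :=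
  Finset.sum_induction f (SE F) (fun _ _ => SE.add) (SE.zero F) h

theorem SE.lf {F : Finset P} {x y : P} (hx : x ∈ F) (hy : y ∈ F) (a : MonoidAlgebra k Γ) :
    SE F (lf x y a) := by
  induction a using MonoidAlgebra.induction_linear with
  | zero =>
    rw [lf_zero]
    exact SE.zero F
  | add a b ha hb =>
    rw [lf_add]
    exact ha.add hb
  | single g r =>
    rw [lf_single]
    by_cases h : g • y ≤ x
    · rw [lf0_pos h]
      exact (SE.hk hx hy).smul r
    · rw [lf0_neg h, smul_zero]
      exact SE.zero F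

theorem SE.diag {F : Finset P} {n : Type} [DecidableEq n] {d : n → MonoidAlgebra k (Mo Γ P)}
    (h : ∀ i, SE F (d i)) (i j : n) : SE F (Matrix.diagonal d i j) := by
  by_cases hij : i = j
  · subst hij
    rw [Matrix.diagonal_apply_eq]
    exact h i
  · rw [Matrix.diagonal_apply_ne _ hij]
    exact SE.zero F

theorem SE.spF {F : Finset P} {n m : Type} {A : Matrix n m (MonoidAlgebra k (Mo Γ P))}
    (h : ∀ i j, SE F (A i j)) : SpF F A := spF_of_supp h

/-- The scalars in the corner of the zero element. -/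
noncomputable def zR (k Γ P : Type) [CommRing k] [Group Γ] [PartialOrder P] [MulAction Γ P]
    [MonoAct Γ P] : k →ₙ+* MonoidAlgebra k (Mo Γ P) where
  toFun c := c • zk k Γ P
  map_mul' c d := by rw [smul_mul_smul_comm, zk_mul_zk]
  map_zero' := zero_smul _ _
  map_add' c d := add_smul _ _ _

theorem zR_cor {n : Type} [DecidableEq n] (A : Matrix n n k) : cor (zR k Γ P) A =
    A.map (fun c => c • zk k Γ P) + Matrix.diagonal fun _ => 1 - zk k Γ P := by
  unfold cor
  have h : zR k Γ P 1 = zk k Γ P := one_smul _ _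
  rw [h]
  rfl

theorem thR_cor {n : Type} [DecidableEq n] (x : P)
    (A : Matrix n n (MonoidAlgebra k (MulAction.stabilizer Γ x))) : cor (thR k x) A =
    A.map (thf x) + Matrix.diagonal fun _ => 1 - hk k (idT Γ x) := by
  unfold cor
  have h : thR k x (1 : MonoidAlgebra k (MulAction.stabilizer Γ x)) = hk k (idT Γ x) :=
    thf_one x
  rw [h]
  rfl

/-- The entry of the corner of the stabiliser. -/
theorem en_thf (x : P) (a : MonoidAlgebra k (MulAction.stabilizer Γ x)) :
    en x x (thf x a) =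
      MonoidAlgebra.mapDomainRingHom k (MulAction.stabilizer Γ x).subtype a := by
  classical
  rw [← lf_incl, en_lf, if_pos ⟨rfl, rfl⟩]
  induction a using MonoidAlgebra.induction_linear with
  | zero =>
    rw [map_zero]
    exact RS.zero x x
  | add a b ha hb =>
    rw [map_add]
    exact ha.add hb
  | single h r =>
    have e : MonoidAlgebra.mapDomainRingHom k (MulAction.stabilizer Γ x).subtype
        (MonoidAlgebra.single h r) = MonoidAlgebra.single (h : Γ) r := by
      simp
    rw [e]
    exact RS.single (MulAction.mem_stabilizer_iff.1 h.2).le r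

theorem SE.thf {F : Finset P} {x : P} (hx : x ∈ F)
    (a : MonoidAlgebra k (MulAction.stabilizer Γ x)) : SE F (thf x a) := by
  rw [← lf_incl]
  exact SE.lf hx hx _

end

section Main

variable {k Γ P : Type} [CommRing k] [Group Γ] [PartialOrder P] [MulAction Γ P] [MonoAct Γ P]
  {n : Type} [Fintype n] [DecidableEq n]

/-- The matrix over `k[Mo Γ P]` of a label respecting matrix. -/
noncomputable def uM (c : n → P) (a : Matrix n n (MonoidAlgebra k Γ)) :
    Matrix n n (MonoidAlgebra k (Mo Γ P)) :=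
  (Matrix.of fun i j => lf (c i) (c j) (a i j)) + Matrix.diagonal fun i => 1 - hk k (idT Γ (c i))

theorem lf_mul_hk {x y : P} {a : MonoidAlgebra k Γ} (ha : RS x y a) :
    lf x y a * hk k (idT Γ y) = lf x y a := by
  rw [← lf_one, lf_mul ha (RS.one y), mul_one]

theorem hk_mul_lf {x y : P} {a : MonoidAlgebra k Γ} (ha : RS x y a) :
    hk k (idT Γ x) * lf x y a = lf x y a := by
  rw [← lf_one, lf_mul (RS.one x) ha, one_mul]

theorem uM_mul {c : n → P} {a b : Matrix n n (MonoidAlgebra k Γ)} (ha : Resp c c a)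
    (hb : Resp c c b) (hab : a * b = 1) : uM c a * uM c b = 1 := by
  unfold uM
  rw [Matrix.add_mul, Matrix.mul_add, Matrix.mul_add]
  have h1 : (Matrix.of fun i j => lf (c i) (c j) (a i j)) *
      (Matrix.of fun i j => lf (c i) (c j) (b i j)) =
      (Matrix.diagonal fun i => hk k (idT Γ (c i)) : Matrix n n (MonoidAlgebra k (Mo Γ P))) := by
    apply Matrix.ext
    intro i j
    rw [Matrix.mul_apply]
    have h2 : ∑ q, lf (c i) (c q) (a i q) * lf (c q) (c j) (b q j) =
        lf (c i) (c j) ((a * b) i j) := by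
      rw [Matrix.mul_apply, lf_sum]
      exact Finset.sum_congr rfl fun q _ => lf_mul (ha i q) (hb q j)
    refine h2.trans ?_
    rw [hab]
    by_cases hij : i = j
    · subst hij
      rw [Matrix.one_apply_eq, Matrix.diagonal_apply_eq, lf_one]
    · rw [Matrix.one_apply_ne hij, Matrix.diagonal_apply_ne _ hij, lf_zero]
  have h3 : (Matrix.of fun i j => lf (c i) (c j) (a i j)) *
      (Matrix.diagonal fun i => 1 - hk k (idT Γ (c i))) = 0 := by
    apply Matrix.ext
    intro i j
    rw [Matrix.mul_diagonal, Matrix.of_apply, mul_sub, mul_one, lf_mul_hk (ha i j), sub_self]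
    rfl
  have h4 : (Matrix.diagonal fun i => 1 - hk k (idT Γ (c i))) *
      (Matrix.of fun i j => lf (c i) (c j) (b i j)) = 0 := by
    apply Matrix.ext
    intro i j
    rw [Matrix.diagonal_mul, Matrix.of_apply, sub_mul, one_mul, hk_mul_lf (hb i j), sub_self]
    rfl
  rw [h1, h3, h4, Matrix.diagonal_mul_diagonal, add_zero, zero_add, Matrix.diagonal_add,
    ← Matrix.diagonal_one]
  congr 1
  funext i
  have h5 := hk_idT_idem (k := k) (Γ := Γ) (c i)
  rw [mul_sub, mul_one, sub_mul, one_mul, h5, sub_self, sub_zero]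
  abel

theorem mF_uM [DecidableEq P] (F : Finset P) {c : n → P} {a : Matrix n n (MonoidAlgebra k Γ)}
    (ha : Resp c c a) :
    mF F (uM c a) = 1 - mJ (MonoidAlgebra k Γ) F c * ((1 - a) * mJt (MonoidAlgebra k Γ) F c) := by
  apply Matrix.ext
  rintro ⟨i, x⟩ ⟨j, y⟩
  rw [Matrix.sub_apply, mJ_mul_apply, mul_mJt_apply, Matrix.sub_apply]
  change en (x : P) (y : P) (lf (c i) (c j) (a i j) +
    Matrix.diagonal (fun i => 1 - hk k (idT Γ (c i))) i j) = _
  rw [en_add, en_lf _ (ha i j)]
  by_cases hij : i = j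
  · subst hij
    rw [Matrix.diagonal_apply_eq, en_sub, en_one, en_hk, Matrix.one_apply_eq]
    by_cases hxy : x = y
    · subst hxy
      rw [if_pos rfl, Matrix.one_apply_eq]
      by_cases h : (x : P) = c i
      · rw [if_pos ⟨h.symm, h.symm⟩, if_pos h, if_pos h,
          en0_mor_pos (t := idT Γ (c i)) h.symm h.symm]
        change a i i + (1 - 1) = 1 - (1 - a i i)
        abel
      · rw [if_neg fun h1 => h h1.1.symm, if_neg h,
          en0_mor_ne (t := idT Γ (c i)) fun h1 => h h1.symm]
        abel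
    · have hxy' : (x : P) ≠ y := fun h => hxy (Subtype.ext h)
      rw [if_neg fun h1 => hxy' (h1.1.symm.trans h1.2), if_neg hxy',
        Matrix.one_apply_ne fun h1 => hxy (Prod.ext_iff.1 h1).2]
      by_cases h : (x : P) = c i
      · rw [if_pos h, if_neg fun h1 => hxy' (h.trans h1.symm),
          en0_mor_ne' (t := idT Γ (c i)) fun h1 => hxy' (h.trans h1)]
        abel
      · rw [if_neg h, en0_mor_ne (t := idT Γ (c i)) fun h1 => h h1.symm]
        abel
  · rw [Matrix.diagonal_apply_ne _ hij, en_zero, add_zero, Matrix.one_apply_ne hij,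
      Matrix.one_apply_ne fun h1 => hij (Prod.ext_iff.1 h1).1]
    by_cases h : (x : P) = c i
    · by_cases h' : (y : P) = c j
      · rw [if_pos ⟨h.symm, h'.symm⟩, if_pos h, if_pos h']
        abel
      · rw [if_neg fun h1 => h' h1.2.symm, if_pos h, if_neg h']
        abel
    · rw [if_neg fun h1 => h h1.1.symm, if_neg h]
      abel

end Main

theorem ktt (h3 : S_L0) : S_ktt := by
  classical
  intro k Γ P _ _ _ _ _ hKT K _ κ hκ n _ _ c a b ha hb hab hba
  by_cases hn : IsEmpty n
  · exact k1_empty κ a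
  obtain ⟨i₀⟩ := not_isEmpty_iff.1 hn
  -- scalars
  have hsc : ∀ (n : Type) [Fintype n] [DecidableEq n] (A : Matrix n n k), IsUnit A →
      κ.f (A.map (algebraMap k (MonoidAlgebra k Γ))) = 1 := by
    intro n _ _ A hA
    have h1 := hκ (c i₀) n (A.map (algebraMap k _)) (hA.map (algebraMap k _).mapMatrix)
    rw [← h1]
    congr 1
    apply Matrix.ext
    intro i j
    rw [Matrix.map_apply, Matrix.map_apply, Matrix.map_apply]
    rw [Algebra.algebraMap_eq_smul_one, Algebra.algebraMap_eq_smul_one, MonoidAlgebra.one_def,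
      MonoidAlgebra.one_def, MonoidAlgebra.smul_single, MonoidAlgebra.smul_single]
    simp
  obtain ⟨κ', hκ'⟩ := fun_k k Γ P K κ hsc
  have hA : KilA κ' := by
    intro n _ _ A hA
    have hs : SpF ∅ (A.map (algebraMap k (MonoidAlgebra k (Mo Γ P)))) := by
      refine SE.spF fun i j => ?_
      rw [Matrix.map_apply, Algebra.algebraMap_eq_smul_one]
      exact (SE.one ∅).smul _
    have hu : IsUnit (A.map (algebraMap k (MonoidAlgebra k (Mo Γ P)))) :=
      hA.map (algebraMap k (MonoidAlgebra k (Mo Γ P))).mapMatrix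
    rw [hκ' ∅ n _ hu hs]
    exact k1_empty κ _
  have hZ : KilZ κ' := by
    intro n _ _ A hA
    have hs : SpF ∅ (A.map (fun c => c • zk k Γ P) + Matrix.diagonal fun _ => 1 - zk k Γ P) := by
      refine SE.spF fun i j => ?_
      rw [Matrix.add_apply]
      refine SE.add ?_ (SE.diag (fun _ => (SE.one ∅).sub (SE.zk ∅)) i j)
      rw [Matrix.map_apply]
      exact (SE.zk ∅).smul _
    have hu : IsUnit (A.map (fun c => c • zk k Γ P) + Matrix.diagonal fun _ => 1 - zk k Γ P) := by
      rw [← zR_cor]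
      exact cor_unit _ hA
    rw [hκ' ∅ n _ hu hs]
    exact k1_empty κ _
  have hS : KilS κ' := by
    intro x n _ _ A hA
    have hx : x ∈ ({x} : Finset P) := Finset.mem_singleton_self x
    have hs : SpF {x} (A.map (thf x) + Matrix.diagonal fun _ => 1 - hk k (idT Γ x)) := by
      refine SE.spF fun i j => ?_
      rw [Matrix.add_apply]
      refine SE.add ?_ (SE.diag (fun _ => (SE.one _).sub (SE.hk hx hx)) i j)
      rw [Matrix.map_apply]
      exact SE.thf hx _
    have hu : IsUnit (A.map (thf x) + Matrix.diagonal fun _ => 1 - hk k (idT Γ x)) := by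
      rw [← thR_cor]
      exact cor_unit _ hA
    rw [hκ' {x} n _ hu hs]
    have h1 := hκ x n A hA
    have h2 := κ.reindex (Equiv.prodUnique n ({x} : Finset P)).symm
      (A.map (MonoidAlgebra.mapDomainRingHom k (MulAction.stabilizer Γ x).subtype))
      (hA.map (MonoidAlgebra.mapDomainRingHom k (MulAction.stabilizer Γ x).subtype).mapMatrix)
    rw [← h1, ← h2]
    congr 1
    apply Matrix.ext
    rintro ⟨i, y, hy⟩ ⟨j, z, hz⟩
    have hy' : y = x := Finset.mem_singleton.1 hy
    have hz' : z = x := Finset.mem_singleton.1 hz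
    change en y z (thf x (A i j) + Matrix.diagonal (fun _ => 1 - hk k (idT Γ x)) i j) =
      MonoidAlgebra.mapDomainRingHom k (MulAction.stabilizer Γ x).subtype (A i j)
    rw [hy', hz', en_add, en_thf]
    have h4 : en x x (Matrix.diagonal (fun _ => 1 - hk k (idT Γ x)) i j) = 0 := by
      by_cases hij : i = j
      · subst hij
        have h6 : en0 k x x (Mo.mor (idT Γ x)) = 1 := en0_mor_pos (t := idT Γ x) rfl rfl
        rw [Matrix.diagonal_apply_eq, en_sub, en_one, if_pos rfl, en_hk, h6, sub_self]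
      · rw [Matrix.diagonal_apply_ne _ hij, en_zero]
    rw [h4, add_zero]
  have hall := hKT K κ' (fun m _ _ M hM => h3 k Γ P K κ' hA hZ hS m M hM)
  have hU : IsUnit (uM c a : Matrix n n (MonoidAlgebra k (Mo Γ P))) :=
    ⟨⟨uM c a, uM c b, uM_mul ha hb hab, uM_mul hb ha hba⟩, rfl⟩
  have hF : ∀ i, c i ∈ Finset.univ.image c := fun i => Finset.mem_image_of_mem c (Finset.mem_univ i)
  have hs : SpF (Finset.univ.image c) (uM c a : Matrix n n (MonoidAlgebra k (Mo Γ P))) := by
    refine SE.spF fun i j => ?_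
    exact SE.add (SE.lf (hF i) (hF j) _)
      (SE.diag (fun i => (SE.one _).sub (SE.hk (hF i) (hF i))) i j)
  have h1 := hall n (uM c a) hU
  rw [hκ' _ n _ hU hs, mF_uM _ ha] at h1
  have h2 := mF_unit (Finset.univ.image c) hU hs
  rw [mF_uM _ ha] at h2
  obtain ⟨_, h4⟩ := sameK_swap (mJ (MonoidAlgebra k Γ) (Finset.univ.image c) c)
    ((1 - a) * mJt (MonoidAlgebra k Γ) (Finset.univ.image c) c) h2
  have h5 := h4 K κ
  rw [Matrix.mul_assoc, mJt_mul_mJ _ c hF, Matrix.mul_one, sub_sub_cancel] at h5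
  rw [h5, h1]

end Pool.Agent.BB
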