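import Pool.Agent.Lib.MP_8f66f0_al_BB.Cplx
import Pool.Agent.Lib.MP_8f66f0_al_BB.Ret
import Pool.Agent.Lib.MP_8f66f0_al_HierR.Cplx

/-! # The resolution of the bimodule of morphisms (project GLn, part BB2)

`resB`: for a poset `P` with a toggle and a `Γ`-action which respects it, the bimodule `PM (Tri Γ P)` of
the morphisms has a resolution of length `bnd P` by retracts of induced bimodules with groups in any
class which contains the subgroups of the stabilisers. -/

set_option autoImplicit false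

namespace Pool.Agent.BB

open Pool.Agent.GLA Pool.Agent.HierR

theorem resB (Γ P : Type) [Group Γ] [TogglePoset P] [ToggleAct Γ P]
    (C : ∀ (H : Type) [Group H], Prop)
    (hC : ∀ K : Subgroup Γ, (∃ p : P, K ≤ MulAction.stabilizer Γ p) → C K) :
    ResB (Mo Γ P) C (TogglePoset.bnd P) (PM (Tri Γ P)) := by
  refine cplx (Mo Γ P) C (TogglePoset.bnd P) (PM (Tri Γ P)) (FX Γ P) (eX Γ P) (dX Γ P)
    (isBi_eX Γ P) (isBi_dX Γ P) (fun q => isRet (DX Γ P q) C hC) surj_eX
    (fun m => ⟨exact_eX m, ?_⟩) (fun q m => ⟨exact_dX m, ?_⟩)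
    (fun q hq => ⟨fun x y => (FX_zero hq x).trans (FX_zero hq y).symm⟩)
  · rintro ⟨y, rfl⟩
    exact eX_dX y
  · rintro ⟨y, rfl⟩
    exact dX_dX y

end Pool.Agent.BB
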