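import Pool.Agent.Lib.MP_8f66f0_al_BB.SpecK

/-!
# K9. `SFTT` over `L` from `SFTT` over `L[X]` (project GLn, part BB)
-/

set_option autoImplicit false

namespace Pool.Agent.BB

open Pool.Agent.GLA Pool.Agent.Wald Pool.Agent.Ind Pool.Agent.Hier Pool.Agent.TreeC
open Matrix

namespace X0Aux

variable {R S Γ : Type} [CommRing R] [CommRing S] [Group Γ]

theorem coeff_mrh (f : R →+* S) (a : MonoidAlgebra R Γ) (g : Γ) :
    (MonoidAlgebra.mapRingHom Γ f a).coeff g = f (a.coeff g) :=
  MonoidAlgebra.coeff_mapRingHom f a g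

theorem resp_map {P n m : Type} [LE P] [SMul Γ P] (f : R →+* S) {c : n → P} {d : m → P}
    {a : Matrix n m (MonoidAlgebra R Γ)} (h : Resp c d a) :
    Resp c d (a.map (MonoidAlgebra.mapRingHom Γ f)) := by
  intro i j g hg
  apply h i j g
  intro h0
  apply hg
  rw [Matrix.map_apply, coeff_mrh, h0, map_zero]

theorem dg_map {n : Type} [DecidableEq n] (φ : MonoidAlgebra R Γ →+* MonoidAlgebra S Γ)
    (s : n → Prop) [DecidablePred s] :
    (Matrix.diagonal fun j => if s j then (1 : MonoidAlgebra R Γ) else 0).map φ =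
      Matrix.diagonal fun j => if s j then (1 : MonoidAlgebra S Γ) else 0 := by
  rw [Matrix.diagonal_map (map_zero φ)]
  congr 1
  funext j
  split_ifs
  · exact map_one φ
  · exact map_zero φ

end X0Aux

open X0Aux in
/-- K9. -/
theorem x0 : S_x0 := by
  intro L Γ P _ _ _ _ H n _ _ c e hc he
  have hm : ∀ {a b d : Type} [Fintype b] (A : Matrix a b (MonoidAlgebra (Polynomial L) Γ))
      (B : Matrix b d (MonoidAlgebra (Polynomial L) Γ)),
      (A * B).map (MonoidAlgebra.mapRingHom Γ (Polynomial.evalRingHom (0 : L))) =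
        A.map (MonoidAlgebra.mapRingHom Γ (Polynomial.evalRingHom (0 : L))) *
        B.map (MonoidAlgebra.mapRingHom Γ (Polynomial.evalRingHom (0 : L))) :=
    fun A B => Matrix.map_mul
  have hev : ∀ a : MonoidAlgebra L Γ,
      MonoidAlgebra.mapRingHom Γ (Polynomial.evalRingHom (0 : L))
        (MonoidAlgebra.mapRingHom Γ (Polynomial.C : L →+* Polynomial L) a) = a := by
    intro a
    ext g
    rw [coeff_mrh, coeff_mrh]
    simp
  have h1 : e.map (MonoidAlgebra.mapRingHom Γ (Polynomial.C : L →+* Polynomial L)) *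
      e.map (MonoidAlgebra.mapRingHom Γ (Polynomial.C : L →+* Polynomial L)) =
      e.map (MonoidAlgebra.mapRingHom Γ (Polynomial.C : L →+* Polynomial L)) := by
    rw [← Matrix.map_mul, he]
  obtain ⟨m, _, _, c', s, _, t, _, u, v, hu, hv, huv, hvu, hcon⟩ := H n c _ (resp_map _ hc) h1
  refine ⟨m, inferInstance, inferInstance, c', s, inferInstance, t, inferInstance,
    u.map (MonoidAlgebra.mapRingHom Γ (Polynomial.evalRingHom (0 : L))),
    v.map (MonoidAlgebra.mapRingHom Γ (Polynomial.evalRingHom (0 : L))), resp_map _ hu,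
    resp_map _ hv, ?_, ?_, ?_⟩
  · rw [← hm, huv, Matrix.map_one _ (map_zero _) (map_one _)]
  · rw [← hm, hvu, Matrix.map_one _ (map_zero _) (map_one _)]
  · have h2 := congrArg (fun A => A.map
      (MonoidAlgebra.mapRingHom Γ (Polynomial.evalRingHom (0 : L)))) hcon
    rw [hm, hm, Matrix.fromBlocks_map, dg_map, dg_map, Matrix.map_zero _ (map_zero _),
      Matrix.map_zero _ (map_zero _), Matrix.map_map] at h2
    have h3 : e.map (⇑(MonoidAlgebra.mapRingHom Γ (Polynomial.evalRingHom (0 : L))) ∘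
        ⇑(MonoidAlgebra.mapRingHom Γ (Polynomial.C : L →+* Polynomial L))) = e := by
      ext1 i j
      exact hev _
    rw [h3] at h2
    exact h2

end Pool.Agent.BB
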