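import Pool.Agent.Lib.MP_8f66f0_al_BB.L0
import Pool.Agent.Lib.MP_8f66f0_al_BB.Idx
import Pool.Agent.Lib.MP_8f66f0_al_BB.X0
import Pool.Agent.Lib.MP_8f66f0_al_BB.Desc
import Pool.Agent.Lib.MP_8f66f0_al_BB.Fun
import Pool.Agent.Lib.MP_8f66f0_al_BB.Resb
import Pool.Agent.Lib.MP_8f66f0_al_BB.Ktt
import Pool.Agent.Lib.MP_8f66f0_al_BB.Kill
import Pool.Agent.Lib.MP_8f66f0_al_HierR.All

/-!
# Assembly of part B of project GLn
-/

set_option autoImplicit false

namespace Pool.Agent.BB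

open Pool.Agent.GLA Pool.Agent.Wald Pool.Agent.Ind Pool.Agent.Hier Pool.Agent.TreeC
open Pool.Agent.WaldL
open Pool.Agent.HierR (Mo MoN Tri Mo0 MonoAct mA ResB PM S_out S_out0 all_out out0)

theorem lf_idem {k Γ P n : Type} [CommRing k] [Group Γ] [PartialOrder P] [MulAction Γ P]
    [MonoAct Γ P] [Fintype n] (c : n → P) (e : Matrix n n (MonoidAlgebra k Γ)) (he : Resp c c e)
    (hee : e * e = e) :
    (Matrix.of fun i j => lf (c i) (c j) (e i j) : Matrix n n (MonoidAlgebra k (Mo Γ P))) *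
      (Matrix.of fun i j => lf (c i) (c j) (e i j)) =
      Matrix.of fun i j => lf (c i) (c j) (e i j) := by
  refine Matrix.ext fun i l => ?_
  rw [Matrix.mul_apply]
  change ∑ j, lf (c i) (c j) (e i j) * lf (c j) (c l) (e j l) = lf (c i) (c l) (e i l)
  rw [Finset.sum_congr rfl fun j _ => lf_mul (he i j) (he j l), ← lf_sum]
  congr 1
  have h := congrFun (congrFun hee i) l
  rw [Matrix.mul_apply] at h
  exact h

theorem qst_idemA {k Γ P : Type} [CommRing k] [Group Γ] [PartialOrder P] [MulAction Γ P]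
    [MonoAct Γ P] (l : Option P) : qst k Γ P l * qst k Γ P l = qst k Γ P l := by
  cases l with
  | none => exact zk_mul_zk
  | some x => exact hk_idT_idem x

/-- Part B from K4 and K7. -/
theorem sBB_of (hktt : S_ktt) (hkill : S_kill) : S_BB := by
  intro Γ P _ _ _ hKS L _ _ hL
  have hres := resB Γ P (fun H _ => SS H) fun K ⟨p, hp⟩ => (hKS p K hp).2
  have hinc : ∀ (LL : Type) [CommRing LL] [IsDomain LL], IsEuc LL →
      KT (mA LL (Pool.Agent.HierR.MoN.inc Γ P) :
        MonoidAlgebra LL (Mo Γ P) →+* MonoidAlgebra LL (MoN Γ P)) := fun LL _ _ h =>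
    all_out Γ P _ hres LL h
  have h0 : ∀ (LL : Type) [CommRing LL] [IsDomain LL], IsEuc LL →
      KT (mA LL (Mo0 Γ P).subtype :
        MonoidAlgebra LL (Mo0 Γ P) →+* MonoidAlgebra LL (Mo Γ P)) := fun LL _ _ h =>
    out0 Γ P TogglePoset.nu TogglePoset.nu_add ToggleAct.nu_smul TogglePoset.eq_of_nu LL
      (hinc LL h)
  have hX : SFTT (Polynomial L) Γ P := by
    intro n _ _ c e he hee
    obtain ⟨m, l, i1, i2, i3, i4, s, t, U, V, hs, ht, hUV, hVU⟩ :=
      idx (MonoidAlgebra (Polynomial L) (Mo Γ P)) (Option P) (qst (Polynomial L) Γ P) qst_idemA n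
        (Matrix.of fun i j => lf (c i) (c j) (e i j)) (lf_idem c e he hee)
        (hkill L Γ P hL (fun x => (hKS x _ le_rfl).1)
          (hinc (LaurentSeries L) (isEuc_laurent hL)) (h0 (LaurentSeries L) (isEuc_laurent hL))
          n c e he hee)
    exact desc (Polynomial L) Γ P n m l c e he hee s t U V hs ht hUV hVU
  exact ⟨hktt L Γ P (h0 L hL), x0 L Γ P hX, hX⟩

/-- **Part B of project GLn.** -/
theorem sBB : S_BB :=
  sBB_of (ktt l0) (kill l0)

end Pool.Agent.BB
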