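import Pool.Agent.Lib.MP_8f66f0_al_HierR.Mo

/-!
# The bisets `Qd` of a `Γ`-set with a bottom and a top in the poset of labels (project GLn, part BB)

`D : BT Γ P Ξ`: equivariant maps `bot`, `top` from the `Γ`-set `Ξ` to the poset `P`. `Qd D` is the set
of the `(a, ξ, g, b)` with `g • b ≤ bot ξ`, `top ξ ≤ a`: a pointed biset over the monoid `Mo Γ P`.
Equivariant maps which shrink the intervals `[bot, top]` induce homomorphisms of bimodules.
-/

set_option autoImplicit false

namespace Pool.Agent.BB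

open Pool.Agent.HierR

/-- Equivariant maps to the poset of labels. -/
structure BT (Γ P Ξ : Type) [Group Γ] [MulAction Γ P] [MulAction Γ Ξ] where
  /-- the bottom -/
  bot : Ξ → P
  /-- the top -/
  top : Ξ → P
  bot_smul : ∀ (g : Γ) (x : Ξ), bot (g • x) = g • bot x
  top_smul : ∀ (g : Γ) (x : Ξ), top (g • x) = g • top x

/-- The quadruples `(a, ξ, g, b)` with `g • b ≤ bot ξ` and `top ξ ≤ a`. -/
@[ext] structure Qd {Γ P Ξ : Type} [Group Γ] [PartialOrder P] [MulAction Γ P] [MulAction Γ Ξ]
    (D : BT Γ P Ξ) where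
  a : P
  x : Ξ
  g : Γ
  b : P
  le : g • b ≤ D.bot x
  le' : D.top x ≤ a

section

variable {Γ P Ξ : Type} [Group Γ] [PartialOrder P] [MulAction Γ P] [MonoAct Γ P] [MulAction Γ Ξ]
  {D : BT Γ P Ξ}

/-- A morphism acts from the left. -/
def Qd.lm (t : Tri Γ P) (q : Qd D) (h : t.b = q.a) : Qd D where
  a := t.a
  x := t.g • q.x
  g := t.g * q.g
  b := q.b
  le := by
    rw [D.bot_smul, mul_smul]
    exact MonoAct.mono t.g q.le
  le' := by
    rw [D.top_smul]
    refine le_trans (MonoAct.mono t.g ?_) t.le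
    rw [h]
    exact q.le'

/-- A morphism acts from the right. -/
def Qd.rm (q : Qd D) (t : Tri Γ P) (h : q.b = t.a) : Qd D where
  a := q.a
  x := q.x
  g := q.g * t.g
  b := t.b
  le := by
    rw [mul_smul]
    refine le_trans (MonoAct.mono q.g ?_) q.le
    rw [h]
    exact t.le
  le' := q.le'

open Classical in
/-- The left action of the morphisms. -/
noncomputable def Qd.lM (t : Tri Γ P) (q : Qd D) : Option (Qd D) :=
  if h : t.b = q.a then some (Qd.lm t q h) else none

open Classical in
/-- The right action of the morphisms. -/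
noncomputable def Qd.rM (q : Qd D) (t : Tri Γ P) : Option (Qd D) :=
  if h : q.b = t.a then some (Qd.rm q t h) else none

theorem Qd.lM_pos {t : Tri Γ P} {q : Qd D} (h : t.b = q.a) : Qd.lM t q = some (Qd.lm t q h) :=
  dif_pos h

theorem Qd.lM_neg {t : Tri Γ P} {q : Qd D} (h : ¬ t.b = q.a) : Qd.lM t q = none := dif_neg h

theorem Qd.rM_pos {t : Tri Γ P} {q : Qd D} (h : q.b = t.a) : Qd.rM q t = some (Qd.rm q t h) :=
  dif_pos h

theorem Qd.rM_neg {t : Tri Γ P} {q : Qd D} (h : ¬ q.b = t.a) : Qd.rM q t = none := dif_neg h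

theorem mulO_pos {s t : Tri Γ P} (h : s.b = t.a) : s.mulO t = some (s.comp t h) := dif_pos h

theorem mulO_neg {s t : Tri Γ P} (h : ¬ s.b = t.a) : s.mulO t = none := dif_neg h

/-- The left action. -/
noncomputable def Qd.l : Mo Γ P → Qd D → Option (Qd D)
  | .one, q => some q
  | .zero, _ => none
  | .mor t, q => Qd.lM t q

/-- The right action. -/
noncomputable def Qd.r : Qd D → Mo Γ P → Option (Qd D)
  | q, .one => some q
  | _, .zero => none
  | q, .mor t => Qd.rM q t

theorem Qd.l_mul (s t : Mo Γ P) (q : Qd D) : Qd.l (s * t) q = (Qd.l t q).bind (Qd.l s) := by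
  cases s with
  | one =>
    change Qd.l t q = (Qd.l t q).bind some
    cases Qd.l t q <;> rfl
  | zero =>
    change none = (Qd.l t q).bind fun _ => none
    cases Qd.l t q <;> rfl
  | mor s =>
    cases t with
    | one => rfl
    | zero => rfl
    | mor t =>
      change Qd.l ((s.mulO t).elim .zero .mor) q = (Qd.lM t q).bind (Qd.lM s)
      by_cases h1 : s.b = t.a
      · rw [mulO_pos h1]
        change Qd.lM (s.comp t h1) q = _
        by_cases h2 : t.b = q.a
        · rw [Qd.lM_pos h2, Option.bind_some, Qd.lM_pos (show s.b = (Qd.lm t q h2).a from h1),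
            Qd.lM_pos (show (s.comp t h1).b = q.a from h2)]
          exact congrArg some (Qd.ext rfl (mul_smul _ _ _) (mul_assoc _ _ _) rfl)
        · rw [Qd.lM_neg h2, Option.bind_none, Qd.lM_neg (show ¬ (s.comp t h1).b = q.a from h2)]
      · rw [mulO_neg h1]
        change none = _
        by_cases h2 : t.b = q.a
        · rw [Qd.lM_pos h2, Option.bind_some, Qd.lM_neg (show ¬ s.b = (Qd.lm t q h2).a from h1)]
        · rw [Qd.lM_neg h2, Option.bind_none]

theorem Qd.r_mul (s t : Mo Γ P) (q : Qd D) : Qd.r q (s * t) = (Qd.r q s).bind fun y => Qd.r y t := by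
  cases s with
  | one => rfl
  | zero => cases t <;> rfl
  | mor s =>
    cases t with
    | one =>
      change Qd.r q (.mor s) = (Qd.r q (.mor s)).bind some
      cases Qd.r q (.mor s) <;> rfl
    | zero =>
      change none = (Qd.r q (.mor s)).bind fun _ => none
      cases Qd.r q (.mor s) <;> rfl
    | mor t =>
      change Qd.r q ((s.mulO t).elim .zero .mor) = (Qd.rM q s).bind fun y => Qd.rM y t
      by_cases h1 : s.b = t.a
      · rw [mulO_pos h1]
        change Qd.rM q (s.comp t h1) = _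
        by_cases h2 : q.b = s.a
        · rw [Qd.rM_pos h2, Option.bind_some, Qd.rM_pos (show (Qd.rm q s h2).b = t.a from h1),
            Qd.rM_pos (show q.b = (s.comp t h1).a from h2)]
          exact congrArg some (Qd.ext rfl rfl (mul_assoc _ _ _).symm rfl)
        · rw [Qd.rM_neg h2, Option.bind_none, Qd.rM_neg (show ¬ q.b = (s.comp t h1).a from h2)]
      · rw [mulO_neg h1]
        change none = _
        by_cases h2 : q.b = s.a
        · rw [Qd.rM_pos h2, Option.bind_some, Qd.rM_neg (show ¬ (Qd.rm q s h2).b = t.a from h1)]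
        · rw [Qd.rM_neg h2, Option.bind_none]

theorem Qd.lr_comm (s t : Mo Γ P) (q : Qd D) :
    (Qd.l s q).bind (fun y => Qd.r y t) = (Qd.r q t).bind (Qd.l s) := by
  cases s with
  | one =>
    change Qd.r q t = (Qd.r q t).bind some
    cases Qd.r q t <;> rfl
  | zero =>
    change none = (Qd.r q t).bind fun _ => none
    cases Qd.r q t <;> rfl
  | mor s =>
    cases t with
    | one =>
      change (Qd.l (.mor s) q).bind some = Qd.l (.mor s) q
      cases Qd.l (.mor s) q <;> rfl
    | zero =>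
      change (Qd.l (.mor s) q).bind (fun _ => none) = none
      cases Qd.l (.mor s) q <;> rfl
    | mor t =>
      change (Qd.lM s q).bind (fun y => Qd.rM y t) = (Qd.rM q t).bind (Qd.lM s)
      by_cases h1 : s.b = q.a
      · by_cases h2 : q.b = t.a
        · rw [Qd.lM_pos h1, Qd.rM_pos h2, Option.bind_some, Option.bind_some,
            Qd.rM_pos (show (Qd.lm s q h1).b = t.a from h2),
            Qd.lM_pos (show s.b = (Qd.rm q t h2).a from h1)]
          exact congrArg some (Qd.ext rfl rfl (mul_assoc _ _ _) rfl)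
        · rw [Qd.lM_pos h1, Qd.rM_neg h2, Option.bind_some, Option.bind_none,
            Qd.rM_neg (show ¬ (Qd.lm s q h1).b = t.a from h2)]
      · by_cases h2 : q.b = t.a
        · rw [Qd.lM_neg h1, Qd.rM_pos h2, Option.bind_some, Option.bind_none,
            Qd.lM_neg (show ¬ s.b = (Qd.rm q t h2).a from h1)]
        · rw [Qd.lM_neg h1, Qd.rM_neg h2, Option.bind_none, Option.bind_none]

noncomputable instance : PBi (Mo Γ P) (Qd D) where
  l := Qd.l
  r := Qd.r
  l_one _ := rfl
  l_mul := Qd.l_mul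
  r_one _ := rfl
  r_mul := Qd.r_mul
  comm := Qd.lr_comm

end

/-! ### Homomorphisms of bimodules -/

section Hom

variable {S X Y : Type} [Monoid S] [PBi S X] [PBi S Y]

/-- A map of bisets. -/
structure IsPB (S : Type) [Monoid S] [PBi S X] [PBi S Y] (φ : X → Y) : Prop where
  l : ∀ (s : S) (x : X), PBi.l s (φ x) = (PBi.l s x).map φ
  r : ∀ (s : S) (x : X), PBi.r (φ x) s = (PBi.r x s).map φ

/-- The homomorphism induced by a map. -/
noncomputable def pmap (φ : X → Y) : PM X →+ PM Y := PM.lift fun x => PM.of (φ x)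

omit [PBi S X] [PBi S Y] in
theorem pmap_of (φ : X → Y) (x : X) : pmap φ (PM.of x) = PM.of (φ x) := PM.lift_of _ x

omit [PBi S X] [PBi S Y] in
theorem pmap_ofO (φ : X → Y) (x : Option X) : pmap φ (PM.ofO x) = PM.ofO (x.map φ) := by
  cases x with
  | none => exact map_zero _
  | some x => exact pmap_of φ x

theorem isBi_pmap {φ : X → Y} (h : IsPB S φ) : IsBi (S := S) (pmap φ) := by
  constructor
  · intro s m
    rw [PM.single_smul, PM.single_smul]
    have e : (pmap φ).comp (PM.lift fun x => PM.ofO (PBi.l s x)) =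
        (PM.lift fun x => PM.ofO (PBi.l s x)).comp (pmap φ) := by
      refine PM.ext fun x => ?_
      rw [AddMonoidHom.comp_apply, AddMonoidHom.comp_apply, PM.lift_of, pmap_of, PM.lift_of, h.l,
        pmap_ofO]
    exact DFunLike.congr_fun e m
  · intro s m
    rw [PM.op_smul, PM.op_smul]
    have e : (pmap φ).comp (PM.lift fun x => PM.ofO (PBi.r x s)) =
        (PM.lift fun x => PM.ofO (PBi.r x s)).comp (pmap φ) := by
      refine PM.ext fun x => ?_
      rw [AddMonoidHom.comp_apply, AddMonoidHom.comp_apply, PM.lift_of, pmap_of, PM.lift_of, h.r,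
        pmap_ofO]
    exact DFunLike.congr_fun e m

variable {M N : Type} [AddCommGroup M] [Module (MonoidAlgebra ℤ S) M] [DistribMulAction Sᵐᵒᵖ M]
  [AddCommGroup N] [Module (MonoidAlgebra ℤ S) N] [DistribMulAction Sᵐᵒᵖ N]

theorem isBi_zero : IsBi (S := S) (0 : M →+ N) :=
  ⟨fun _ _ => by rw [AddMonoidHom.zero_apply, AddMonoidHom.zero_apply, smul_zero],
    fun _ _ => by rw [AddMonoidHom.zero_apply, AddMonoidHom.zero_apply, smul_zero]⟩

theorem isBi_add {φ ψ : M →+ N} (h : IsBi (S := S) φ) (h' : IsBi (S := S) ψ) :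
    IsBi (S := S) (φ + ψ) :=
  ⟨fun s m => by
    rw [AddMonoidHom.add_apply, AddMonoidHom.add_apply, smul_add, h.1, h'.1],
    fun s m => by
    rw [AddMonoidHom.add_apply, AddMonoidHom.add_apply, smul_add, h.2, h'.2]⟩

theorem isBi_neg {φ : M →+ N} (h : IsBi (S := S) φ) : IsBi (S := S) (-φ) :=
  ⟨fun s m => by rw [AddMonoidHom.neg_apply, AddMonoidHom.neg_apply, smul_neg, h.1],
    fun s m => by rw [AddMonoidHom.neg_apply, AddMonoidHom.neg_apply, smul_neg, h.2]⟩

theorem isBi_sum {ι : Type} (s : Finset ι) (φ : ι → (M →+ N)) (h : ∀ i ∈ s, IsBi (S := S) (φ i)) :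
    IsBi (S := S) (∑ i ∈ s, φ i) := by
  classical
  induction s using Finset.induction_on with
  | empty =>
    rw [Finset.sum_empty]
    exact isBi_zero
  | insert i s hi ih =>
    rw [Finset.sum_insert hi]
    exact isBi_add (h i (Finset.mem_insert_self _ _)) (ih fun j hj => h j (Finset.mem_insert_of_mem hj))

/-- A signed map. -/
theorem isBi_pow_smul {φ : M →+ N} (h : IsBi (S := S) φ) (n : ℕ) :
    IsBi (S := S) (((-1 : ℤ) ^ n) • φ) := by
  rcases neg_one_pow_eq_or ℤ n with e | e
  · rw [e, one_smul]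
    exact h
  · rw [e, neg_smul, one_smul]
    exact isBi_neg h

end Hom

section Map

variable {Γ P Ξ Ξ' : Type} [Group Γ] [PartialOrder P] [MulAction Γ P] [MonoAct Γ P]
  [MulAction Γ Ξ] [MulAction Γ Ξ'] {D : BT Γ P Ξ} {D' : BT Γ P Ξ'}

/-- The map induced by a map of `Γ`-sets which shrinks the intervals. -/
def Qd.map (φ : Ξ → Ξ') (hb : ∀ x, D.bot x ≤ D'.bot (φ x)) (ht : ∀ x, D'.top (φ x) ≤ D.top x)
    (q : Qd D) : Qd D' where
  a := q.a
  x := φ q.x
  g := q.g
  b := q.b
  le := q.le.trans (hb _)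
  le' := (ht _).trans q.le'

theorem Qd.isPB_map (φ : Ξ → Ξ') (hb : ∀ x, D.bot x ≤ D'.bot (φ x))
    (ht : ∀ x, D'.top (φ x) ≤ D.top x) (hφ : ∀ (g : Γ) (x : Ξ), φ (g • x) = g • φ x) :
    IsPB (Mo Γ P) (Qd.map φ hb ht) where
  l s q := by
    cases s with
    | one => rfl
    | zero => rfl
    | mor t =>
      change Qd.lM t _ = (Qd.lM t q).map _
      by_cases h : t.b = q.a
      · rw [Qd.lM_pos (show t.b = (Qd.map φ hb ht q).a from h), Qd.lM_pos h]
        exact congrArg some (Qd.ext rfl (hφ _ _).symm rfl rfl)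
      · rw [Qd.lM_neg (show ¬ t.b = (Qd.map φ hb ht q).a from h), Qd.lM_neg h]
        rfl
  r s q := by
    cases s with
    | one => rfl
    | zero => rfl
    | mor t =>
      change Qd.rM _ t = (Qd.rM q t).map _
      by_cases h : q.b = t.a
      · rw [Qd.rM_pos (show (Qd.map φ hb ht q).b = t.a from h), Qd.rM_pos h]
        rfl
      · rw [Qd.rM_neg (show ¬ (Qd.map φ hb ht q).b = t.a from h), Qd.rM_neg h]
        rfl

/-- The map to the morphisms. -/
def Qd.toTri (hbt : ∀ x, D.bot x ≤ D.top x) (q : Qd D) : Tri Γ P :=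
  ⟨q.a, q.g, q.b, q.le.trans ((hbt _).trans q.le')⟩

theorem Qd.isPB_toTri (hbt : ∀ x, D.bot x ≤ D.top x) :
    IsPB (Mo Γ P) (Qd.toTri hbt : Qd D → Tri Γ P) where
  l s q := by
    cases s with
    | one => rfl
    | zero => rfl
    | mor t =>
      change t.mulO _ = (Qd.lM t q).map _
      by_cases h : t.b = q.a
      · rw [mulO_pos (show t.b = (Qd.toTri hbt q).a from h), Qd.lM_pos h]
        rfl
      · rw [mulO_neg (show ¬ t.b = (Qd.toTri hbt q).a from h), Qd.lM_neg h]
        rfl
  r s q := by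
    cases s with
    | one => rfl
    | zero => rfl
    | mor t =>
      change Tri.mulO _ t = (Qd.rM q t).map _
      by_cases h : q.b = t.a
      · rw [mulO_pos (show (Qd.toTri hbt q).b = t.a from h), Qd.rM_pos h]
        rfl
      · rw [mulO_neg (show ¬ (Qd.toTri hbt q).b = t.a from h), Qd.rM_neg h]
        rfl

end Map

end Pool.Agent.BB
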