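import Pool.Agent.Lib.MP_8f66f0_al_BB.Xi
import Pool.Agent.Lib.MP_8f66f0_al_BB.Qd

/-! # The complex of the bounded chains (project GLn, part BB2)

`F q = PM (Qd (DX q))`: the bimodule on the quadruples `(a, ξ, g, b)` with `ξ` a bounded strict chain
with `q + 1` elements in the interval `[g • b, a]`. With the alternating sum of the faces and the
augmentation to `PM (Tri Γ P)` it is an exact complex of bimodules. -/

set_option autoImplicit false

namespace Pool.Agent.BB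

open Pool.Agent.Kuhn Pool.Agent.GLA Pool.Agent.HierR

section Lists

variable {V : Type}

/-- The boundary as the alternating sum of the faces. -/
theorem dl_eq (l : List V) (n : ℕ) (hn : l.length = n) :
    dl l = ∑ i : Fin n, ((-1 : ℤ) ^ (i : ℕ)) • (Finsupp.single (l.eraseIdx i) (1 : ℤ) : Ch V) := by
  subst hn
  induction l with
  | nil => simp [dl]
  | cons a l ih =>
    have h1 : ∑ i : Fin (a :: l).length, ((-1 : ℤ) ^ (i : ℕ)) •
        (Finsupp.single ((a :: l).eraseIdx i) (1 : ℤ) : Ch V) = Finsupp.single l 1 +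
        ∑ i : Fin l.length, ((-1 : ℤ) ^ ((i : ℕ) + 1)) •
          (Finsupp.single (a :: l.eraseIdx i) (1 : ℤ) : Ch V) := by
      refine (Fin.sum_univ_succ (n := l.length) _).trans ?_
      congr 1
      exact one_smul _ _
    rw [h1, dl, ih, map_sum, sub_eq_add_neg, ← Finset.sum_neg_distrib]
    congr 1
    refine Finset.sum_congr rfl fun i _ => ?_
    rw [map_smul, pre_single, pow_succ, mul_neg_one, neg_smul]

end Lists

section

variable (Γ P : Type) [Group Γ] [TogglePoset P] [ToggleAct Γ P]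

/-- The bounded chains with their smallest and largest elements. -/
def DX (q : ℕ) : BT Γ P (Xi P q) where
  bot := Xi.bot
  top := Xi.top
  bot_smul := Xi.bot_smul
  top_smul := Xi.top_smul

/-- The bimodules. -/
abbrev FX (q : ℕ) : Type := PM (Qd (DX Γ P q))

variable {P}

omit [Group Γ] [ToggleAct Γ P] in
theorem BCh.sub {l m : List P} (h : BCh P l) (hm : m.Sublist l) : BCh P m :=
  ⟨h.1.sublist hm, fun x hx y hy => h.2 x (hm.subset hx) y (hm.subset hy)⟩

/-- The faces. -/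
def face {q : ℕ} (i : Fin (q + 2)) (ξ : Xi P (q + 1)) : Xi P q :=
  ⟨ξ.1.eraseIdx i, BCh.sub ξ.2.1 (List.eraseIdx_sublist _ _), by
    have h1 := ξ.2.2
    have h2 := i.2
    rw [List.length_eraseIdx_of_lt (by omega)]
    omega⟩

omit [Group Γ] [ToggleAct Γ P] in
theorem bot_face {q : ℕ} (i : Fin (q + 2)) (ξ : Xi P (q + 1)) : ξ.bot ≤ (face i ξ).bot :=
  ξ.bot_le ((List.eraseIdx_sublist _ _).subset (face i ξ).bot_mem)

omit [Group Γ] [ToggleAct Γ P] in
theorem top_face {q : ℕ} (i : Fin (q + 2)) (ξ : Xi P (q + 1)) : (face i ξ).top ≤ ξ.top :=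
  ξ.le_top ((List.eraseIdx_sublist _ _).subset (face i ξ).top_mem)

variable {Γ}

theorem face_smul {q : ℕ} (i : Fin (q + 2)) (g : Γ) (ξ : Xi P (q + 1)) :
    face i (g • ξ) = g • face i ξ :=
  Subtype.ext (by
    change (ξ.1.map (g • ·)).eraseIdx i = (ξ.1.eraseIdx i).map (g • ·)
    rw [List.eraseIdx_map])

/-- The faces on the quadruples. -/
def fQ {q : ℕ} (i : Fin (q + 2)) : Qd (DX Γ P (q + 1)) → Qd (DX Γ P q) :=
  Qd.map (face i) (bot_face i) (top_face i)

variable (Γ P)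

/-- The differential. -/
noncomputable def dX (q : ℕ) : FX Γ P (q + 1) →+ FX Γ P q :=
  ∑ i : Fin (q + 2), ((-1 : ℤ) ^ (i : ℕ)) • pmap (fQ i)

theorem hbt (ξ : Xi P 0) : (DX Γ P 0).bot ξ ≤ (DX Γ P 0).top ξ := ξ.bot_le_top

/-- The augmentation. -/
noncomputable def eX : FX Γ P 0 →+ PM (Tri Γ P) := pmap (Qd.toTri (hbt Γ P))

theorem isBi_dX (q : ℕ) : IsBi (S := Mo Γ P) (dX Γ P q) := by
  refine isBi_sum _ _ fun i _ => isBi_pow_smul (isBi_pmap ?_) _
  exact Qd.isPB_map _ _ _ (face_smul i)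

theorem isBi_eX : IsBi (S := Mo Γ P) (eX Γ P) := isBi_pmap (Qd.isPB_toTri _)

variable {Γ P}

theorem dX_of {q : ℕ} (x : Qd (DX Γ P (q + 1))) :
    dX Γ P q (PM.of x) = ∑ i : Fin (q + 2), ((-1 : ℤ) ^ (i : ℕ)) • PM.of (fQ i x) := by
  unfold dX
  rw [AddMonoidHom.finsetSum_apply]
  refine Finset.sum_congr rfl fun i _ => ?_
  rw [AddMonoidHom.smul_apply, pmap_of]

theorem eX_of (x : Qd (DX Γ P 0)) : eX Γ P (PM.of x) = PM.of (Qd.toTri (hbt Γ P) x) :=
  pmap_of _ x

/-! ### The fibres -/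

open Classical in
/-- The component of the quadruples with given `a, g, b`. -/
noncomputable def pr (q : ℕ) (t : P × Γ × P) : FX Γ P q →+ Ch P :=
  PM.lift fun x => if (x.a, x.g, x.b) = t then Finsupp.single x.x.1 1 else 0

open Classical in
/-- The component of the morphisms. -/
noncomputable def prT (t : P × Γ × P) : PM (Tri Γ P) →+ Ch P :=
  PM.lift fun x => if (x.a, x.g, x.b) = t then Finsupp.single [] 1 else 0

open Classical in
/-- The quadruples with given `a, g, b`. -/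
noncomputable def inj (q : ℕ) (t : P × Γ × P) : Ch P →+ FX Γ P q :=
  (PM.lift fun l : List P => if h : (tog P).B (t.2.1 • t.2.2) t.1 (q + 1) l then
    PM.of (⟨t.1, Xi.ofB h, t.2.1, t.2.2, ((Xi.B_iff _ _ (Xi.ofB h)).1 h).1,
      ((Xi.B_iff _ _ (Xi.ofB h)).1 h).2⟩ : Qd (DX Γ P q)) else 0 : PM (List P) →+ FX Γ P q)

theorem pr_of {q : ℕ} (t : P × Γ × P) (x : Qd (DX Γ P q)) [Decidable ((x.a, x.g, x.b) = t)] :
    pr q t (PM.of x) = if (x.a, x.g, x.b) = t then Finsupp.single x.x.1 1 else 0 := by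
  unfold pr
  rw [PM.lift_of]
  congr

theorem prT_of (t : P × Γ × P) (x : Tri Γ P) [Decidable ((x.a, x.g, x.b) = t)] :
    prT t (PM.of x) = if (x.a, x.g, x.b) = t then Finsupp.single [] 1 else 0 := by
  unfold prT
  rw [PM.lift_of]
  congr

theorem inj_single {q : ℕ} (t : P × Γ × P) (l : List P) (h : (tog P).B (t.2.1 • t.2.2) t.1 (q + 1) l) :
    inj q t (Finsupp.single l 1) = PM.of (⟨t.1, Xi.ofB h, t.2.1, t.2.2,
      ((Xi.B_iff _ _ (Xi.ofB h)).1 h).1, ((Xi.B_iff _ _ (Xi.ofB h)).1 h).2⟩ : Qd (DX Γ P q)) := by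
  unfold inj
  refine Eq.trans (PM.lift_of _ l) ?_
  exact dif_pos h

theorem B_of {q : ℕ} (x : Qd (DX Γ P q)) : (tog P).B (x.g • x.b) x.a (q + 1) x.x.1 :=
  (Xi.B_iff _ _ x.x).2 ⟨x.le, x.le'⟩

theorem inj_of {q : ℕ} (x : Qd (DX Γ P q)) :
    inj q (x.a, x.g, x.b) (Finsupp.single x.x.1 1) = PM.of x :=
  inj_single (x.a, x.g, x.b) x.x.1 (B_of x)

theorem pr_mem {q : ℕ} (t : P × Γ × P) (m : FX Γ P q) :
    pr q t m ∈ Sp ((tog P).B (t.2.1 • t.2.2) t.1 (q + 1)) := by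
  classical
  refine Finsupp.induction_linear (motive := fun m : Qd (DX Γ P q) →₀ ℤ =>
    pr q t m ∈ Sp ((tog P).B (t.2.1 • t.2.2) t.1 (q + 1))) m ?_ ?_ ?_
  · exact (map_zero (pr q t)).symm ▸ zero_mem _
  · intro x y hx hy
    exact (map_add (pr q t) x y).symm ▸ add_mem hx hy
  · intro x n
    have h1 : (Finsupp.single x n : Qd (DX Γ P q) →₀ ℤ) = n • PM.of x := by
      change Finsupp.single x n = n • (Finsupp.single x (1 : ℤ))
      rw [Finsupp.smul_single, smul_eq_mul, mul_one]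
    rw [h1]
    have h2 : pr q t (n • PM.of x) = n • pr q t (PM.of x) := map_zsmul (pr q t) n _
    rw [h2, pr_of]
    refine zsmul_mem ?_ n
    by_cases h : (x.a, x.g, x.b) = t
    · rw [if_pos h]
      subst h
      exact single_mem (B_of x) 1
    · rw [if_neg h]
      exact zero_mem _

theorem pr_dX {q : ℕ} (t : P × Γ × P) (m : FX Γ P (q + 1)) :
    pr q t (dX Γ P q m) = d (pr (q + 1) t m) := by
  classical
  have h : (pr q t).comp (dX Γ P q) = (d : Ch P →ₗ[ℤ] Ch P).toAddMonoidHom.comp (pr (q + 1) t) := by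
    refine PM.ext fun x => ?_
    rw [AddMonoidHom.comp_apply, AddMonoidHom.comp_apply, dX_of, map_sum, pr_of,
      LinearMap.toAddMonoidHom_coe]
    by_cases h : (x.a, x.g, x.b) = t
    · rw [if_pos h, d_single, dl_eq x.x.1 (q + 2) x.x.2.2]
      refine Finset.sum_congr rfl fun i _ => ?_
      rw [map_zsmul, pr_of, if_pos (show ((fQ i x).a, (fQ i x).g, (fQ i x).b) = t from h)]
      rfl
    · rw [if_neg h, map_zero]
      refine Finset.sum_eq_zero fun i _ => ?_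
      rw [map_zsmul, pr_of, if_neg (show ¬ ((fQ i x).a, (fQ i x).g, (fQ i x).b) = t from h),
        smul_zero]
  exact DFunLike.congr_fun h m

theorem prT_eX (t : P × Γ × P) (m : FX Γ P 0) : prT t (eX Γ P m) = d (pr 0 t m) := by
  classical
  have h : (prT t).comp (eX Γ P) = (d : Ch P →ₗ[ℤ] Ch P).toAddMonoidHom.comp (pr 0 t) := by
    refine PM.ext fun x => ?_
    rw [AddMonoidHom.comp_apply, AddMonoidHom.comp_apply, eX_of, prT_of, pr_of,
      LinearMap.toAddMonoidHom_coe]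
    by_cases h : (x.a, x.g, x.b) = t
    · rw [if_pos h, if_pos (show ((Qd.toTri (hbt Γ P) x).a, (Qd.toTri (hbt Γ P) x).g,
        (Qd.toTri (hbt Γ P) x).b) = t from h), d_single]
      obtain ⟨a, ha⟩ := List.length_eq_one_iff.1 (show x.x.1.length = 1 from x.x.2.2)
      rw [ha]
      simp [dl]
    · rw [if_neg h, if_neg (show ¬ ((Qd.toTri (hbt Γ P) x).a, (Qd.toTri (hbt Γ P) x).g,
        (Qd.toTri (hbt Γ P) x).b) = t from h),
        map_zero]
  exact DFunLike.congr_fun h m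

theorem dX_inj {q : ℕ} (t : P × Γ × P) {z : Ch P}
    (hz : z ∈ Sp ((tog P).B (t.2.1 • t.2.2) t.1 (q + 2))) :
    dX Γ P q (inj (q + 1) t z) = inj q t (d z) := by
  refine sp_eq (φ := ((dX Γ P q).comp (inj (q + 1) t)).toIntLinearMap)
    (ψ := ((inj q t).toIntLinearMap).comp (d : Ch P →ₗ[ℤ] Ch P)) (fun l hl => ?_) hz
  change dX Γ P q (inj (q + 1) t (Finsupp.single l 1)) = inj q t (d (Finsupp.single l 1))
  rw [inj_single t l hl, dX_of, d_single, dl_eq l (q + 2) hl.2.2.2, map_sum]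
  refine Finset.sum_congr rfl fun i _ => ?_
  have h1 : (tog P).B (t.2.1 • t.2.2) t.1 (q + 1) (l.eraseIdx i) := hl.sub
    (List.eraseIdx_sublist _ _) (by
      have h1 := hl.2.2.2
      have h2 := i.2
      rw [List.length_eraseIdx_of_lt (by omega)]
      omega)
  rw [map_zsmul, inj_single t _ h1]
  rfl

theorem eX_inj (t : P × Γ × P) (ht : t.2.1 • t.2.2 ≤ t.1) {z : Ch P}
    (hz : z ∈ Sp ((tog P).B (t.2.1 • t.2.2) t.1 1)) (hd : d z = Finsupp.single [] 1) :
    eX Γ P (inj 0 t z) = PM.of ⟨t.1, t.2.1, t.2.2, ht⟩ := by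
  -- `ψ z = (coefficient of [] in d z) * of`
  let ψ : Ch P →ₗ[ℤ] PM (Tri Γ P) := (PM.lift fun l : List P => if l = [] then
    PM.of (⟨t.1, t.2.1, t.2.2, ht⟩ : Tri Γ P) else 0 : PM (List P) →+ PM (Tri Γ P)).toIntLinearMap
  have hψ : ∀ l : List P, ψ (Finsupp.single l 1) = if l = [] then
      PM.of (⟨t.1, t.2.1, t.2.2, ht⟩ : Tri Γ P) else 0 := fun l => PM.lift_of _ l
  have h1 : eX Γ P (inj 0 t z) = ψ (d z) := by
    refine sp_eq (φ := ((eX Γ P).comp (inj 0 t)).toIntLinearMap)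
      (ψ := ψ.comp (d : Ch P →ₗ[ℤ] Ch P)) (fun l hl => ?_) hz
    change eX Γ P (inj 0 t (Finsupp.single l 1)) = ψ (d (Finsupp.single l 1))
    rw [inj_single t l hl, eX_of, d_single]
    obtain ⟨a, ha⟩ := List.length_eq_one_iff.1 hl.2.2.2
    subst ha
    have h2 : dl [a] = Finsupp.single [] 1 := by simp [dl]
    rw [h2, hψ, if_pos rfl]
    rfl
  rw [h1, hd, hψ, if_pos rfl]

/-- The decomposition into fibres. -/
theorem sum_inj_pr {q : ℕ} [DecidableEq (P × Γ × P)] (m : FX Γ P q) (F : Finset (P × Γ × P))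
    (hF : ∀ x ∈ Finsupp.support (M := ℤ) m, (x.a, x.g, x.b) ∈ F) :
    ∑ t ∈ F, inj q t (pr q t m) = m := by
  classical
  have h1 : ∀ m : Qd (DX Γ P q) →₀ ℤ, m = ∑ x ∈ m.support, m x •
      (Finsupp.single x (1 : ℤ) : Qd (DX Γ P q) →₀ ℤ) := by
    intro m
    conv_lhs => rw [← Finsupp.sum_single m]
    refine Finset.sum_congr rfl fun x _ => ?_
    rw [Finsupp.smul_single, smul_eq_mul, mul_one]
  have h2 : ∀ x : Qd (DX Γ P q), (x.a, x.g, x.b) ∈ F →
      ∑ t ∈ F, inj q t (pr q t (PM.of x)) = PM.of x := by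
    intro x hx
    rw [Finset.sum_eq_single (x.a, x.g, x.b)]
    · rw [pr_of, if_pos rfl, inj_of]
    · intro t _ ht
      rw [pr_of, if_neg (fun h => ht h.symm), map_zero]
    · exact fun h => absurd hx h
  have h3 : ∀ φ : FX Γ P q →+ FX Γ P q, (∀ x ∈ Finsupp.support (M := ℤ) m, φ (PM.of x) = PM.of x) →
      φ m = m := by
    intro φ hφ
    have h4 : (∑ x ∈ Finsupp.support (M := ℤ) m, (DFunLike.coe (F := Qd (DX Γ P q) →₀ ℤ) m x •
      (PM.of x : FX Γ P q)) : FX Γ P q) = m := (h1 m).symm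
    conv_lhs => rw [← h4]
    rw [map_sum]
    conv_rhs => rw [← h4]
    refine Finset.sum_congr rfl fun x hx => ?_
    rw [map_zsmul, hφ x hx]
  have h5 := h3 (∑ t ∈ F, (inj q t).comp (pr q t)) (fun x hx => by
    rw [AddMonoidHom.finsetSum_apply]
    exact h2 x (hF x hx))
  rw [AddMonoidHom.finsetSum_apply] at h5
  exact h5

theorem exists_fin {q : ℕ} (m : FX Γ P q) : ∃ F : Finset (P × Γ × P),
    ∀ x ∈ Finsupp.support (M := ℤ) m, (x.a, x.g, x.b) ∈ F := by
  classical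
  exact ⟨(Finsupp.support (M := ℤ) m).image fun x => (x.a, x.g, x.b), fun x hx =>
    Finset.mem_image_of_mem _ hx⟩

theorem eq_zero_of_pr {q : ℕ} (m : FX Γ P q) (h : ∀ t, pr q t m = 0) : m = 0 := by
  classical
  obtain ⟨F, hF⟩ := exists_fin m
  rw [← sum_inj_pr m F hF]
  exact Finset.sum_eq_zero fun t _ => by rw [h t, map_zero]

theorem dX_dX {q : ℕ} (m : FX Γ P (q + 2)) : dX Γ P q (dX Γ P (q + 1) m) = 0 :=
  eq_zero_of_pr _ fun t => by rw [pr_dX, pr_dX, d_d]

/-- The maximal pairs `g • b ≤ a` on which the fibre is not empty. -/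
theorem pr_eq_zero_of_not {q : ℕ} (t : P × Γ × P) (ht : ¬ t.2.1 • t.2.2 ≤ t.1) (m : FX Γ P q) :
    pr q t m = 0 := by
  have h := pr_mem t m
  refine sp_eq (φ := LinearMap.id) (ψ := (0 : Ch P →ₗ[ℤ] Ch P)) (fun l hl => ?_) h
  obtain ⟨a, l', rfl⟩ : ∃ a l', l = a :: l' := by
    cases l with
    | nil =>
      have := hl.2.2.2
      simp at this
    | cons a l' => exact ⟨a, l', rfl⟩
  have h1 := hl.2.2.1 a List.mem_cons_self
  exact absurd (h1.1.trans h1.2) ht

/-- Exactness. -/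
theorem exact_dX {q : ℕ} (m : FX Γ P (q + 1)) (hm : dX Γ P q m = 0) :
    ∃ y : FX Γ P (q + 2), dX Γ P (q + 1) y = m := by
  classical
  obtain ⟨F, hF⟩ := exists_fin m
  have h1 : ∀ t : P × Γ × P, ∃ y ∈ Sp ((tog P).B (t.2.1 • t.2.2) t.1 (q + 3)),
      d y = pr (q + 1) t m := by
    intro t
    by_cases ht : t.2.1 • t.2.2 ≤ t.1
    · exact Tog.acyclic ht (pr_mem t m) (by rw [← pr_dX, hm, map_zero])
    · exact ⟨0, zero_mem _, by rw [pr_eq_zero_of_not t ht, map_zero]⟩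
  choose y hy hy' using h1
  refine ⟨∑ t ∈ F, inj (q + 2) t (y t), ?_⟩
  rw [map_sum]
  conv_rhs => rw [← sum_inj_pr m F hF]
  refine Finset.sum_congr rfl fun t _ => ?_
  rw [dX_inj t (hy t), hy']

/-- Exactness at the augmentation. -/
theorem exact_eX (m : FX Γ P 0) (hm : eX Γ P m = 0) : ∃ y : FX Γ P 1, dX Γ P 0 y = m := by
  classical
  obtain ⟨F, hF⟩ := exists_fin m
  have h1 : ∀ t : P × Γ × P, ∃ y ∈ Sp ((tog P).B (t.2.1 • t.2.2) t.1 2), d y = pr 0 t m := by
    intro t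
    by_cases ht : t.2.1 • t.2.2 ≤ t.1
    · exact Tog.acyclic ht (pr_mem t m) (by rw [← prT_eX, hm, map_zero])
    · exact ⟨0, zero_mem _, by rw [pr_eq_zero_of_not t ht, map_zero]⟩
  choose y hy hy' using h1
  refine ⟨∑ t ∈ F, inj 1 t (y t), ?_⟩
  rw [map_sum]
  conv_rhs => rw [← sum_inj_pr m F hF]
  refine Finset.sum_congr rfl fun t _ => ?_
  rw [dX_inj t (hy t), hy']

theorem prT_ne (m : PM (Tri Γ P)) (h : ∀ t, prT t m = 0) : m = 0 := by
  classical
  by_contra hm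
  obtain ⟨x, hx⟩ := Finsupp.support_nonempty_iff.2 (show (m : Tri Γ P →₀ ℤ) ≠ 0 from hm)
  have h1 : ∀ m : PM (Tri Γ P), DFunLike.coe (F := List P →₀ ℤ) (prT (x.a, x.g, x.b) m) [] =
      DFunLike.coe (F := Tri Γ P →₀ ℤ) m x := by
    intro m
    let φ : PM (Tri Γ P) →+ ℤ := (Finsupp.applyAddHom ([] : List P)).comp (prT (x.a, x.g, x.b))
    let ψ : PM (Tri Γ P) →+ ℤ := Finsupp.applyAddHom x
    have h2 : φ = ψ := by
      refine PM.ext fun y => ?_
      change DFunLike.coe (F := List P →₀ ℤ) (prT (x.a, x.g, x.b) (PM.of y)) [] =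
        (Finsupp.single y (1 : ℤ) : Tri Γ P →₀ ℤ) x
      rw [prT_of]
      by_cases h3 : (y.a, y.g, y.b) = (x.a, x.g, x.b)
      · have h4 : y = x := by
          simp only [Prod.mk.injEq] at h3
          exact Tri.ext h3.1 h3.2.1 h3.2.2
        rw [if_pos h3, h4, Finsupp.single_eq_same, Finsupp.single_eq_same]
      · have h4 : y ≠ x := fun h5 => h3 (by rw [h5])
        rw [if_neg h3, Finsupp.single_eq_of_ne' h4]
        rfl
    exact DFunLike.congr_fun h2 m
  have h2 := h1 m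
  rw [h, Finsupp.coe_zero, Pi.zero_apply] at h2
  exact (Finsupp.mem_support_iff.1 hx) h2.symm

theorem eX_dX (m : FX Γ P 1) : eX Γ P (dX Γ P 0 m) = 0 :=
  prT_ne _ fun t => by rw [prT_eX, pr_dX, d_d]

theorem surj_eX : Function.Surjective (eX Γ P) := by
  intro m
  refine Finsupp.induction_linear (motive := fun m : Tri Γ P →₀ ℤ => ∃ y, eX Γ P y = m) m ?_ ?_ ?_
  · exact ⟨0, map_zero _⟩
  · rintro x y ⟨x', hx'⟩ ⟨y', hy'⟩
    exact ⟨x' + y', by rw [map_add, hx', hy']; rfl⟩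
  · intro x n
    have h2 : ([x.a] : List P) = [x.a] := rfl
    have hb : (tog P).B (x.g • x.b) x.a 1 [x.a] := by
      refine ⟨List.pairwise_singleton _ _, ?_, ?_, rfl⟩
      · intro y hy z hz _
        rw [List.mem_singleton.1 hy, List.mem_singleton.1 hz]
        exact (tog P).bd_refl _
      · intro y hy
        rw [List.mem_singleton.1 hy]
        exact ⟨x.le, le_rfl⟩
    have h3 := eX_inj (Γ := Γ) (x.a, x.g, x.b) x.le (z := Finsupp.single [x.a] 1)
      (single_mem hb 1) (by rw [d_single]; simp [dl])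
    refine ⟨n • inj 0 (x.a, x.g, x.b) (Finsupp.single [x.a] 1), ?_⟩
    rw [map_zsmul, h3]
    change n • (Finsupp.single x (1 : ℤ) : Tri Γ P →₀ ℤ) = _
    rw [Finsupp.smul_single, smul_eq_mul, mul_one]

/-- The bimodules vanish above `bnd`. -/
theorem FX_zero {q : ℕ} (hq : TogglePoset.bnd P < q) (m : FX Γ P q) : m = 0 := by
  have : IsEmpty (Qd (DX Γ P q)) := ⟨fun x => absurd x.x.le_bnd (by omega)⟩
  exact Subsingleton.elim (α := Qd (DX Γ P q) →₀ ℤ) m 0

end

end Pool.Agent.BB
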