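import Pool.Agent.Lib.MP_8f66f0_al_BB.Out
import Pool.Agent.Lib.MP_8f66f0_al_HierR.MoN
import Pool.Agent.Lib.MP_8f66f0_al_Wald.K1Lem

/-!
# Definitions for the transfer from `L[Mo Γ P]` to label respecting matrices (project GLn, part BB)

* `hk t` = the morphism `t` minus the zero of the monoid; the `hk t` span an ideal `T` of `k[Mo Γ P]`,
  `k[Mo Γ P] = k • 1 + T + k • zero`.
* `lf x y a = ∑ a_g (x, g, y)` for `a` in `k[Γ]` (terms with `g • y ≤ x` only).
* `en x y r` = the entry in `k[Γ]` of `r` in `k[Mo Γ P]` at the objects `x`, `y`; `mF F A` the matrix of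
  the entries at the objects of the finite set `F`.
* `cor θ M = θ(M) + (1 - θ 1)`: the corner embedding of matrices along a homomorphism `θ` of rings which
  need not be unital.
-/

set_option autoImplicit false

namespace Pool.Agent.BB

open Pool.Agent.GLA Pool.Agent.Wald Pool.Agent.Ind Pool.Agent.Hier Pool.Agent.TreeC
open Pool.Agent.HierR (Mo MoN Tri Mo0 MonoAct mA)

section Corner

variable {A B : Type} [Ring A] [Ring B]

/-- The corner embedding of matrices. -/
def cor (θ : A →ₙ+* B) {n : Type} [DecidableEq n] (M : Matrix n n A) : Matrix n n B :=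
  M.map θ + Matrix.diagonal fun _ => 1 - θ 1

end Corner

section Monoid

variable (k : Type) {Γ P : Type} [CommRing k] [Group Γ] [PartialOrder P] [MulAction Γ P]

/-- The morphism `t` minus the zero element. -/
noncomputable def hk (t : Tri Γ P) : MonoidAlgebra k (Mo Γ P) :=
  MonoidAlgebra.single (.mor t) 1 - MonoidAlgebra.single .zero 1

/-- The zero element of the monoid. -/
noncomputable def zk (Γ P : Type) [Group Γ] [PartialOrder P] [MulAction Γ P] :
    MonoidAlgebra k (Mo Γ P) := MonoidAlgebra.single .zero 1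

/-- The identity morphism of `x`. -/
def idT (Γ : Type) {P : Type} [Group Γ] [PartialOrder P] [MulAction Γ P] (x : P) : Tri Γ P :=
  ⟨x, 1, x, (one_smul Γ x).le⟩

variable {k}

open Classical in
/-- `∑ a_g (x, g, y)`. -/
noncomputable def lf (x y : P) (a : MonoidAlgebra k Γ) : MonoidAlgebra k (Mo Γ P) :=
  a.coeff.sum fun g r => r • (if h : g • y ≤ x then hk k ⟨x, g, y, h⟩ else 0)

/-- `∑ a_h (x, h, x)` for `a` in the group ring of the stabiliser of `x`. -/
noncomputable def thf (x : P) (a : MonoidAlgebra k (MulAction.stabilizer Γ x)) :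
    MonoidAlgebra k (Mo Γ P) :=
  a.coeff.sum fun h r => r • hk k ⟨x, (h : Γ), x, (MulAction.mem_stabilizer_iff.1 h.2).le⟩

open Classical in
/-- The entry of an element of the monoid at the objects `x`, `y`. -/
noncomputable def en0 (k : Type) [CommRing k] (x y : P) : Mo Γ P → MonoidAlgebra k Γ
  | .one => if x = y then 1 else 0
  | .zero => 0
  | .mor t => if t.a = x ∧ t.b = y then MonoidAlgebra.single t.g 1 else 0

/-- The entry at the objects `x`, `y`. -/
noncomputable def en (x y : P) (r : MonoidAlgebra k (Mo Γ P)) : MonoidAlgebra k Γ :=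
  r.coeff.sum fun s c => c • en0 k x y s

/-- The matrix of the entries at the objects of `F`. -/
noncomputable def mF (F : Finset P) {m n : Type} (A : Matrix m n (MonoidAlgebra k (Mo Γ P))) :
    Matrix (m × F) (n × F) (MonoidAlgebra k Γ) := fun p q => en (p.2 : P) (q.2 : P) (A p.1 q.1)

/-- The objects of a monoid element lie in `F`. -/
def InF (F : Finset P) : Mo Γ P → Prop
  | .one => True
  | .zero => True
  | .mor t => t.a ∈ F ∧ t.b ∈ F

/-- The objects of the entries of the matrix `A` lie in `F`. -/
def SpF (F : Finset P) {m n : Type} (A : Matrix m n (MonoidAlgebra k (Mo Γ P))) : Prop :=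
  ∀ i j, ∀ s ∈ (A i j).coeff.support, InF F s

/-- The matrix with the coefficients of `1`. -/
noncomputable def al {m n : Type} (A : Matrix m n (MonoidAlgebra k (Mo Γ P))) : Matrix m n k :=
  fun i j => (A i j).coeff .one

end Monoid

section Kill

variable {Γ P k K : Type} [CommRing k] [Group Γ] [PartialOrder P] [MulAction Γ P] [MonoAct Γ P]
  [CommGroup K]

/-- `κ` kills the scalar matrices. -/
def KilA (κ : K1Fun (MonoidAlgebra k (Mo Γ P)) K) : Prop :=
  ∀ (n : Type) [Fintype n] [DecidableEq n] (A : Matrix n n k), IsUnit A →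
    κ.f (A.map (algebraMap k (MonoidAlgebra k (Mo Γ P)))) = 1

/-- `κ` kills the scalar matrices in the corner of the zero element. -/
def KilZ (κ : K1Fun (MonoidAlgebra k (Mo Γ P)) K) : Prop :=
  ∀ (n : Type) [Fintype n] [DecidableEq n] (A : Matrix n n k), IsUnit A →
    κ.f (A.map (fun c => c • zk k Γ P) + Matrix.diagonal fun _ => 1 - zk k Γ P) = 1

/-- `κ` kills the corners of the stabilisers. -/
def KilS (κ : K1Fun (MonoidAlgebra k (Mo Γ P)) K) : Prop :=
  ∀ (x : P) (n : Type) [Fintype n] [DecidableEq n]
    (A : Matrix n n (MonoidAlgebra k (MulAction.stabilizer Γ x))), IsUnit A →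
    κ.f (A.map (thf x) + Matrix.diagonal fun _ => 1 - hk k (idT Γ x)) = 1

end Kill

end Pool.Agent.BB
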