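import Pool.Agent.Lib.MP_8f66f0_al_BB.Phi
import Pool.Agent.Lib.MP_8f66f0_al_Ind.One

/-!
# K7, part 1: invariants of Laurent series rings (project GLn, part BB)
-/

set_option autoImplicit false

namespace Pool.Agent.BB

open Pool.Agent.GLA Pool.Agent.Wald Pool.Agent.Ind Pool.Agent.Hier Pool.Agent.TreeC
open Pool.Agent.HierR (Mo MoN Tri Mo0 MonoAct mA)

/-- The pull back of an invariant along a ring homomorphism. -/
def pull {Λ Λ' : Type} [Ring Λ] [Ring Λ'] (φ : Λ →+* Λ') {K : Type} [CommGroup K]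
    (κ : K1Fun Λ' K) : K1Fun Λ K where
  f := fun {n} _ _ A => κ.f (A.map φ)
  mul := fun {n} _ _ A B hA hB => by
    rw [Matrix.map_mul]
    exact κ.mul _ _ (hA.map φ.mapMatrix) (hB.map φ.mapMatrix)
  reindex := fun {n m} _ _ _ _ e A hA => by
    have h := κ.reindex e (A.map φ) (hA.map φ.mapMatrix)
    exact h
  tri := fun {n m} _ _ _ _ A B D hA hD => by
    rw [Matrix.fromBlocks_map, Matrix.map_zero _ (map_zero φ)]
    exact κ.tri _ _ _ (hA.map φ.mapMatrix) (hD.map φ.mapMatrix)

theorem pull_f {Λ Λ' : Type} [Ring Λ] [Ring Λ'] (φ : Λ →+* Λ') {K : Type} [CommGroup K]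
    (κ : K1Fun Λ' K) {n : Type} [Fintype n] [DecidableEq n] (A : Matrix n n Λ) :
    (pull φ κ).f A = κ.f (A.map φ) := rfl

/-- Invariants of Euclidean domains. -/
theorem euc_kill {L K : Type} [CommRing L] [IsDomain L] [CommGroup K] (hL : IsEuc L)
    (κ : K1Fun L K) (h : ∀ u : Lˣ, κ.f (Matrix.of fun _ _ : Fin 1 => (u : L)) = 1)
    {n : Type} [Fintype n] [DecidableEq n] (A : Matrix n n L) (hA : IsUnit A) : κ.f A = 1 := by
  let π : MonoidAlgebra L PUnit →+* L :=
    ((MonoidAlgebra.lift L L PUnit (1 : PUnit →* L) : MonoidAlgebra L PUnit →ₐ[L] L) :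
      MonoidAlgebra L PUnit →+* L)
  have hπ : ∀ (g : PUnit) (r : L), π (MonoidAlgebra.single g r) = r := by
    intro g r
    change MonoidAlgebra.lift L L PUnit (1 : PUnit →* L) (MonoidAlgebra.single g r) = r
    rw [MonoidAlgebra.lift_single]
    simp
  let ι : L →+* MonoidAlgebra L PUnit := MonoidAlgebra.singleOneRingHom
  have h1 := whTL_one hL PUnit K (pull π κ) (fun g u => by
    rw [pull_f]
    have e : (Matrix.of fun _ _ : Fin 1 => (MonoidAlgebra.single g (u : L))).map π =
        Matrix.of fun _ _ : Fin 1 => (u : L) := by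
      ext i j
      exact hπ g u
    rw [e]
    exact h u) n (A.map ι) (hA.map ι.mapMatrix)
  rw [pull_f] at h1
  have e : (A.map ι).map π = A := by
    ext i j
    exact hπ 1 (A i j)
  rwa [e] at h1

section Gen

variable {L A K : Type} [CommRing L] [Ring A] [CommGroup K] (α : L →+* A)
  (hα : ∀ r a, α r * a = a * α r)

/-- `f a` in the Laurent series ring. -/
noncomputable def FF (f : LaurentSeries L) (a : A) : LaurentSeries A :=
  lmap α f * HahnSeries.single 0 a

theorem FF_coeff (f : LaurentSeries L) (a : A) (i : ℤ) :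
    (FF α f a).coeff i = α (f.coeff i) * a := by
  unfold FF
  rw [HahnSeries.coeff_mul_single_zero, lmap_coeff]

include hα in
theorem FF_mul (f g : LaurentSeries L) (a b : A) :
    FF α f a * FF α g b = FF α (f * g) (a * b) := by
  have h1 : HahnSeries.single 0 a * lmap α g = lmap α g * HahnSeries.single 0 a := by
    apply HahnSeries.ext
    funext k
    rw [HahnSeries.coeff_mul_single_zero, HahnSeries.coeff_single_zero_mul, lmap_coeff, hα]
  unfold FF
  rw [mul_assoc, ← mul_assoc (HahnSeries.single 0 a), h1, mul_assoc, ← mul_assoc (lmap α f),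
    ← map_mul, HahnSeries.single_mul_single, add_zero]

theorem FF_one_left (a : A) : FF α 1 a = HahnSeries.single 0 a := by
  unfold FF
  rw [map_one, one_mul]

theorem FF_one : FF α 1 1 = 1 := by
  rw [FF_one_left]
  rfl

theorem FF_sub_right (f : LaurentSeries L) (a b : A) : FF α f (a - b) = FF α f a - FF α f b := by
  apply HahnSeries.ext
  funext i
  rw [HahnSeries.coeff_sub, FF_coeff, FF_coeff, FF_coeff, mul_sub]

/-- The corner element. -/
noncomputable def EE (q : A) (f : LaurentSeries L) (a : A) : LaurentSeries A :=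
  FF α f a + (1 - FF α 1 q)

include hα in
theorem EE_mul {q a b : A} (hq : q * q = q) (ha : a * q = a) (hb : q * b = b)
    (f g : LaurentSeries L) : EE α q f a * EE α q g b = EE α q (f * g) (a * b) := by
  unfold EE
  have e1 : FF α f a * (1 - FF α 1 q) = 0 := by
    rw [mul_sub, mul_one, FF_mul α hα, mul_one, ha, sub_self]
  have e2 : (1 - FF α 1 q) * FF α g b = 0 := by
    rw [sub_mul, one_mul, FF_mul α hα, one_mul, hb, sub_self]
  have e3 : (1 - FF α 1 q) * (1 - FF α 1 q) = 1 - FF α 1 q := by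
    rw [mul_sub, mul_one, sub_mul, one_mul, FF_mul α hα, mul_one, hq, sub_self, sub_zero]
  rw [add_mul, mul_add, mul_add, e1, e2, e3, FF_mul α hα, add_zero, zero_add]

theorem EE_one (q : A) : EE α q 1 q = 1 := by
  unfold EE
  rw [add_sub_cancel]

theorem of_mul' {Λ : Type} [Ring Λ] (a b : Λ) :
    (Matrix.of fun _ _ : Fin 1 => a) * (Matrix.of fun _ _ : Fin 1 => b) =
      Matrix.of fun _ _ : Fin 1 => a * b := by
  ext i j
  rw [Matrix.mul_apply]
  simp

theorem of_one' {Λ : Type} [Ring Λ] : (Matrix.of fun _ _ : Fin 1 => (1 : Λ)) = 1 := by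
  ext i j
  rw [Subsingleton.elim i j, Matrix.one_apply_eq]
  rfl

theorem of_unit {Λ : Type} [Ring Λ] {a b : Λ} (h : a * b = 1) (h' : b * a = 1) :
    IsUnit (Matrix.of fun _ _ : Fin 1 => a) :=
  ⟨⟨_, Matrix.of fun _ _ : Fin 1 => b, by rw [of_mul', h, of_one'],
    by rw [of_mul', h', of_one']⟩, rfl⟩

variable (κ : K1Fun (LaurentSeries A) K)

include hα in
theorem kill_pow {q : A} (hq : q * q = q)
    (h1 : κ.f (Matrix.of fun _ _ : Fin 1 => EE α q (HahnSeries.single 1 1) q) = 1) (m : ℤ) :
    κ.f (Matrix.of fun _ _ : Fin 1 => EE α q (HahnSeries.single m 1) q) = 1 := by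
  have hmul : ∀ k l : ℤ, EE α q (HahnSeries.single k 1) q * EE α q (HahnSeries.single l 1) q =
      EE α q (HahnSeries.single (k + l) 1) q := by
    intro k l
    rw [EE_mul α hα hq hq hq, hq, HahnSeries.single_mul_single, one_mul]
  have h0 : EE α q (HahnSeries.single 0 1) q = 1 := EE_one α q
  have hu : ∀ k : ℤ, IsUnit (Matrix.of fun _ _ : Fin 1 =>
      EE α q (HahnSeries.single k 1) q) := by
    intro k
    refine of_unit (b := EE α q (HahnSeries.single (-k) 1) q) ?_ ?_
    · rw [hmul, add_neg_cancel, h0]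
    · rw [hmul, neg_add_cancel, h0]
  have hadd : ∀ k l : ℤ,
      κ.f (Matrix.of fun _ _ : Fin 1 => EE α q (HahnSeries.single (k + l) 1) q) =
      κ.f (Matrix.of fun _ _ : Fin 1 => EE α q (HahnSeries.single k 1) q) *
        κ.f (Matrix.of fun _ _ : Fin 1 => EE α q (HahnSeries.single l 1) q) := by
    intro k l
    rw [← κ.mul _ _ (hu k) (hu l), of_mul', hmul]
  induction m with
  | zero =>
    rw [h0, of_one']
    exact κ.f_one
  | succ n ih => rw [hadd, ih, h1, one_mul]
  | pred n ih =>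
    have h2 := hadd (-(n : ℤ) - 1) 1
    rw [sub_add_cancel, ih, h1, mul_one] at h2
    exact h2.symm

include hα in
theorem kill_gen [IsDomain L]
    (hu : ∀ w wi : LaurentSeries A, (∀ i < 0, w.coeff i = 0) → (∀ i < 0, wi.coeff i = 0) →
        w * wi = 1 → wi * w = 1 → κ.f (Matrix.of fun _ _ : Fin 1 => w) = 1)
    {q a b : A} (hq : q * q = q) (hab : a * b = q) (hba : b * a = q) (ha : a * q = a)
    (ha' : q * a = a) (hb : b * q = b) (hb' : q * b = b)
    (h1 : κ.f (Matrix.of fun _ _ : Fin 1 => EE α q (HahnSeries.single 1 1) q) = 1)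
    (u : (LaurentSeries L)ˣ) :
    κ.f (Matrix.of fun _ _ : Fin 1 => EE α q (u : LaurentSeries L) a) = 1 := by
  set m : ℤ := (u : LaurentSeries L).order with hm
  have hu0 : (u : LaurentSeries L) ≠ 0 := u.ne_zero
  have hui0 : ((u⁻¹ : (LaurentSeries L)ˣ) : LaurentSeries L) ≠ 0 := u⁻¹.ne_zero
  have hord : ((u⁻¹ : (LaurentSeries L)ˣ) : LaurentSeries L).order = -m := by
    have h1 := HahnSeries.order_mul hu0 hui0
    rw [u.mul_inv, HahnSeries.order_one] at h1
    omega
  have hs : (HahnSeries.single m 1 : LaurentSeries L) * HahnSeries.single (-m) 1 = 1 := by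
    rw [HahnSeries.single_mul_single, add_neg_cancel, one_mul]
    rfl
  set u0 : LaurentSeries L := HahnSeries.single (-m) 1 * (u : LaurentSeries L) with hu0d
  set ui : LaurentSeries L := ((u⁻¹ : (LaurentSeries L)ˣ) : LaurentSeries L) *
    HahnSeries.single m 1 with huid
  have hprod : u0 * ui = 1 := by
    have h2 : u0 * ui = (HahnSeries.single m 1 * HahnSeries.single (-m) 1) *
        ((u : LaurentSeries L) * ((u⁻¹ : (LaurentSeries L)ˣ) : LaurentSeries L)) := by
      rw [hu0d, huid]
      ring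
    rw [h2, hs, u.mul_inv, one_mul]
  have hprod' : ui * u0 = 1 := by rw [mul_comm, hprod]
  have c0 : ∀ i < 0, u0.coeff i = 0 := by
    intro i hi
    have h2 := HahnSeries.coeff_single_mul_add (r := (1 : L))
      (x := (u : LaurentSeries L)) (a := i + m) (b := -m)
    rw [add_neg_cancel_right, one_mul] at h2
    rw [hu0d, h2, HahnSeries.coeff_eq_zero_of_lt_order (by omega)]
  have ci : ∀ i < 0, ui.coeff i = 0 := by
    intro i hi
    have h2 := HahnSeries.coeff_mul_single_add (r := (1 : L))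
      (x := ((u⁻¹ : (LaurentSeries L)ˣ) : LaurentSeries L)) (a := i - m) (b := m)
    rw [sub_add_cancel, mul_one] at h2
    rw [huid, h2, HahnSeries.coeff_eq_zero_of_lt_order (by omega)]
  have cE : ∀ (f : LaurentSeries L) (x : A), (∀ i < 0, f.coeff i = 0) →
      ∀ i < 0, (EE α q f x).coeff i = 0 := by
    intro f x hf i hi
    unfold EE
    rw [HahnSeries.coeff_add, HahnSeries.coeff_sub, FF_coeff, FF_coeff, hf i hi, map_zero,
      zero_mul, zero_add, HahnSeries.coeff_one, if_neg hi.ne, HahnSeries.coeff_one,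
      if_neg hi.ne, map_zero, zero_mul, sub_zero]
  have m1 : EE α q u0 a * EE α q ui b = 1 := by
    rw [EE_mul α hα hq ha hb', hprod, hab, EE_one]
  have m2 : EE α q ui b * EE α q u0 a = 1 := by
    rw [EE_mul α hα hq hb ha', hprod', hba, EE_one]
  have e1 := hu _ _ (cE u0 a c0) (cE ui b ci) m1 m2
  have e2 : EE α q (u : LaurentSeries L) a =
      EE α q (HahnSeries.single m 1) q * EE α q u0 a := by
    rw [EE_mul α hα hq hq ha', ha', hu0d, ← mul_assoc, hs, one_mul]
  have e3 : EE α q (HahnSeries.single m 1) q * EE α q (HahnSeries.single (-m) 1) q = 1 := by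
    rw [EE_mul α hα hq hq hq, hs, hq, EE_one]
  have e4 : EE α q (HahnSeries.single (-m) 1) q * EE α q (HahnSeries.single m 1) q = 1 := by
    rw [EE_mul α hα hq hq hq, mul_comm, hs, hq, EE_one]
  rw [e2, ← of_mul', κ.mul _ _ (of_unit e3 e4) (of_unit m1 m2), e1,
    kill_pow α hα κ hq h1, one_mul]

end Gen

end Pool.Agent.BB
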