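import Pool.Agent.Lib.MP_8f66f0_al_BB.KillA

/-!
# K7, part 2: label respecting elements over `L[X]` in `L((y))[MoN]` (project GLn, part BB)
-/

set_option autoImplicit false

namespace Pool.Agent.BB

open Pool.Agent.GLA Pool.Agent.Wald Pool.Agent.Ind Pool.Agent.Hier Pool.Agent.TreeC
open Pool.Agent.HierR (Mo MoN Tri Mo0 MonoAct mA)
open scoped Polynomial

section HkN

variable {k Γ P : Type} [CommRing k] [Group Γ] [PartialOrder P] [MulAction Γ P] [MonoAct Γ P]

/-- The morphism `t X ^ n` minus the zero of the monoid. -/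
noncomputable def hkN (k : Type) [CommRing k] (t : Tri Γ P) (n : ℕ) : MonoidAlgebra k (MoN Γ P) :=
  MonoidAlgebra.single (.mor t n) 1 - MonoidAlgebra.single .zero 1

theorem sgN_mul_sgN (s t : MoN Γ P) : (MonoidAlgebra.single s (1 : k) *
    MonoidAlgebra.single t 1 : MonoidAlgebra k (MoN Γ P)) = MonoidAlgebra.single (s * t) 1 := by
  rw [MonoidAlgebra.single_mul_single, one_mul]

theorem hkN_mul_pos {s t : Tri Γ P} (h : s.b = t.a) (n m : ℕ) :
    hkN k s n * hkN k t m = hkN k (s.comp t h) (n + m) := by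
  unfold hkN
  rw [mul_sub, sub_mul, sub_mul, sgN_mul_sgN, sgN_mul_sgN, sgN_mul_sgN, sgN_mul_sgN,
    Pool.Agent.HierR.MoN.mor_mul_mor, mulO_pos h, Pool.Agent.HierR.MoN.mul_zero',
    Pool.Agent.HierR.MoN.zero_mul', Pool.Agent.HierR.MoN.zero_mul']
  change MonoidAlgebra.single (MoN.mor (s.comp t h) (n + m)) 1 - _ - _ = _
  abel

theorem hkN_mul_neg {s t : Tri Γ P} (h : ¬ s.b = t.a) (n m : ℕ) :
    hkN k s n * hkN k t m = 0 := by
  unfold hkN
  rw [mul_sub, sub_mul, sub_mul, sgN_mul_sgN, sgN_mul_sgN, sgN_mul_sgN, sgN_mul_sgN,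
    Pool.Agent.HierR.MoN.mor_mul_mor, mulO_neg h, Pool.Agent.HierR.MoN.mul_zero',
    Pool.Agent.HierR.MoN.zero_mul', Pool.Agent.HierR.MoN.zero_mul']
  change MonoidAlgebra.single (MoN.zero) 1 - _ - _ = _
  abel

end HkN

section Pn

variable {L k Γ P : Type} [CommRing L] [CommRing k] [Group Γ] [PartialOrder P] [MulAction Γ P]
  [MonoAct Γ P] (γ : L →+* k)

/-- `∑ γ(f_n) (t X ^ n)`. -/
noncomputable def pN (t : Tri Γ P) (f : L[X]) : MonoidAlgebra k (MoN Γ P) :=
  f.sum fun n r => γ r • hkN k t n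

theorem pN_add (t : Tri Γ P) (f g : L[X]) : pN γ t (f + g) = pN γ t f + pN γ t g := by
  unfold pN
  rw [Polynomial.sum_add_index]
  · intro n
    rw [map_zero, zero_smul]
  · intro n r s
    rw [map_add, add_smul]

theorem pN_zero (t : Tri Γ P) : pN γ t (0 : L[X]) = 0 := by
  unfold pN
  rw [Polynomial.sum_zero_index]

theorem pN_mono (t : Tri Γ P) (n : ℕ) (r : L) :
    pN γ t (Polynomial.monomial n r) = γ r • hkN k t n := by
  unfold pN
  rw [Polynomial.sum_monomial_index]
  rw [map_zero, zero_smul]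

theorem pN_mul_pos {s t : Tri Γ P} (h : s.b = t.a) (f g : L[X]) :
    pN γ s f * pN γ t g = pN γ (s.comp t h) (f * g) := by
  induction f using Polynomial.induction_on' with
  | add f f' hf hf' => rw [pN_add, add_mul, hf, hf', add_mul, pN_add]
  | monomial n r =>
    induction g using Polynomial.induction_on' with
    | add g g' hg hg' => rw [pN_add, mul_add, hg, hg', mul_add, pN_add]
    | monomial m r' =>
      rw [pN_mono, pN_mono, Polynomial.monomial_mul_monomial, pN_mono, smul_mul_smul_comm,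
        hkN_mul_pos h, map_mul]

/-- The value on a group element. -/
noncomputable def lfN0 (x y : P) (g : Γ) (f : L[X]) : MonoidAlgebra k (MoN Γ P) := by
  classical exact if h : g • y ≤ x then pN γ ⟨x, g, y, h⟩ f else 0

theorem lfN0_pos {x y : P} {g : Γ} (h : g • y ≤ x) (f : L[X]) :
    lfN0 γ x y g f = pN γ ⟨x, g, y, h⟩ f := dif_pos h

theorem lfN0_add (x y : P) (g : Γ) (f f' : L[X]) :
    lfN0 γ x y g (f + f') = lfN0 γ x y g f + lfN0 γ x y g f' := by
  by_cases h : g • y ≤ x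
  · rw [lfN0_pos γ h, lfN0_pos γ h, lfN0_pos γ h, pN_add]
  · have e : ∀ f, lfN0 γ x y g f = 0 := fun f => dif_neg h
    rw [e, e, e, add_zero]

theorem lfN0_zero (x y : P) (g : Γ) : lfN0 γ x y g 0 = 0 := by
  by_cases h : g • y ≤ x
  · rw [lfN0_pos γ h, pN_zero]
  · exact dif_neg h

/-- `∑ a_g (x, g, y)` in `k[MoN]`. -/
noncomputable def lfN (x y : P) (a : MonoidAlgebra L[X] Γ) : MonoidAlgebra k (MoN Γ P) :=
  a.coeff.sum fun g f => lfN0 γ x y g f

theorem lfN_add (x y : P) (a b : MonoidAlgebra L[X] Γ) :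
    lfN γ x y (a + b) = lfN γ x y a + lfN γ x y b := by
  unfold lfN
  change Finsupp.sum (a.coeff + b.coeff) _ = _
  exact Finsupp.sum_add_index' (fun g => lfN0_zero γ x y g) fun g r r' => lfN0_add γ x y g r r'

theorem lfN_zero (x y : P) : lfN γ x y (0 : MonoidAlgebra L[X] Γ) = 0 := Finsupp.sum_zero_index

theorem lfN_single (x y : P) (g : Γ) (f : L[X]) :
    lfN γ x y (MonoidAlgebra.single g f) = lfN0 γ x y g f :=
  Finsupp.sum_single_index (lfN0_zero γ x y g)

/-- The additive map. -/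
noncomputable def lfNA (x y : P) : MonoidAlgebra L[X] Γ →+ MonoidAlgebra k (MoN Γ P) where
  toFun := lfN γ x y
  map_zero' := lfN_zero γ x y
  map_add' := lfN_add γ x y

theorem lfN_sum {ι : Type} (s : Finset ι) (f : ι → MonoidAlgebra L[X] Γ) (x y : P) :
    lfN γ x y (∑ i ∈ s, f i) = ∑ i ∈ s, lfN γ x y (f i) := map_sum (lfNA γ x y) f s

theorem lfN_mul {x y z : P} {a b : MonoidAlgebra L[X] Γ} (ha : ∀ g, a.coeff g ≠ 0 → g • y ≤ x)
    (hb : ∀ g, b.coeff g ≠ 0 → g • z ≤ y) :
    lfN γ x y a * lfN γ y z b = lfN γ x z (a * b) := by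
  refine ind_supp (p := fun g => g • y ≤ x)
    (M := fun a => lfN γ x y a * lfN γ y z b = lfN γ x z (a * b)) ?_ ?_ ?_ a ha
  · rw [lfN_zero, zero_mul, zero_mul, lfN_zero]
  · intro a a' h h'
    rw [lfN_add, add_mul, h, h', add_mul, lfN_add]
  · intro g r hg
    refine ind_supp (p := fun g => g • z ≤ y) (M := fun b => lfN γ x y (MonoidAlgebra.single g r) *
      lfN γ y z b = lfN γ x z (MonoidAlgebra.single g r * b)) ?_ ?_ ?_ b hb
    · rw [lfN_zero, mul_zero, mul_zero, lfN_zero]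
    · intro b b' h h'
      rw [lfN_add, mul_add, h, h', mul_add, lfN_add]
    · intro g' r' hg'
      have h3 : (g * g') • z ≤ x := by
        rw [mul_smul]
        exact (MonoAct.mono g hg').trans hg
      rw [lfN_single, lfN_single, MonoidAlgebra.single_mul_single, lfN_single, lfN0_pos γ hg,
        lfN0_pos γ hg', lfN0_pos γ h3, pN_mul_pos γ (show y = y from rfl)]
      rfl

end Pn

theorem s0_add {A : Type} [Ring A] (a b : A) : (HahnSeries.single 0 (a + b) : LaurentSeries A) =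
    HahnSeries.single 0 a + HahnSeries.single 0 b :=
  map_add (HahnSeries.C : A →+* LaurentSeries A) a b

theorem s0_zero {A : Type} [Ring A] : (HahnSeries.single 0 (0 : A) : LaurentSeries A) = 0 :=
  map_zero (HahnSeries.C : A →+* LaurentSeries A)

section Image

variable {L Γ P : Type} [CommRing L] [Group Γ] [PartialOrder P] [MulAction Γ P] [MonoAct Γ P]
  (Φ : MonoidAlgebra (LaurentSeries L) (MoN Γ P) →+*
    LaurentSeries (MonoidAlgebra L[X] (Mo Γ P)))
  (hΦ : ∀ (s : MoN Γ P) (f : LaurentSeries L) (i : ℤ),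
    (Φ (MonoidAlgebra.single s f)).coeff i = (Polynomial.C (f.coeff i)) • muN L s)
include hΦ

/-- The scalars of `L`. -/
noncomputable abbrev αL (L Γ P : Type) [CommRing L] [Group Γ] [PartialOrder P] [MulAction Γ P]
    [MonoAct Γ P] : L →+* MonoidAlgebra L[X] (Mo Γ P) :=
  (algebraMap L[X] (MonoidAlgebra L[X] (Mo Γ P))).comp Polynomial.C

theorem Φ_single (s : MoN Γ P) (f : LaurentSeries L) :
    Φ (MonoidAlgebra.single s f) = FF (αL L Γ P) f (muN L s) := by
  apply HahnSeries.ext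
  funext i
  rw [hΦ, FF_coeff, Algebra.smul_def]
  rfl

theorem Φ_smul (f : LaurentSeries L) (r : MonoidAlgebra (LaurentSeries L) (MoN Γ P)) :
    Φ (f • r) = lmap (αL L Γ P) f * Φ r := by
  have e : f • r = MonoidAlgebra.single 1 f * r := by
    rw [Algebra.smul_def]
    rfl
  rw [e, map_mul, Φ_single Φ hΦ]
  congr 1
  unfold FF
  have e2 : muN L (1 : MoN Γ P) = 1 := rfl
  rw [e2]
  exact mul_one _

theorem Φ_hkN (t : Tri Γ P) (n : ℕ) : Φ (hkN (LaurentSeries L) t n) =
    HahnSeries.single 0 ((Polynomial.X ^ n : L[X]) • hk L[X] t) := by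
  unfold hkN
  rw [map_sub, Φ_single Φ hΦ, Φ_single Φ hΦ, ← FF_sub_right, FF_one_left]
  congr 1
  change _ • hk L[X] t + zk L[X] Γ P - zk L[X] Γ P = _
  rw [add_sub_cancel_right]

theorem Φ_pN (t : Tri Γ P) (f : L[X]) :
    Φ (pN (HahnSeries.C : L →+* LaurentSeries L) t f) = HahnSeries.single 0 (f • hk L[X] t) := by
  induction f using Polynomial.induction_on' with
  | add f g hf hg => rw [pN_add, map_add, hf, hg, add_smul, s0_add]
  | monomial n r =>
    rw [pN_mono, Φ_smul Φ hΦ, Φ_hkN Φ hΦ]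
    apply HahnSeries.ext
    funext i
    rw [HahnSeries.coeff_mul_single_zero, lmap_coeff, HahnSeries.coeff_single]
    change (αL L Γ P) ((HahnSeries.single 0 r : LaurentSeries L).coeff i) * _ = _
    rw [HahnSeries.coeff_single]
    split_ifs with hi
    · change algebraMap L[X] _ (Polynomial.C r) * _ = _
      rw [← Algebra.smul_def, smul_smul, Polynomial.C_mul_X_pow_eq_monomial]
    · rw [map_zero, zero_mul]

theorem Φ_lfN (x y : P) (a : MonoidAlgebra L[X] Γ) :
    Φ (lfN (HahnSeries.C : L →+* LaurentSeries L) x y a) = HahnSeries.single 0 (lf x y a) := by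
  induction a using MonoidAlgebra.induction_linear with
  | zero => rw [lfN_zero, map_zero, lf_zero, map_zero]
  | add a b ha hb => rw [lfN_add, map_add, ha, hb, lf_add, s0_add]
  | single g f =>
    rw [lfN_single, lf_single]
    by_cases h : g • y ≤ x
    · rw [lfN0_pos _ h, lf0_pos h, Φ_pN Φ hΦ]
    · have e : lfN0 (HahnSeries.C : L →+* LaurentSeries L) x y g f = 0 := dif_neg h
      rw [e, lf0_neg h, map_zero, smul_zero, map_zero]

end Image

end Pool.Agent.BB
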