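import Pool.Agent.Lib.MP_8f66f0_al_BB.SpecK
import Pool.Agent.Lib.MP_8f66f0_al_BB.Alg

/-!
# K3: an invariant which kills the scalars and the stabilisers kills `GL(k[Mo0])` (project GLn, part BB)
-/

set_option autoImplicit false
set_option linter.unusedSectionVars false

namespace Pool.Agent.BB

open Pool.Agent.GLA Pool.Agent.Wald Pool.Agent.Ind Pool.Agent.Hier Pool.Agent.TreeC
open Pool.Agent.HierR (Mo MoN Tri Mo0 MonoAct mA)

namespace L0

section

variable {k Γ P : Type} [CommRing k] [Group Γ] [PartialOrder P] [MulAction Γ P] [MonoAct Γ P]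

/-- The isomorphisms with objects in `F`. -/
noncomputable def MoF (Γ : Type) {P : Type} [Group Γ] [PartialOrder P] [MulAction Γ P]
    [MonoAct Γ P] (F : Finset P) : Submonoid (Mo Γ P) where
  carrier := {s | s ∈ Mo0 Γ P ∧ InF F s}
  one_mem' := ⟨one_mem _, trivial⟩
  mul_mem' := by
    intro s t hs ht
    refine ⟨mul_mem hs.1 ht.1, ?_⟩
    cases s with
    | one => exact ht.2
    | zero => exact trivial
    | mor s =>
      cases t with
      | one => exact hs.2
      | zero => exact trivial
      | mor t =>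
        rw [Pool.Agent.HierR.Mo.mor_mul_mor]
        by_cases h : s.b = t.a
        · rw [mulO_pos h]
          exact ⟨hs.2.1, ht.2.2⟩
        · rw [mulO_neg h]
          exact trivial

theorem iso_of_mem {t : Tri Γ P} (h : Mo.mor t ∈ Mo0 Γ P) : t.a = t.g • t.b := h t rfl

/-- The element which moves the chosen point to `x`. -/
noncomputable def gm (Γ : Type) {P : Type} [Group Γ] [MulAction Γ P] (x : P) : Γ :=
  (exists_rho (Γ := Γ) x).choose

theorem gm_smul (x : P) : gm Γ x • rho Γ x = x := (exists_rho (Γ := Γ) x).choose_spec.symm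

theorem gm_inv_smul (x : P) : (gm Γ x)⁻¹ • x = rho Γ x := by
  rw [inv_smul_eq_iff]
  exact (gm_smul x).symm

open Classical in
/-- The objects of `F` in the orbit of `c`. -/
abbrev Fo (Γ : Type) {P : Type} [Group Γ] [MulAction Γ P] (F : Finset P) (c : P) : Type :=
  {x : P // x ∈ F.filter fun x => rho Γ x = c}

variable {F : Finset P} {c : P}

open Classical in
theorem Fo.mem (x : Fo Γ F c) : x.1 ∈ F := (Finset.mem_filter.1 x.2).1

open Classical in
theorem Fo.rho (x : Fo Γ F c) : BB.rho Γ x.1 = c := (Finset.mem_filter.1 x.2).2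

open Classical in
/-- An element of `Fo`. -/
def FoM (x : P) (hx : x ∈ F) (hr : BB.rho Γ x = c) : Fo Γ F c :=
  ⟨x, Finset.mem_filter.2 ⟨hx, hr⟩⟩

/-- The morphism from `c` to `x`. -/
noncomputable def ta (x : Fo Γ F c) : Tri Γ P :=
  ⟨x.1, gm Γ x.1, c, by
    have h := gm_smul (Γ := Γ) x.1
    rw [x.rho] at h
    exact h.le⟩

/-- The morphism from `x` to `c`. -/
noncomputable def tb (x : Fo Γ F c) : Tri Γ P :=
  ⟨c, (gm Γ x.1)⁻¹, x.1, by
    have h := gm_inv_smul (Γ := Γ) x.1
    rw [x.rho] at h
    exact h.le⟩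

theorem tb_ta (x : Fo Γ F c) : hk k (tb x) * hk k (ta x) = hk k (idT Γ c) := by
  rw [hk_mul_pos (show (tb x).b = (ta x).a from rfl)]
  congr 1
  exact Tri.ext rfl (inv_mul_cancel _) rfl

theorem tb_ta_ne {c' : P} (x : Fo Γ F c) (y : Fo Γ F c') (h : x.1 ≠ y.1) :
    hk k (tb x) * hk k (ta y) = 0 := hk_mul_neg h

theorem ta_idT (x : Fo Γ F c) : hk k (ta x) * hk k (idT Γ c) = hk k (ta x) := hk_mul_idT (ta x)

open Classical in
/-- The entries of the matrix of a morphism. -/
noncomputable def mu1 (k : Type) [CommRing k] (t : Tri Γ P) (x y : Fo Γ F c) :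
    MonoidAlgebra k (MulAction.stabilizer Γ c) :=
  if h : t.a = x.1 ∧ t.b = y.1 ∧ t.a = t.g • t.b then
    MonoidAlgebra.single ⟨(gm Γ x.1)⁻¹ * t.g * gm Γ y.1, by
      rw [MulAction.mem_stabilizer_iff, mul_smul, mul_smul]
      have h1 := gm_smul (Γ := Γ) y.1
      have h2 := gm_inv_smul (Γ := Γ) x.1
      rw [y.rho] at h1
      rw [x.rho] at h2
      rw [h1, ← h.2.1, ← h.2.2, h.1, h2]⟩ 1
  else 0

theorem mu1_neg {t : Tri Γ P} {x y : Fo Γ F c} (h : ¬ (t.a = x.1 ∧ t.b = y.1)) :
    mu1 k t x y = 0 := dif_neg fun h' => h ⟨h'.1, h'.2.1⟩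

open Classical in
/-- The matrix of an element of the monoid. -/
noncomputable def mu0 (k : Type) [CommRing k] (F : Finset P) (c : P) :
    Mo Γ P → Matrix (Fo Γ F c) (Fo Γ F c) (MonoidAlgebra k (MulAction.stabilizer Γ c))
  | .one => 1
  | .zero => 0
  | .mor t => fun x y => mu1 k t x y

theorem mu1_mul {s t : Tri Γ P} (hs : s.a = s.g • s.b) (ht : t.a = t.g • t.b) (hF : s.b ∈ F)
    (h : s.b = t.a) (x y : Fo Γ F c) :
    mu1 k (s.comp t h) x y = ∑ z, mu1 k s x z * mu1 k t z y := by
  by_cases hx : s.a = x.1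
  · by_cases hy : t.b = y.1
    · have hc : BB.rho Γ s.b = c := by
        rw [← x.rho, ← hx, hs, rho_smul]
      rw [Finset.sum_eq_single (FoM s.b hF hc)]
      · unfold mu1
        have hst : (s.comp t h).a = (s.comp t h).g • (s.comp t h).b := by
          change s.a = (s.g * t.g) • t.b
          rw [mul_smul, ← ht, ← h, ← hs]
        rw [dif_pos (⟨hx, hy, hst⟩ : (s.comp t h).a = x.1 ∧ (s.comp t h).b = y.1 ∧ _),
          dif_pos (⟨hx, rfl, hs⟩ : s.a = x.1 ∧ s.b = (FoM (Γ := Γ) s.b hF hc).1 ∧ _),
          dif_pos (⟨h.symm, hy, ht⟩ : t.a = (FoM (Γ := Γ) s.b hF hc).1 ∧ t.b = y.1 ∧ _),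
          MonoidAlgebra.single_mul_single, one_mul]
        congr 1
        refine Subtype.ext ?_
        change (gm Γ x.1)⁻¹ * (s.g * t.g) * gm Γ y.1 =
          (gm Γ x.1)⁻¹ * s.g * gm Γ s.b * ((gm Γ s.b)⁻¹ * t.g * gm Γ y.1)
        group
      · intro z _ hz
        rw [mu1_neg (t := s), zero_mul]
        intro h'
        exact hz (Subtype.ext h'.2.symm)
      · intro h'
        exact absurd (Finset.mem_univ _) h'
    · rw [mu1_neg (t := s.comp t h) fun h' => hy h'.2]
      refine (Finset.sum_eq_zero fun z _ => ?_).symm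
      rw [mu1_neg (t := t) fun h' => hy h'.2, mul_zero]
  · rw [mu1_neg (t := s.comp t h) fun h' => hx h'.1]
    refine (Finset.sum_eq_zero fun z _ => ?_).symm
    rw [mu1_neg (t := s) fun h' => hx h'.1, zero_mul]

open Classical in
theorem mu0_mul {s t : Mo Γ P} (hs : s ∈ MoF Γ F) (ht : t ∈ MoF Γ F) :
    mu0 k F c (s * t) = mu0 k F c s * mu0 k F c t := by
  cases s with
  | one =>
    change mu0 k F c t = 1 * mu0 k F c t
    rw [Matrix.one_mul]
  | zero =>
    change (0 : Matrix (Fo Γ F c) (Fo Γ F c) _) = 0 * mu0 k F c t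
    rw [Matrix.zero_mul]
  | mor s =>
    cases t with
    | one =>
      change mu0 k F c (.mor s) = mu0 k F c (.mor s) * 1
      rw [Matrix.mul_one]
    | zero =>
      change (0 : Matrix (Fo Γ F c) (Fo Γ F c) _) = mu0 k F c (.mor s) * 0
      rw [Matrix.mul_zero]
    | mor t =>
      rw [Pool.Agent.HierR.Mo.mor_mul_mor]
      by_cases h : s.b = t.a
      · rw [mulO_pos h]
        refine Matrix.ext fun x y => ?_
        change mu1 k (s.comp t h) x y = _
        rw [Matrix.mul_apply, mu1_mul (iso_of_mem hs.1) (iso_of_mem ht.1) hs.2.2]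
        rfl
      · rw [mulO_neg h]
        refine Matrix.ext fun x y => ?_
        rw [Matrix.mul_apply]
        refine (Finset.sum_eq_zero fun z _ => ?_).symm
        change mu1 k s x z * mu1 k t z y = 0
        by_cases h1 : s.b = z.1
        · rw [mu1_neg (t := t) fun h' => h (h1.trans h'.1.symm), mul_zero]
        · rw [mu1_neg (t := s) fun h' => h1 h'.2, zero_mul]

open Classical in
/-- The homomorphism to the matrices over the group ring of the stabiliser. -/
noncomputable def muR (k : Type) [CommRing k] (F : Finset P) (c : P) :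
    MonoidAlgebra k (MoF Γ F) →ₐ[k]
      Matrix (Fo Γ F c) (Fo Γ F c) (MonoidAlgebra k (MulAction.stabilizer Γ c)) :=
  MonoidAlgebra.lift k _ _
    { toFun := fun s => mu0 k F c s.1
      map_one' := rfl
      map_mul' := fun s t => mu0_mul s.2 t.2 }

open Classical in
theorem muR_single (s : MoF Γ F) (r : k) :
    muR k F c (MonoidAlgebra.single s r) = r • mu0 k F c s.1 := by
  unfold muR
  rw [MonoidAlgebra.lift_single]
  rfl

/-- The inclusion. -/
noncomputable def phi (k : Type) [CommRing k] (F : Finset P) :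
    MonoidAlgebra k (MoF Γ F) →ₐ[k] MonoidAlgebra k (Mo Γ P) := mA k (MoF Γ F).subtype

theorem phi_single (s : MoF Γ F) (r : k) :
    phi k F (MonoidAlgebra.single s r) = r • MonoidAlgebra.single s.1 1 := by
  unfold phi
  change (MonoidAlgebra.lift k _ _ _) _ = _
  rw [MonoidAlgebra.lift_single]
  rfl

/-- The coefficient of `1`. -/
def alM : Mo Γ P →* k where
  toFun s := match s with
    | .one => 1
    | .zero => 0
    | .mor _ => 0
  map_one' := rfl
  map_mul' s t := by
    cases s with
    | one => cases t <;> exact (one_mul _).symm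
    | zero => cases t <;> exact (zero_mul _).symm
    | mor s =>
      cases t with
      | one => exact (mul_one _).symm
      | zero => exact (mul_zero _).symm
      | mor t =>
        rw [Pool.Agent.HierR.Mo.mor_mul_mor]
        cases s.mulO t <;> exact (zero_mul _).symm

/-- The coefficient of `1` as a homomorphism. -/
noncomputable def alR (k : Type) [CommRing k] (F : Finset P) :
    MonoidAlgebra k (MoF Γ F) →ₐ[k] k :=
  MonoidAlgebra.lift k _ _ ((alM (k := k)).comp (MoF Γ F).subtype)

theorem alR_single (s : MoF Γ F) (r : k) :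
    alR k F (MonoidAlgebra.single s r) = r * alM s.1 := by
  unfold alR
  rw [MonoidAlgebra.lift_single]
  rfl

/-- The sum of the coefficients. -/
noncomputable def epR (k : Type) [CommRing k] (F : Finset P) :
    MonoidAlgebra k (MoF Γ F) →ₐ[k] k :=
  MonoidAlgebra.lift k _ _ 1

theorem epR_single (s : MoF Γ F) (r : k) : epR k F (MonoidAlgebra.single s r) = r := by
  unfold epR
  rw [MonoidAlgebra.lift_single]
  exact mul_one r

open Classical in
/-- The chosen points. -/
noncomputable def Cs (Γ : Type) {P : Type} [Group Γ] [MulAction Γ P] (F : Finset P) : Finset P :=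
  F.image (rho Γ)

/-- The projection to `F`. -/
noncomputable def EF (k Γ : Type) {P : Type} [CommRing k] [Group Γ] [PartialOrder P]
    [MulAction Γ P] [MonoAct Γ P] (F : Finset P) : MonoidAlgebra k (Mo Γ P) :=
  ∑ c ∈ Cs Γ F, ∑ x : Fo Γ F c, hk k (ta x) * hk k (tb x)

theorem dec (r : MonoidAlgebra k (MoF Γ F)) :
    phi k F r = epR k F r • zk k Γ P + alR k F r • (1 - zk k Γ P - EF k Γ F) +
      ∑ c ∈ Cs Γ F, ∑ x : Fo Γ F c, ∑ y : Fo Γ F c,
        hk k (ta x) * thf c (muR k F c r x y) * hk k (tb y) := by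
  classical
  induction r using MonoidAlgebra.induction_linear with
  | zero =>
    rw [map_zero, map_zero, map_zero, zero_smul, zero_smul, add_zero, zero_add]
    refine (Finset.sum_eq_zero fun c _ => Finset.sum_eq_zero fun x _ =>
      Finset.sum_eq_zero fun y _ => ?_).symm
    rw [map_zero, Matrix.zero_apply, thf_zero, mul_zero, zero_mul]
  | add r r' hr hr' =>
    rw [map_add, hr, hr', map_add, map_add, add_smul, add_smul]
    have e : ∀ c ∈ Cs Γ F, ∑ x : Fo Γ F c, ∑ y : Fo Γ F c,
        hk k (ta x) * thf c (muR k F c (r + r') x y) * hk k (tb y) =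
        (∑ x : Fo Γ F c, ∑ y : Fo Γ F c, hk k (ta x) * thf c (muR k F c r x y) * hk k (tb y)) +
        ∑ x : Fo Γ F c, ∑ y : Fo Γ F c,
          hk k (ta x) * thf c (muR k F c r' x y) * hk k (tb y) := by
      intro c _
      rw [← Finset.sum_add_distrib]
      refine Finset.sum_congr rfl fun x _ => ?_
      rw [← Finset.sum_add_distrib]
      refine Finset.sum_congr rfl fun y _ => ?_
      rw [map_add, Matrix.add_apply, thf_add, mul_add, add_mul]
    rw [Finset.sum_congr rfl e, Finset.sum_add_distrib]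
    abel
  | single s r =>
    rw [phi_single, epR_single, alR_single]
    have e : ∀ c ∈ Cs Γ F, ∑ x : Fo Γ F c, ∑ y : Fo Γ F c,
        hk k (ta x) * thf c (muR k F c (MonoidAlgebra.single s r) x y) * hk k (tb y) =
        r • ∑ x : Fo Γ F c, ∑ y : Fo Γ F c,
          hk k (ta x) * thf c (mu0 k F c s.1 x y) * hk k (tb y) := by
      intro c _
      rw [Finset.smul_sum]
      refine Finset.sum_congr rfl fun x _ => ?_
      rw [Finset.smul_sum]
      refine Finset.sum_congr rfl fun y _ => ?_
      rw [muR_single, Matrix.smul_apply]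
      have h1 : thf c (r • mu0 k F c s.1 x y) = r • thf c (mu0 k F c s.1 x y) := by
        have h2 : ∀ a : MonoidAlgebra k (MulAction.stabilizer Γ c), thf c (r • a) = r • thf c a := by
          intro a
          induction a using MonoidAlgebra.induction_linear with
          | zero => rw [smul_zero, thf_zero, smul_zero]
          | add a b ha hb => rw [smul_add, thf_add, ha, hb, thf_add, smul_add]
          | single g r' =>
            rw [MonoidAlgebra.smul_single, thf_single, thf_single, smul_eq_mul, mul_smul]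
        exact h2 _
      rw [h1, mul_smul_comm, smul_mul_assoc]
    rw [Finset.sum_congr rfl e, ← Finset.smul_sum, mul_smul, ← smul_add, ← smul_add]
    congr 1
    obtain ⟨s, hs⟩ := s
    cases s with
    | one =>
      change (1 : MonoidAlgebra k (Mo Γ P)) = zk k Γ P + (1 : k) • (1 - zk k Γ P - EF k Γ F) + _
      have e2 : ∑ c ∈ Cs Γ F, ∑ x : Fo Γ F c, ∑ y : Fo Γ F c,
          hk k (ta x) * thf c (mu0 k F c (Mo.one) x y) * hk k (tb y) = EF k Γ F := by
        refine Finset.sum_congr rfl fun c _ => Finset.sum_congr rfl fun x _ => ?_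
        rw [Finset.sum_eq_single x]
        · have h3 : mu0 k F c (Mo.one : Mo Γ P) x x = 1 := Matrix.one_apply_eq x
          rw [h3, thf_one, ta_idT]
        · intro y _ hy
          have h3 : mu0 k F c (Mo.one : Mo Γ P) x y = 0 := Matrix.one_apply_ne hy.symm
          rw [h3, thf_zero, mul_zero, zero_mul]
        · intro h
          exact absurd (Finset.mem_univ _) h
      rw [e2, one_smul]
      abel
    | zero =>
      change zk k Γ P = zk k Γ P + (0 : k) • (1 - zk k Γ P - EF k Γ F) + _
      have e2 : ∑ c ∈ Cs Γ F, ∑ x : Fo Γ F c, ∑ y : Fo Γ F c,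
          hk k (ta x) * thf c (mu0 k F c (Mo.zero) x y) * hk k (tb y) = 0 := by
        refine Finset.sum_eq_zero fun c _ => Finset.sum_eq_zero fun x _ =>
          Finset.sum_eq_zero fun y _ => ?_
        have h3 : mu0 k F c (Mo.zero : Mo Γ P) x y = 0 := rfl
        rw [h3, thf_zero, mul_zero, zero_mul]
      rw [e2, zero_smul, add_zero, add_zero]
    | mor t =>
      have hiso := iso_of_mem hs.1
      have hF := hs.2
      change MonoidAlgebra.single (Mo.mor t) 1 = zk k Γ P + (0 : k) • (1 - zk k Γ P - EF k Γ F) +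
        ∑ c ∈ Cs Γ F, ∑ x : Fo Γ F c, ∑ y : Fo Γ F c,
          hk k (ta x) * thf c (mu1 k t x y) * hk k (tb y)
      have hc : rho Γ t.b = rho Γ t.a := by
        rw [hiso, rho_smul]
      rw [Finset.sum_eq_single (rho Γ t.a)]
      · rw [Finset.sum_eq_single (FoM (Γ := Γ) t.a hF.1 rfl),
          Finset.sum_eq_single (FoM (Γ := Γ) t.b hF.2 hc)]
        · have h3 : mu1 k t (FoM (Γ := Γ) t.a hF.1 rfl)
              (FoM (Γ := Γ) t.b hF.2 hc) =
              MonoidAlgebra.single ⟨(gm Γ t.a)⁻¹ * t.g * gm Γ t.b, by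
                rw [MulAction.mem_stabilizer_iff, mul_smul, mul_smul]
                have h1 := gm_smul (Γ := Γ) t.b
                rw [hc] at h1
                rw [h1, ← hiso, gm_inv_smul]⟩ 1 := dif_pos ⟨rfl, rfl, hiso⟩
          rw [h3, thf_single, one_smul, zero_smul, add_zero,
            hk_mul_pos (s := ta (FoM (Γ := Γ) t.a hF.1 rfl)) rfl,
            hk_mul_pos (t := tb (FoM (Γ := Γ) t.b hF.2 hc)) rfl,
            single_mor, add_comm]
          congr 2
          refine Tri.ext rfl ?_ rfl
          change t.g = gm Γ t.a * ((gm Γ t.a)⁻¹ * t.g * gm Γ t.b) * (gm Γ t.b)⁻¹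
          group
        · intro y _ hy
          rw [mu1_neg, thf_zero, mul_zero, zero_mul]
          intro h
          exact hy (Subtype.ext h.2.symm)
        · intro h
          exact absurd (Finset.mem_univ _) h
        · intro x _ hx
          refine Finset.sum_eq_zero fun y _ => ?_
          rw [mu1_neg, thf_zero, mul_zero, zero_mul]
          intro h
          exact hx (Subtype.ext h.1.symm)
        · intro h
          exact absurd (Finset.mem_univ _) h
      · intro c _ hc'
        refine Finset.sum_eq_zero fun x _ => Finset.sum_eq_zero fun y _ => ?_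
        rw [mu1_neg, thf_zero, mul_zero, zero_mul]
        intro h
        apply hc'
        rw [h.1, x.rho]
      · intro h
        exact absurd (Finset.mem_image_of_mem _ hF.1) h

end

section Mat

variable {k Γ P : Type} [CommRing k] [Group Γ] [PartialOrder P] [MulAction Γ P] [MonoAct Γ P]
  {F : Finset P} {n : Type} [Fintype n] [DecidableEq n]

open Classical in
/-- The flattened matrix. -/
noncomputable def flat (c : P) (A : Matrix n n (MonoidAlgebra k (MoF Γ F))) :
    Matrix (n × Fo Γ F c) (n × Fo Γ F c) (MonoidAlgebra k (MulAction.stabilizer Γ c)) :=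
  fun p q => muR k F c (A p.1 q.1) p.2 q.2

open Classical in
theorem flat_mul (c : P) (A B : Matrix n n (MonoidAlgebra k (MoF Γ F))) :
    flat c (A * B) = flat c A * flat c B := by
  refine Matrix.ext fun p q => ?_
  change muR k F c ((A * B) p.1 q.1) p.2 q.2 = _
  rw [Matrix.mul_apply, Matrix.mul_apply, map_sum, Matrix.sum_apply, Fintype.sum_prod_type]
  refine Finset.sum_congr rfl fun j _ => ?_
  rw [map_mul, Matrix.mul_apply]
  rfl

open Classical in
theorem flat_one (c : P) : flat c (1 : Matrix n n (MonoidAlgebra k (MoF Γ F))) = 1 := by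
  refine Matrix.ext fun p q => ?_
  change muR k F c ((1 : Matrix n n (MonoidAlgebra k (MoF Γ F))) p.1 q.1) p.2 q.2 = _
  rw [Matrix.one_apply, Matrix.one_apply]
  by_cases h1 : p.1 = q.1
  · rw [if_pos h1, map_one, Matrix.one_apply]
    by_cases h2 : p.2 = q.2
    · rw [if_pos h2, if_pos (Prod.ext h1 h2)]
    · rw [if_neg h2, if_neg fun h => h2 (congrArg Prod.snd h)]
  · rw [if_neg h1, map_zero, Matrix.zero_apply, if_neg fun h => h1 (congrArg Prod.fst h)]

open Classical in
theorem flat_unit (c : P) {A : Matrix n n (MonoidAlgebra k (MoF Γ F))} (hA : IsUnit A) :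
    IsUnit (flat c A) := by
  obtain ⟨u, rfl⟩ := hA
  exact ⟨⟨flat c u.1, flat c u.2, by rw [← flat_mul, u.3, flat_one],
    by rw [← flat_mul, u.4, flat_one]⟩, rfl⟩

variable (k Γ n) in
/-- The row of the morphisms from `c`. -/
noncomputable def Xc (F : Finset P) (c : P) :
    Matrix n (n × Fo Γ F c) (MonoidAlgebra k (Mo Γ P)) :=
  fun i p => if i = p.1 then hk k (ta p.2) else 0

variable (k Γ n) in
/-- The column of the morphisms to `c`. -/
noncomputable def Yc (F : Finset P) (c : P) :
    Matrix (n × Fo Γ F c) n (MonoidAlgebra k (Mo Γ P)) :=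
  fun p j => if p.1 = j then hk k (tb p.2) else 0

open Classical in
/-- The corner matrix minus `1`. -/
noncomputable def Wc (c : P) (A : Matrix n n (MonoidAlgebra k (MoF Γ F))) :
    Matrix (n × Fo Γ F c) (n × Fo Γ F c) (MonoidAlgebra k (Mo Γ P)) :=
  (flat c A).map (thf c) - Matrix.diagonal fun _ => hk k (idT Γ c)

open Classical in
theorem Wc_add_one (c : P) (A : Matrix n n (MonoidAlgebra k (MoF Γ F))) :
    1 + Wc c A = (flat c A).map (thf c) + Matrix.diagonal fun _ => 1 - hk k (idT Γ c) := by
  unfold Wc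
  have e : (Matrix.diagonal fun _ => 1 - hk k (idT Γ c) :
      Matrix (n × Fo Γ F c) (n × Fo Γ F c) (MonoidAlgebra k (Mo Γ P))) =
      1 - Matrix.diagonal fun _ => hk k (idT Γ c) := by
    rw [← Matrix.diagonal_one, Matrix.diagonal_sub]
  rw [e]
  abel

theorem thf_mul_idT (c : P) (a : MonoidAlgebra k (MulAction.stabilizer Γ c)) :
    thf c a * hk k (idT Γ c) = thf c a := by
  rw [← thf_one, ← thf_mul, mul_one]

open Classical in
theorem Wc_mul (c : P) (A : Matrix n n (MonoidAlgebra k (MoF Γ F))) :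
    Wc c A * (Matrix.diagonal fun _ => hk k (idT Γ c)) = Wc c A := by
  unfold Wc
  rw [Matrix.sub_mul, Matrix.diagonal_mul_diagonal]
  congr 1
  · refine Matrix.ext fun p q => ?_
    rw [Matrix.mul_diagonal, Matrix.map_apply, thf_mul_idT]
  · congr 1
    funext _
    exact hk_idT_idem c

open Classical in
theorem Yc_mul_Xc (c : P) : Yc k Γ n F c * Xc k Γ n F c =
    (Matrix.diagonal fun _ => hk k (idT Γ c) :
      Matrix (n × Fo Γ F c) (n × Fo Γ F c) (MonoidAlgebra k (Mo Γ P))) := by
  refine Matrix.ext fun p q => ?_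
  rw [Matrix.mul_apply, Finset.sum_eq_single p.1]
  · unfold Yc Xc
    rw [if_pos rfl]
    by_cases h1 : p.1 = q.1
    · rw [if_pos h1]
      by_cases h2 : p.2 = q.2
      · have h3 : p = q := Prod.ext h1 h2
        subst h3
        rw [Matrix.diagonal_apply_eq, tb_ta]
      · rw [Matrix.diagonal_apply_ne _ fun h => h2 (congrArg Prod.snd h),
          tb_ta_ne _ _ fun h => h2 (Subtype.ext h)]
    · rw [if_neg h1, mul_zero, Matrix.diagonal_apply_ne _ fun h => h1 (congrArg Prod.fst h)]
  · intro l _ hl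
    unfold Yc
    rw [if_neg hl.symm, zero_mul]
  · intro h
    exact absurd (Finset.mem_univ _) h

open Classical in
theorem Yc_mul_Xc_ne {c c' : P} (hc : c ≠ c') :
    (Yc k Γ n F c * Xc k Γ n F c' :
      Matrix (n × Fo Γ F c) (n × Fo Γ F c') (MonoidAlgebra k (Mo Γ P))) = 0 := by
  refine Matrix.ext fun p q => ?_
  rw [Matrix.mul_apply, Matrix.zero_apply]
  refine Finset.sum_eq_zero fun l _ => ?_
  unfold Yc Xc
  by_cases h1 : p.1 = l
  · by_cases h2 : l = q.1
    · rw [if_pos h1, if_pos h2, tb_ta_ne]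
      intro h
      apply hc
      rw [← p.2.rho, ← q.2.rho, h]
    · rw [if_neg h2, mul_zero]
  · rw [if_neg h1, zero_mul]

open Classical in
/-- The part of the matrix in the orbit of `c`. -/
noncomputable def Zc (c : P) (A : Matrix n n (MonoidAlgebra k (MoF Γ F))) :
    Matrix n n (MonoidAlgebra k (Mo Γ P)) := Xc k Γ n F c * (Wc c A * Yc k Γ n F c)

open Classical in
theorem Zc_mul_ne {c c' : P} (hc : c ≠ c') (A : Matrix n n (MonoidAlgebra k (MoF Γ F))) :
    Zc c A * Zc c' A = 0 := by
  unfold Zc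
  rw [Matrix.mul_assoc, Matrix.mul_assoc, ← Matrix.mul_assoc (Yc k Γ n F c), Yc_mul_Xc_ne hc,
    Matrix.zero_mul, Matrix.mul_zero, Matrix.mul_zero]

open Classical in
theorem Zc_kill {K : Type} [CommGroup K] (κ : K1Fun (MonoidAlgebra k (Mo Γ P)) K) (hS : KilS κ)
    (c : P) {A : Matrix n n (MonoidAlgebra k (MoF Γ F))} (hA : IsUnit A) :
    IsUnit (1 + Zc c A) ∧ κ.f (1 + Zc c A) = 1 := by
  have hu : IsUnit (1 + Wc c A) := by
    rw [Wc_add_one]
    have h0 := flat_unit c hA
    have h := cor_unit (thR (Γ := Γ) k c) h0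
    have e2 : cor (thR (Γ := Γ) k c) (flat c A) =
        (flat c A).map (thf c) + Matrix.diagonal fun _ => 1 - hk k (idT Γ c) := by
      unfold cor
      congr 2
      funext _
      change 1 - thf c (1 : MonoidAlgebra k (MulAction.stabilizer Γ c)) = _
      rw [thf_one]
    rw [e2] at h
    exact h
  have hk1 : κ.f (1 + Wc c A) = 1 := by
    rw [Wc_add_one]
    exact hS c _ _ (flat_unit c hA)
  have hsw := sameK_swap (Wc c A * Yc k Γ n F c) (-Xc k Γ n F c)
  have e1 : 1 - Wc c A * Yc k Γ n F c * -Xc k Γ n F c = 1 + Wc c A := by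
    rw [Matrix.mul_neg, sub_neg_eq_add, Matrix.mul_assoc, Yc_mul_Xc, Wc_mul]
  have e2 : 1 - -Xc k Γ n F c * (Wc c A * Yc k Γ n F c) = 1 + Zc c A := by
    rw [Matrix.neg_mul, sub_neg_eq_add]
    rfl
  obtain ⟨h1, h2⟩ := hsw (by rw [e1]; exact hu)
  rw [e2] at h1
  have h3 := h2 K κ
  rw [e1, e2] at h3
  exact ⟨h1, h3.trans hk1⟩

open Classical in
theorem sum_kill {K : Type} [CommGroup K] (κ : K1Fun (MonoidAlgebra k (Mo Γ P)) K) (hS : KilS κ)
    {A : Matrix n n (MonoidAlgebra k (MoF Γ F))} (hA : IsUnit A) (C : Finset P) :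
    IsUnit (1 + ∑ c ∈ C, Zc c A) ∧ κ.f (1 + ∑ c ∈ C, Zc c A) = 1 := by
  induction C using Finset.induction_on with
  | empty =>
    rw [Finset.sum_empty, add_zero]
    exact ⟨isUnit_one, κ.f_one⟩
  | insert c C hc ih =>
    have h0 : Zc c A * ∑ c' ∈ C, Zc c' A = 0 := by
      rw [Finset.mul_sum]
      refine Finset.sum_eq_zero fun c' hc' => Zc_mul_ne (fun h => hc (by rw [h]; exact hc')) A
    have e : 1 + ∑ c' ∈ insert c C, Zc c' A = (1 + Zc c A) * (1 + ∑ c' ∈ C, Zc c' A) := by
      rw [Finset.sum_insert hc, add_mul, one_mul, mul_add, mul_one, h0, add_zero]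
      abel
    obtain ⟨h1, h2⟩ := Zc_kill κ hS c hA
    rw [e, κ.mul _ _ h1 ih.1, h2, ih.2, one_mul]
    exact ⟨h1.mul ih.1, rfl⟩

open Classical in
theorem map_phi (A : Matrix n n (MonoidAlgebra k (MoF Γ F))) (hα : A.map (alR k F) = 1)
    (hε : A.map (epR k F) = 1) : A.map (phi k F) = 1 + ∑ c ∈ Cs Γ F, Zc c A := by
  refine Matrix.ext fun i j => ?_
  have h1 := congrFun (congrFun hα i) j
  have h2 := congrFun (congrFun hε i) j
  rw [Matrix.map_apply] at h1 h2
  rw [Matrix.map_apply, dec, h1, h2, Matrix.add_apply, Matrix.sum_apply]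
  have e1 : ∀ c ∈ Cs Γ F, Zc c A i j =
      (∑ x : Fo Γ F c, ∑ y : Fo Γ F c,
        hk k (ta x) * thf c (muR k F c (A i j) x y) * hk k (tb y)) -
      (1 : Matrix n n (MonoidAlgebra k (Mo Γ P))) i j *
        ∑ x : Fo Γ F c, hk k (ta x) * hk k (tb x) := by
    intro c _
    unfold Zc
    rw [Matrix.mul_apply, Fintype.sum_prod_type, Finset.sum_eq_single i]
    · have e2 : ∀ x : Fo Γ F c, Xc k Γ n F c i (i, x) * (Wc c A * Yc k Γ n F c) (i, x) j =
          (∑ y : Fo Γ F c, hk k (ta x) * thf c (muR k F c (A i j) x y) * hk k (tb y)) -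
          (1 : Matrix n n (MonoidAlgebra k (Mo Γ P))) i j * (hk k (ta x) * hk k (tb x)) := by
        intro x
        unfold Xc
        rw [if_pos rfl, Matrix.mul_apply, Fintype.sum_prod_type, Finset.sum_eq_single j]
        · have e3 : ∀ y : Fo Γ F c, Wc c A (i, x) (j, y) * Yc k Γ n F c (j, y) j =
              thf c (muR k F c (A i j) x y) * hk k (tb y) -
              (if i = j ∧ x = y then hk k (idT Γ c) * hk k (tb y) else 0) := by
            intro y
            unfold Yc Wc
            rw [if_pos rfl, Matrix.sub_apply, Matrix.map_apply, sub_mul]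
            congr 1
            by_cases h3 : i = j ∧ x = y
            · rw [if_pos h3]
              obtain ⟨rfl, rfl⟩ := h3
              rw [Matrix.diagonal_apply_eq]
            · rw [if_neg h3, Matrix.diagonal_apply_ne, zero_mul]
              intro h
              exact h3 ⟨congrArg Prod.fst h, congrArg Prod.snd h⟩
          rw [Finset.sum_congr rfl fun y _ => e3 y, Finset.sum_sub_distrib, mul_sub,
            Finset.mul_sum]
          congr 1
          · exact Finset.sum_congr rfl fun y _ => (mul_assoc _ _ _).symm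
          · by_cases h3 : i = j
            · subst h3
              rw [Finset.sum_eq_single x]
              · rw [if_pos ⟨rfl, rfl⟩, Matrix.one_apply_eq, one_mul, ← mul_assoc, ta_idT]
              · intro y _ hy
                exact if_neg fun h => hy h.2.symm
              · intro h
                exact absurd (Finset.mem_univ _) h
            · rw [Matrix.one_apply_ne h3, zero_mul, Finset.sum_eq_zero, mul_zero]
              intro y _
              exact if_neg fun h => h3 h.1
        · intro l _ hl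
          refine Finset.sum_eq_zero fun y _ => ?_
          unfold Yc
          rw [if_neg hl, mul_zero]
        · intro h
          exact absurd (Finset.mem_univ _) h
      rw [Finset.sum_congr rfl fun x _ => e2 x, Finset.sum_sub_distrib, ← Finset.mul_sum]
    · intro l _ hl
      refine Finset.sum_eq_zero fun x _ => ?_
      unfold Xc
      rw [if_neg fun h => hl h.symm, zero_mul]
    · intro h
      exact absurd (Finset.mem_univ _) h
  rw [Finset.sum_congr rfl e1, Finset.sum_sub_distrib, ← Finset.mul_sum]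
  change _ = (1 : Matrix n n (MonoidAlgebra k (Mo Γ P))) i j + (_ - _ * EF k Γ F)
  by_cases h3 : i = j
  · subst h3
    rw [Matrix.one_apply_eq, Matrix.one_apply_eq, one_smul, one_smul, one_mul]
    abel
  · rw [Matrix.one_apply_ne h3, Matrix.one_apply_ne h3, zero_smul, zero_smul, zero_mul]
    abel

/-- The normalised case. -/
theorem kill1 {K : Type} [CommGroup K] (κ : K1Fun (MonoidAlgebra k (Mo Γ P)) K) (hS : KilS κ)
    {A : Matrix n n (MonoidAlgebra k (MoF Γ F))} (hA : IsUnit A) (hα : A.map (alR k F) = 1)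
    (hε : A.map (epR k F) = 1) : κ.f (A.map (phi k F)) = 1 := by
  rw [map_phi A hα hε]
  exact (sum_kill κ hS hA _).2

end Mat

section Fin

variable {k Γ P : Type} [CommRing k] [Group Γ] [PartialOrder P] [MulAction Γ P] [MonoAct Γ P]

open Classical in
/-- The objects of an element of the monoid. -/
noncomputable def objs : Mo Γ P → Finset P
  | .one => ∅
  | .zero => ∅
  | .mor t => {t.a, t.b}

theorem inF_of_subset {F : Finset P} {s : Mo Γ P} (h : objs s ⊆ F) : InF F s := by
  classical
  cases s with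
  | one => trivial
  | zero => trivial
  | mor t =>
    refine ⟨h ?_, h ?_⟩
    · change t.a ∈ ({t.a, t.b} : Finset P)
      exact Finset.mem_insert_self _ _
    · change t.b ∈ ({t.a, t.b} : Finset P)
      exact Finset.mem_insert_of_mem (Finset.mem_singleton_self _)

/-- The inclusion in the isomorphisms. -/
noncomputable def jF (Γ : Type) {P : Type} [Group Γ] [PartialOrder P] [MulAction Γ P] [MonoAct Γ P]
    (F : Finset P) : MoF Γ F →* Mo0 Γ P := Submonoid.inclusion fun _ hs => hs.1

theorem jF_inj {F : Finset P} : Function.Injective (jF Γ F) :=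
  Submonoid.inclusion_injective _

theorem mA_jF_single {F : Finset P} (s : MoF Γ F) (c : k) :
    mA k (jF Γ F) (MonoidAlgebra.single s c) = MonoidAlgebra.single (jF Γ F s) c := by
  change (MonoidAlgebra.lift k _ _ _) _ = _
  rw [MonoidAlgebra.lift_single]
  change c • MonoidAlgebra.single (jF Γ F s) 1 = _
  rw [MonoidAlgebra.smul_single, smul_eq_mul, mul_one]

open Classical in
theorem coeff_mA_jF {F : Finset P} (r : MonoidAlgebra k (MoF Γ F)) (s : MoF Γ F) :
    (mA k (jF Γ F) r).coeff (jF Γ F s) = r.coeff s := by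
  induction r using MonoidAlgebra.induction_linear with
  | zero => rw [map_zero]; rfl
  | add x y hx hy =>
    rw [map_add]
    change (mA k (jF Γ F) x).coeff (jF Γ F s) + (mA k (jF Γ F) y).coeff (jF Γ F s) =
      x.coeff s + y.coeff s
    rw [hx, hy]
  | single s' c =>
    rw [mA_jF_single]
    change (Finsupp.single (jF Γ F s') c) (jF Γ F s) = (Finsupp.single s' c) s
    rw [Finsupp.single_apply, Finsupp.single_apply]
    by_cases h : s' = s
    · rw [if_pos h, if_pos (congrArg _ h)]
    · rw [if_neg h, if_neg fun h' => h (jF_inj h')]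

theorem mA_jF_inj {F : Finset P} : Function.Injective (mA k (jF Γ F)) := by
  intro r r' h
  apply MonoidAlgebra.coeff_injective
  refine Finsupp.ext fun s => ?_
  rw [← coeff_mA_jF, ← coeff_mA_jF, h]

theorem exists_lift {F : Finset P} (r : MonoidAlgebra k (Mo0 Γ P))
    (hr : ∀ s, r.coeff s ≠ 0 → InF F s.1) : ∃ r', mA k (jF Γ F) r' = r := by
  refine ind_supp (p := fun s : Mo0 Γ P => InF F s.1)
    (M := fun r => ∃ r', mA k (jF Γ F) r' = r) ⟨0, map_zero _⟩ ?_ ?_ r hr
  · rintro x y ⟨x', rfl⟩ ⟨y', rfl⟩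
    exact ⟨x' + y', map_add _ _ _⟩
  · intro s c hs
    refine ⟨MonoidAlgebra.single ⟨s.1, s.2, hs⟩ c, ?_⟩
    rw [mA_jF_single]
    rfl

theorem exists_F {n : Type} [Fintype n] (A : Matrix n n (MonoidAlgebra k (Mo0 Γ P))) :
    ∃ F : Finset P, ∀ i j, ∀ s, (A i j).coeff s ≠ 0 → objs s.1 ⊆ F := by
  classical
  refine ⟨Finset.univ.biUnion fun i => Finset.univ.biUnion fun j =>
    (A i j).coeff.support.biUnion fun s => objs s.1, fun i j s hs => ?_⟩
  intro x hx
  refine Finset.mem_biUnion.2 ⟨i, Finset.mem_univ _, Finset.mem_biUnion.2 ⟨j, Finset.mem_univ _,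
    Finset.mem_biUnion.2 ⟨s, Finsupp.mem_support_iff.2 hs, hx⟩⟩⟩

theorem mA_comp {F : Finset P} (r : MonoidAlgebra k (MoF Γ F)) :
    mA k (Mo0 Γ P).subtype (mA k (jF Γ F) r) = phi k F r := by
  induction r using MonoidAlgebra.induction_linear with
  | zero => rw [map_zero, map_zero, map_zero]
  | add x y hx hy => rw [map_add, map_add, hx, hy, map_add]
  | single s c =>
    rw [mA_jF_single, phi_single]
    change (MonoidAlgebra.lift k _ _ _) _ = _
    rw [MonoidAlgebra.lift_single]
    rfl

/-- The zero element. -/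
def zF (Γ : Type) {P : Type} [Group Γ] [PartialOrder P] [MulAction Γ P] [MonoAct Γ P]
    (F : Finset P) : MoF Γ F := ⟨.zero, ⟨(by intro y h; cases h), trivial⟩⟩

theorem zF_mul {F : Finset P} : zF Γ F * zF Γ F = zF Γ F :=
  Subtype.ext (Pool.Agent.HierR.Mo.zero_mul' _)

/-- The scalars in the corner of the zero element. -/
noncomputable def thz (k Γ : Type) {P : Type} [CommRing k] [Group Γ] [PartialOrder P]
    [MulAction Γ P] [MonoAct Γ P] (F : Finset P) : k →ₙ+* MonoidAlgebra k (MoF Γ F) where
  toFun c := MonoidAlgebra.single (zF Γ F) c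
  map_mul' c c' := by
    rw [MonoidAlgebra.single_mul_single, zF_mul]
  map_zero' := MonoidAlgebra.single_zero _
  map_add' c c' := MonoidAlgebra.single_add _ _ _

end Fin

end L0

open L0

/-- K3. -/
theorem l0 : S_L0 := by
  intro k Γ P _ _ _ _ _ K _ κ hKA hKZ hKS n _ _ A hA
  classical
  obtain ⟨⟨A, B, hAB, hBA⟩, rfl⟩ := hA
  obtain ⟨F1, h1⟩ := exists_F A
  obtain ⟨F2, h2⟩ := exists_F B
  set F := F1 ∪ F2 with hF
  have l1 : ∀ i j, ∃ r', mA k (jF Γ F) r' = A i j := fun i j =>
    exists_lift _ fun s hs => inF_of_subset ((h1 i j s hs).trans Finset.subset_union_left)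
  have l2 : ∀ i j, ∃ r', mA k (jF Γ F) r' = B i j := fun i j =>
    exists_lift _ fun s hs => inF_of_subset ((h2 i j s hs).trans Finset.subset_union_right)
  choose A' hA' using l1
  choose B' hB' using l2
  have eA : (Matrix.of A').map (mA k (jF Γ F)) = A := Matrix.ext hA'
  have eB : (Matrix.of B').map (mA k (jF Γ F)) = B := Matrix.ext hB'
  set A1 : Matrix n n (MonoidAlgebra k (MoF Γ F)) := Matrix.of A' with hA1
  set B1 : Matrix n n (MonoidAlgebra k (MoF Γ F)) := Matrix.of B' with hB1
  have hinj : Function.Injective fun M : Matrix n n (MonoidAlgebra k (MoF Γ F)) =>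
      M.map (mA k (jF Γ F)) := by
    intro M N h
    refine Matrix.ext fun i j => mA_jF_inj (congrFun (congrFun h i) j)
  have h11 : (1 : Matrix n n (MonoidAlgebra k (MoF Γ F))).map (mA k (jF Γ F)) = 1 :=
    Matrix.map_one _ (map_zero _) (map_one _)
  have hAB1 : A1 * B1 = 1 := by
    apply hinj
    change (A1 * B1).map (mA k (jF Γ F)) = _
    rw [Matrix.map_mul, eA, eB, hAB]
    exact h11.symm
  have hBA1 : B1 * A1 = 1 := by
    apply hinj
    change (B1 * A1).map (mA k (jF Γ F)) = _
    rw [Matrix.map_mul, eA, eB, hBA]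
    exact h11.symm
  have huA : IsUnit A1 := ⟨⟨A1, B1, hAB1, hBA1⟩, rfl⟩
  have e0 : A.map (mA k (Mo0 Γ P).subtype) = A1.map (phi k F) := by
    rw [← eA]
    exact Matrix.ext fun i j => mA_comp _
  change κ.f (A.map (mA k (Mo0 Γ P).subtype)) = 1
  rw [e0]
  -- the scalar parts
  set a0 := A1.map (alR k F) with ha0
  set b0 := B1.map (alR k F) with hb0
  set a1 := A1.map (epR k F) with ha1
  set b1 := B1.map (epR k F) with hb1
  have q1 : a0 * b0 = 1 := by
    rw [ha0, hb0, ← Matrix.map_mul, hAB1]
    exact Matrix.map_one _ (map_zero _) (map_one _)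
  have q2 : b0 * a0 = 1 := by
    rw [ha0, hb0, ← Matrix.map_mul, hBA1]
    exact Matrix.map_one _ (map_zero _) (map_one _)
  have q3 : a1 * b1 = 1 := by
    rw [ha1, hb1, ← Matrix.map_mul, hAB1]
    exact Matrix.map_one _ (map_zero _) (map_one _)
  have q4 : b1 * a1 = 1 := by
    rw [ha1, hb1, ← Matrix.map_mul, hBA1]
    exact Matrix.map_one _ (map_zero _) (map_one _)
  have ub0 : IsUnit b0 := ⟨⟨b0, a0, q2, q1⟩, rfl⟩
  have uab : IsUnit (a0 * b1) := by
    have x1 : IsUnit a0 := ⟨⟨a0, b0, q1, q2⟩, rfl⟩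
    have x2 : IsUnit b1 := ⟨⟨b1, a1, q4, q3⟩, rfl⟩
    exact x1.mul x2
  set C1 : Matrix n n (MonoidAlgebra k (MoF Γ F)) :=
    b0.map (algebraMap k (MonoidAlgebra k (MoF Γ F))) with hC1
  have uC : IsUnit C1 := ub0.map (algebraMap k (MonoidAlgebra k (MoF Γ F))).mapMatrix
  set D1 : Matrix n n (MonoidAlgebra k (MoF Γ F)) := cor (thz k Γ F) (a0 * b1) with hD1
  have uD : IsUnit D1 := cor_unit _ uab
  have cα : C1.map (alR k F) = b0 := by
    refine Matrix.ext fun i j => ?_
    rw [hC1, Matrix.map_apply, Matrix.map_apply]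
    exact (alR k F).commutes _
  have cε : C1.map (epR k F) = b0 := by
    refine Matrix.ext fun i j => ?_
    rw [hC1, Matrix.map_apply, Matrix.map_apply]
    exact (epR k F).commutes _
  have zα : ∀ c, alR k F (thz k Γ F c) = 0 := by
    intro c
    change alR k F (MonoidAlgebra.single (zF Γ F) c) = 0
    rw [alR_single]
    change c * (0 : k) = 0
    exact mul_zero c
  have zε : ∀ c, epR k F (thz k Γ F c) = c := by
    intro c
    change epR k F (MonoidAlgebra.single (zF Γ F) c) = c
    rw [epR_single]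
  have dα : D1.map (alR k F) = 1 := by
    refine Matrix.ext fun i j => ?_
    rw [hD1, Matrix.map_apply]
    unfold cor
    rw [Matrix.add_apply, Matrix.map_apply, map_add, zα, zero_add]
    by_cases h : i = j
    · subst h
      rw [Matrix.diagonal_apply_eq, map_sub, map_one, zα, sub_zero, Matrix.one_apply_eq]
    · rw [Matrix.diagonal_apply_ne _ h, map_zero, Matrix.one_apply_ne h]
  have dε : D1.map (epR k F) = a0 * b1 := by
    refine Matrix.ext fun i j => ?_
    rw [hD1, Matrix.map_apply]
    unfold cor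
    rw [Matrix.add_apply, Matrix.map_apply, map_add, zε]
    by_cases h : i = j
    · subst h
      rw [Matrix.diagonal_apply_eq, map_sub, map_one, zε, sub_self, add_zero]
    · rw [Matrix.diagonal_apply_ne _ h, map_zero, add_zero]
  have hfin : κ.f ((A1 * C1 * D1).map (phi k F)) = 1 := by
    refine kill1 κ hKS ((huA.mul uC).mul uD) ?_ ?_
    · rw [Matrix.map_mul, Matrix.map_mul, cα, dα, Matrix.mul_one]
      exact q1
    · rw [Matrix.map_mul, Matrix.map_mul, cε, dε]
      calc a1 * b0 * (a0 * b1) = a1 * (b0 * a0) * b1 := by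
            rw [Matrix.mul_assoc, Matrix.mul_assoc, Matrix.mul_assoc]
        _ = 1 := by rw [q2, Matrix.mul_one, q3]
  have hC : κ.f (C1.map (phi k F)) = 1 := by
    have e : C1.map (phi k F) = b0.map (algebraMap k (MonoidAlgebra k (Mo Γ P))) := by
      refine Matrix.ext fun i j => ?_
      rw [hC1, Matrix.map_apply, Matrix.map_apply, Matrix.map_apply]
      exact (phi k F).commutes _
    rw [e]
    exact hKA n b0 ub0
  have hD : κ.f (D1.map (phi k F)) = 1 := by
    have zφ : ∀ c, phi k F (thz k Γ F c) = c • zk k Γ P := by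
      intro c
      change phi k F (MonoidAlgebra.single (zF Γ F) c) = _
      rw [phi_single]
      rfl
    have e : D1.map (phi k F) = (a0 * b1).map (fun c => c • zk k Γ P) +
        Matrix.diagonal fun _ => 1 - zk k Γ P := by
      refine Matrix.ext fun i j => ?_
      rw [hD1, Matrix.map_apply]
      unfold cor
      rw [Matrix.add_apply, Matrix.add_apply, Matrix.map_apply, Matrix.map_apply, map_add, zφ]
      congr 1
      by_cases h : i = j
      · subst h
        rw [Matrix.diagonal_apply_eq, Matrix.diagonal_apply_eq, map_sub, map_one, zφ, one_smul]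
      · rw [Matrix.diagonal_apply_ne _ h, Matrix.diagonal_apply_ne _ h, map_zero]
    rw [e]
    exact hKZ n _ uab
  have um : ∀ M : Matrix n n (MonoidAlgebra k (MoF Γ F)), IsUnit M →
      IsUnit (M.map (phi k F)) := fun M hM => hM.map (phi k F).toRingHom.mapMatrix
  have hm := κ.mul ((A1 * C1).map (phi k F)) (D1.map (phi k F)) (um _ (huA.mul uC)) (um _ uD)
  have hm2 := κ.mul (A1.map (phi k F)) (C1.map (phi k F)) (um _ huA) (um _ uC)
  rw [Matrix.map_mul, hm, hD, mul_one, Matrix.map_mul, hm2, hC, mul_one] at hfin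
  exact hfin

end Pool.Agent.BB
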