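import Pool.Agent.Lib.MP_8f66f0_al_BB.SpecK
import Pool.Agent.Lib.MP_8f66f0_al_BB.Alg

/-! # The matrices of entries are multiplicative (project GLn, part BB, K1) -/

set_option autoImplicit false

namespace Pool.Agent.BB

open Pool.Agent.GLA Pool.Agent.Wald Pool.Agent.Ind Pool.Agent.Hier Pool.Agent.TreeC
open Pool.Agent.HierR (Mo MoN Tri Mo0 MonoAct mA)

section En

variable {k Γ P : Type} [CommRing k] [Group Γ] [PartialOrder P] [MulAction Γ P]

theorem en_zero (x y : P) : en x y (0 : MonoidAlgebra k (Mo Γ P)) = 0 := by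
  unfold en
  exact Finsupp.sum_zero_index

theorem en_add (x y : P) (a b : MonoidAlgebra k (Mo Γ P)) :
    en x y (a + b) = en x y a + en x y b := by
  unfold en
  change Finsupp.sum (a.coeff + b.coeff) _ = _
  exact Finsupp.sum_add_index' (fun g => zero_smul _ _) fun g r r' => add_smul _ _ _

theorem en_single (x y : P) (s : Mo Γ P) (c : k) :
    en x y (MonoidAlgebra.single s c) = c • en0 k x y s := by
  unfold en
  exact Finsupp.sum_single_index (zero_smul _ _)

theorem en_smul (x y : P) (c : k) (a : MonoidAlgebra k (Mo Γ P)) :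
    en x y (c • a) = c • en x y a := by
  induction a using MonoidAlgebra.induction_linear with
  | zero => rw [smul_zero, en_zero, smul_zero]
  | add a b ha hb => rw [smul_add, en_add, ha, hb, en_add, smul_add]
  | single g r => rw [MonoidAlgebra.smul_single, en_single, en_single, smul_eq_mul, mul_smul]

/-- The entry as an additive map. -/
noncomputable def enA (x y : P) : MonoidAlgebra k (Mo Γ P) →+ MonoidAlgebra k Γ where
  toFun := en x y
  map_zero' := en_zero x y
  map_add' := en_add x y

theorem en_neg (x y : P) (a : MonoidAlgebra k (Mo Γ P)) : en x y (-a) = -en x y a :=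
  map_neg (enA x y) a

theorem en_sub (x y : P) (a b : MonoidAlgebra k (Mo Γ P)) :
    en x y (a - b) = en x y a - en x y b := map_sub (enA x y) a b

theorem en_sum {ι : Type} (s : Finset ι) (f : ι → MonoidAlgebra k (Mo Γ P)) (x y : P) :
    en x y (∑ i ∈ s, f i) = ∑ i ∈ s, en x y (f i) := map_sum (enA x y) f s

theorem en0_one_eq (x : P) : en0 k x x (.one : Mo Γ P) = 1 := if_pos rfl

theorem en0_one_ne {x y : P} (h : x ≠ y) : en0 k x y (.one : Mo Γ P) = 0 := if_neg h

theorem en0_zero (x y : P) : en0 k x y (.zero : Mo Γ P) = 0 := rfl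

theorem en0_mor_eq (t : Tri Γ P) : en0 k t.a t.b (.mor t) = MonoidAlgebra.single t.g 1 :=
  if_pos ⟨rfl, rfl⟩

theorem en0_mor_pos {t : Tri Γ P} {x y : P} (h : t.a = x) (h' : t.b = y) :
    en0 k x y (.mor t) = MonoidAlgebra.single t.g 1 := if_pos ⟨h, h'⟩

theorem en0_mor_ne {t : Tri Γ P} {x y : P} (h : t.a ≠ x) : en0 k x y (.mor t) = 0 :=
  if_neg fun h1 => h h1.1

theorem en0_mor_ne' {t : Tri Γ P} {x y : P} (h : t.b ≠ y) : en0 k x y (.mor t) = 0 :=
  if_neg fun h1 => h h1.2

end En

section Mul

variable {k Γ P : Type} [CommRing k] [Group Γ] [PartialOrder P] [MulAction Γ P] [MonoAct Γ P]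

theorem en_one (x y : P) [Decidable (x = y)] :
    en x y (1 : MonoidAlgebra k (Mo Γ P)) = if x = y then 1 else 0 := by
  rw [MonoidAlgebra.one_def, en_single, one_smul]
  by_cases h : x = y
  · rw [if_pos h]
    subst h
    exact en0_one_eq x
  · rw [if_neg h]
    exact en0_one_ne h

theorem en0_mor_mul (x y : P) (t t' : Tri Γ P) : en0 k x y (.mor t * .mor t') =
    en0 k x t.b (.mor t) * en0 k t.b y (.mor t') := by
  rw [Pool.Agent.HierR.Mo.mor_mul_mor]
  by_cases h : t.b = t'.a
  · rw [mulO_pos h]
    change en0 k x y (.mor (t.comp t' h)) = _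
    by_cases h1 : t.a = x
    · by_cases h2 : t'.b = y
      · rw [en0_mor_pos h1 rfl, en0_mor_pos h.symm h2, en0_mor_pos (t := t.comp t' h) h1 h2,
          MonoidAlgebra.single_mul_single, one_mul]
        rfl
      · rw [en0_mor_ne' h2, mul_zero, en0_mor_ne' (t := t.comp t' h) h2]
    · rw [en0_mor_ne h1, zero_mul, en0_mor_ne (t := t.comp t' h) h1]
  · rw [mulO_neg h, en0_mor_ne (fun h1 => h h1.symm), mul_zero]
    rfl

/-- The entries of a product of monoid elements, the first one with objects in `F`. -/
theorem en0_mul_left (F : Finset P) {x y : P} (hx : x ∈ F) (s s' : Mo Γ P) (hs : InF F s) :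
    en0 k x y (s * s') = ∑ z : F, en0 k x (z : P) s * en0 k (z : P) y s' := by
  cases s with
  | one =>
    rw [Finset.sum_eq_single (⟨x, hx⟩ : F)]
    · rw [en0_one_eq, one_mul]
      rfl
    · intro z _ hz
      rw [en0_one_ne (fun h => hz (Subtype.ext h.symm)), zero_mul]
    · exact fun h => absurd (Finset.mem_univ _) h
  | zero =>
    rw [Pool.Agent.HierR.Mo.zero_mul']
    refine (Finset.sum_eq_zero fun z _ => ?_).symm
    rw [en0_zero, zero_mul]
  | mor t =>
    rw [Finset.sum_eq_single (⟨t.b, hs.2⟩ : F)]
    · cases s' with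
      | one =>
        change en0 k x y (.mor t) = en0 k x t.b (.mor t) * en0 k t.b y .one
        by_cases h : t.b = y
        · subst h
          rw [en0_one_eq, mul_one]
        · rw [en0_one_ne h, mul_zero, en0_mor_ne' h]
      | zero =>
        rw [Pool.Agent.HierR.Mo.mul_zero', en0_zero, en0_zero, mul_zero]
      | mor t' => exact en0_mor_mul x y t t'
    · intro z _ hz
      rw [en0_mor_ne' (fun h => hz (Subtype.ext h.symm)), zero_mul]
    · exact fun h => absurd (Finset.mem_univ _) h

/-- The entries of a product of monoid elements, the second one with objects in `F`. -/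
theorem en0_mul_right (F : Finset P) {x y : P} (hy : y ∈ F) (s s' : Mo Γ P) (hs : InF F s') :
    en0 k x y (s * s') = ∑ z : F, en0 k x (z : P) s * en0 k (z : P) y s' := by
  cases s' with
  | one =>
    rw [Finset.sum_eq_single (⟨y, hy⟩ : F)]
    · rw [en0_one_eq, mul_one]
      exact congrArg _ (mul_one s)
    · intro z _ hz
      rw [en0_one_ne (fun h => hz (Subtype.ext h)), mul_zero]
    · exact fun h => absurd (Finset.mem_univ _) h
  | zero =>
    rw [Pool.Agent.HierR.Mo.mul_zero']
    refine (Finset.sum_eq_zero fun z _ => ?_).symm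
    rw [en0_zero, mul_zero]
  | mor t' =>
    rw [Finset.sum_eq_single (⟨t'.a, hs.1⟩ : F)]
    · cases s with
      | one =>
        change en0 k x y (.mor t') = en0 k x t'.a .one * en0 k t'.a y (.mor t')
        by_cases h : x = t'.a
        · subst h
          rw [en0_one_eq, one_mul]
        · rw [en0_one_ne h, zero_mul, en0_mor_ne (fun h1 => h h1.symm)]
      | zero =>
        rw [Pool.Agent.HierR.Mo.zero_mul', en0_zero, en0_zero, zero_mul]
      | mor t =>
        rw [en0_mor_mul]
        change _ = en0 k x t'.a (.mor t) * en0 k t'.a y (.mor t')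
        by_cases h : t.b = t'.a
        · rw [h]
        · rw [en0_mor_ne (fun h1 => h h1.symm), mul_zero, en0_mor_ne' h, zero_mul]
    · intro z _ hz
      rw [en0_mor_ne (fun h => hz (Subtype.ext h.symm)), mul_zero]
    · exact fun h => absurd (Finset.mem_univ _) h

theorem en_mul_single (F : Finset P) {x y : P} (s s' : Mo Γ P) (c c' : k)
    (h : en0 k x y (s * s') = ∑ z : F, en0 k x (z : P) s * en0 k (z : P) y s') :
    en x y (MonoidAlgebra.single s c * MonoidAlgebra.single s' c') =
      ∑ z : F, en x (z : P) (MonoidAlgebra.single s c) * en (z : P) y (MonoidAlgebra.single s' c') := by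
  rw [MonoidAlgebra.single_mul_single, en_single, h, Finset.smul_sum]
  refine Finset.sum_congr rfl fun z _ => ?_
  rw [en_single, en_single, smul_mul_smul_comm]

theorem en_mul_left (F : Finset P) {x y : P} (hx : x ∈ F) (r r' : MonoidAlgebra k (Mo Γ P))
    (hr : ∀ s ∈ r.coeff.support, InF F s) :
    en x y (r * r') = ∑ z : F, en x (z : P) r * en (z : P) y r' := by
  refine ind_supp (p := InF F) (M := fun r => en x y (r * r') =
    ∑ z : F, en x (z : P) r * en (z : P) y r') ?_ ?_ ?_ r
    (fun s hs => hr s (Finsupp.mem_support_iff.2 hs))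
  · rw [zero_mul, en_zero]
    refine (Finset.sum_eq_zero fun z _ => ?_).symm
    rw [en_zero, zero_mul]
  · intro a b ha hb
    rw [add_mul, en_add, ha, hb, ← Finset.sum_add_distrib]
    refine Finset.sum_congr rfl fun z _ => ?_
    rw [en_add, add_mul]
  · intro s c hs
    induction r' using MonoidAlgebra.induction_linear with
    | zero =>
      rw [mul_zero, en_zero]
      refine (Finset.sum_eq_zero fun z _ => ?_).symm
      rw [en_zero, mul_zero]
    | add a b ha hb =>
      rw [mul_add, en_add, ha, hb, ← Finset.sum_add_distrib]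
      refine Finset.sum_congr rfl fun z _ => ?_
      rw [en_add, mul_add]
    | single s' c' => exact en_mul_single F s s' c c' (en0_mul_left F hx s s' hs)

theorem en_mul_right (F : Finset P) {x y : P} (hy : y ∈ F) (r r' : MonoidAlgebra k (Mo Γ P))
    (hr : ∀ s ∈ r'.coeff.support, InF F s) :
    en x y (r * r') = ∑ z : F, en x (z : P) r * en (z : P) y r' := by
  refine ind_supp (p := InF F) (M := fun r' => en x y (r * r') =
    ∑ z : F, en x (z : P) r * en (z : P) y r') ?_ ?_ ?_ r'
    (fun s hs => hr s (Finsupp.mem_support_iff.2 hs))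
  · rw [mul_zero, en_zero]
    refine (Finset.sum_eq_zero fun z _ => ?_).symm
    rw [en_zero, mul_zero]
  · intro a b ha hb
    rw [mul_add, en_add, ha, hb, ← Finset.sum_add_distrib]
    refine Finset.sum_congr rfl fun z _ => ?_
    rw [en_add, mul_add]
  · intro s' c' hs
    induction r using MonoidAlgebra.induction_linear with
    | zero =>
      rw [zero_mul, en_zero]
      refine (Finset.sum_eq_zero fun z _ => ?_).symm
      rw [en_zero, zero_mul]
    | add a b ha hb =>
      rw [add_mul, en_add, ha, hb, ← Finset.sum_add_distrib]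
      refine Finset.sum_congr rfl fun z _ => ?_
      rw [en_add, add_mul]
    | single s c => exact en_mul_single F s s' c c' (en0_mul_right F hy s s' hs)

end Mul

theorem mF_mul : S_mF := by
  intro k Γ P _ _ _ _ _ F m n l _ A B h
  funext p q
  change en (p.2 : P) (q.2 : P) ((A * B) p.1 q.1) = _
  rw [Matrix.mul_apply, en_sum, Matrix.mul_apply, Fintype.sum_prod_type]
  refine Finset.sum_congr rfl fun j _ => ?_
  rcases h with h | h
  · exact en_mul_left F p.2.2 _ _ (h p.1 j)
  · exact en_mul_right F q.2.2 _ _ (h j q.1)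

end Pool.Agent.BB
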