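import Pool.Agent.Lib.MP_8f66f0_al_GLA.Toggle
import Pool.Agent.Lib.MP_8f66f0_al_Tree.SpecD

/-!
# Output of part B of project GLn (for part D)

`P` is a partially ordered set with a monotone action of `Γ` (labels). A matrix `a` over `k[Γ]` whose
rows have the labels `c i` and whose columns have the labels `d j` RESPECTS THE LABELS if
`g • d j ≤ c i` for all `g` in the support of `a i j`.

* `KTT k Γ P`: an invariant with the formal properties of `K_1` which kills the invertible matrices over
  the group rings of the stabilisers of the labels kills all invertible matrices which respect labels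
  (and whose inverse does).
* `SFTT k Γ P`: idempotent matrices which respect labels are stably conjugate, by invertible matrices
  which respect labels, to diagonal matrices with entries `0`, `1`.
* `S_BB`: the statement to be proved in part B.
-/

set_option autoImplicit false

namespace Pool.Agent.BB

open Pool.Agent.GLA Pool.Agent.Wald Pool.Agent.Ind Pool.Agent.Hier Pool.Agent.TreeC

section

variable {k Γ P n m : Type} [CommRing k] [Group Γ] [LE P] [SMul Γ P]

/-- The matrix respects the labels `c` of the rows and `d` of the columns. -/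
def Resp (c : n → P) (d : m → P) (a : Matrix n m (MonoidAlgebra k Γ)) : Prop :=
  ∀ i j g, (a i j).coeff g ≠ 0 → g • d j ≤ c i

end

section

variable (k Γ P : Type) [CommRing k] [Group Γ] [PartialOrder P] [MulAction Γ P]

/-- `K_1` of the label respecting matrices comes from the stabilisers. -/
def KTT : Prop :=
  ∀ (K : Type) [CommGroup K] (κ : K1Fun (MonoidAlgebra k Γ) K),
    (∀ (p : P) (n : Type) [Fintype n] [DecidableEq n]
      (A : Matrix n n (MonoidAlgebra k (MulAction.stabilizer Γ p))), IsUnit A →
      κ.f (A.map (MonoidAlgebra.mapDomainRingHom k (MulAction.stabilizer Γ p).subtype)) = 1) →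
    ∀ (n : Type) [Fintype n] [DecidableEq n] (c : n → P)
      (a b : Matrix n n (MonoidAlgebra k Γ)), Resp c c a → Resp c c b → a * b = 1 → b * a = 1 →
      κ.f a = 1

/-- Idempotent label respecting matrices are stably conjugate to diagonal `0`, `1` matrices. -/
def SFTT : Prop :=
  ∀ (n : Type) [Fintype n] [DecidableEq n] (c : n → P) (e : Matrix n n (MonoidAlgebra k Γ)),
    Resp c c e → e * e = e →
    ∃ (m : Type) (_ : Fintype m) (_ : DecidableEq m) (c' : m → P) (s : m → Prop)
      (_ : DecidablePred s) (t : n ⊕ m → Prop) (_ : DecidablePred t)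
      (u v : Matrix (n ⊕ m) (n ⊕ m) (MonoidAlgebra k Γ)),
      Resp (Sum.elim c c') (Sum.elim c c') u ∧ Resp (Sum.elim c c') (Sum.elim c c') v ∧
      u * v = 1 ∧ v * u = 1 ∧
      u * Matrix.fromBlocks e 0 0 (Matrix.diagonal fun j => if s j then 1 else 0) * v =
        Matrix.diagonal fun i => if t i then 1 else 0

end

/-- THE STATEMENT TO BE PROVED in part B. -/
def S_BB : Prop :=
  ∀ (Γ P : Type) [Group Γ] [TogglePoset P] [ToggleAct Γ P],
    (∀ (p : P) (Δ : Subgroup Γ), Δ ≤ MulAction.stabilizer Γ p → KS Δ) →
    ∀ (L : Type) [CommRing L] [IsDomain L], IsEuc L →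
      KTT L Γ P ∧ SFTT L Γ P ∧ SFTT (Polynomial L) Γ P

end Pool.Agent.BB
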