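import Pool.Agent.Lib.MP_8f66f0_al_BB.SpecK
import Pool.Agent.Lib.MP_8f66f0_al_BB.Alg

/-!
# K6: the homomorphism `L((y))[MoN] → L[X][Mo]((y))` (project GLn, part BB)
-/

set_option autoImplicit false

namespace Pool.Agent.BB

open Pool.Agent.GLA Pool.Agent.Wald Pool.Agent.Ind Pool.Agent.Hier Pool.Agent.TreeC
open Pool.Agent.HierR (Mo MoN Tri Mo0 MonoAct mA)

section Laur

variable {L A : Type} [CommRing L] [Ring A] (α : L →+* A)

/-- The map of Laurent series given by a homomorphism of rings. -/
noncomputable def lmap : LaurentSeries L →+* LaurentSeries A where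
  toFun x := x.map α
  map_one' := by
    apply HahnSeries.ext
    funext k
    rw [HahnSeries.map_coeff, HahnSeries.coeff_one, HahnSeries.coeff_one]
    split_ifs
    · exact map_one _
    · exact map_zero _
  map_mul' x y := HahnSeries.map_mul (α : L →ₙ+* A)
  map_zero' := by
    apply HahnSeries.ext
    funext k
    rw [HahnSeries.map_coeff, HahnSeries.coeff_zero, HahnSeries.coeff_zero, map_zero]
  map_add' x y := by
    apply HahnSeries.ext
    funext k
    rw [HahnSeries.map_coeff, HahnSeries.coeff_add, HahnSeries.coeff_add, HahnSeries.map_coeff,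
      HahnSeries.map_coeff, map_add]

theorem lmap_coeff (x : LaurentSeries L) (k : ℤ) : (lmap α x).coeff k = α (x.coeff k) := by
  change (HahnSeries.map x α).coeff k = _
  rw [HahnSeries.map_coeff]

theorem exists_homG {S : Type} [Monoid S] (μ : S →* A) (hc : ∀ r s, α r * μ s = μ s * α r) :
    ∃ Φ : MonoidAlgebra (LaurentSeries L) S →+* LaurentSeries A,
      ∀ (s : S) (f : LaurentSeries L) (i : ℤ),
        (Φ (MonoidAlgebra.single s f)).coeff i = α (f.coeff i) * μ s := by
  let C' : S →* LaurentSeries A := (HahnSeries.C : A →+* LaurentSeries A).toMonoidHom.comp μ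
  have hcc : ∀ x s, Commute (lmap α x) (C' s) := by
    intro x s
    change lmap α x * HahnSeries.single 0 (μ s) = HahnSeries.single 0 (μ s) * lmap α x
    apply HahnSeries.ext
    funext k
    rw [HahnSeries.coeff_mul_single_zero, HahnSeries.coeff_single_zero_mul, lmap_coeff, hc]
  refine ⟨MonoidAlgebra.liftNCRingHom (lmap α) C' hcc, ?_⟩
  intro s f k
  rw [MonoidAlgebra.liftNCRingHom_single]
  change (lmap α f * HahnSeries.single 0 (μ s)).coeff k = _
  rw [HahnSeries.coeff_mul_single_zero, lmap_coeff]

end Laur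

section MuN

variable (L Γ P : Type) [CommRing L] [Group Γ] [PartialOrder P] [MulAction Γ P] [MonoAct Γ P]

theorem muN_mul (s t : MoN Γ P) : muN L (s * t) = muN L s * muN L t := by
  cases s with
  | one =>
    change muN L t = 1 * muN L t
    rw [one_mul]
  | zero =>
    have h1 : (MoN.zero * t : MoN Γ P) = .zero := Pool.Agent.HierR.MoN.zero_mul' t
    rw [h1]
    change zk (Polynomial L) Γ P = zk (Polynomial L) Γ P * muN L t
    cases t with
    | one =>
      change _ = _ * 1
      rw [mul_one]
    | zero =>
      change _ = _ * zk (Polynomial L) Γ P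
      rw [zk_mul_zk]
    | mor t m =>
      change _ = _ * (_ • hk (Polynomial L) t + zk (Polynomial L) Γ P)
      rw [mul_add, mul_smul_comm, zk_mul_hk, smul_zero, zero_add, zk_mul_zk]
  | mor s n =>
    cases t with
    | one =>
      have h1 : (MoN.mor s n * MoN.one : MoN Γ P) = .mor s n := rfl
      rw [h1]
      change _ = _ * 1
      rw [mul_one]
    | zero =>
      have h1 : (MoN.mor s n * MoN.zero : MoN Γ P) = .zero := rfl
      rw [h1]
      change zk (Polynomial L) Γ P = (_ • hk (Polynomial L) s + zk (Polynomial L) Γ P) *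
        zk (Polynomial L) Γ P
      rw [add_mul, smul_mul_assoc, hk_mul_zk, smul_zero, zero_add, zk_mul_zk]
    | mor t m =>
      rw [Pool.Agent.HierR.MoN.mor_mul_mor]
      change _ = ((Polynomial.X ^ n : Polynomial L) • hk (Polynomial L) s +
        zk (Polynomial L) Γ P) * ((Polynomial.X ^ m : Polynomial L) • hk (Polynomial L) t +
        zk (Polynomial L) Γ P)
      rw [add_mul, mul_add, mul_add, smul_mul_smul_comm, smul_mul_assoc, hk_mul_zk, smul_zero,
        add_zero, mul_smul_comm, zk_mul_hk, smul_zero, zero_add, zk_mul_zk]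
      by_cases h : s.b = t.a
      · rw [mulO_pos h, hk_mul_pos h, ← pow_add]
        rfl
      · rw [mulO_neg h, hk_mul_neg h, smul_zero, zero_add]
        rfl

/-- `muN` as a homomorphism. -/
noncomputable def muH : MoN Γ P →* MonoidAlgebra (Polynomial L) (Mo Γ P) where
  toFun := muN L
  map_one' := rfl
  map_mul' := muN_mul L Γ P

end MuN

theorem phi : S_Phi := by
  intro L Γ P _ _ _ _ _
  obtain ⟨Φ, hΦ⟩ := exists_homG ((algebraMap (Polynomial L)
    (MonoidAlgebra (Polynomial L) (Mo Γ P))).comp Polynomial.C) (muH L Γ P)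
    (fun r s => Algebra.commutes _ _)
  refine ⟨Φ, fun s f i => ?_⟩
  rw [hΦ, Algebra.smul_def]
  rfl

end Pool.Agent.BB
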