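import Pool.Agent.Lib.MP_8f66f0_al_BB.DefsK
import Pool.Agent.Lib.MP_8f66f0_al_HierR.SpecO
import Pool.Agent.Lib.MP_8f66f0_al_Ind.LaurPSF

/-!
# Statements of the transfer (project GLn, part BB)

From `S_out`, `S_out0` (part BA) and `S_res` (resolution, helper24) to `S_BB` (`Out.lean`).
Notation: `S = Mo Γ P`, `T` = the span of the `hk t`, `z = zk` (a central idempotent), `e_x = hk (idT x)`.
-/

set_option autoImplicit false

namespace Pool.Agent.BB

open Pool.Agent.GLA Pool.Agent.Wald Pool.Agent.Ind Pool.Agent.Hier Pool.Agent.TreeC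
open Pool.Agent.WaldL
open Pool.Agent.HierR (Mo MoN Tri Mo0 MonoAct mA ResB PM S_out S_out0)

/-- K1. The matrices of entries are multiplicative if one of the factors has its objects in `F`.
PROOF. `en x y` is additive and `k`-linear. For `r = single s 1`, `r' = single s' 1`: `en x y (r * r') =
∑ z ∈ F, en x z r * en z y r'` if `InF F s` and `x ∈ F` (case `s = mor t`: only `z = t.b`; `s = one`: only
`z = x`), or if `InF F s'` and `y ∈ F`. Linearity in both variables. -/
def S_mF : Prop :=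
  ∀ (k Γ P : Type) [CommRing k] [Group Γ] [PartialOrder P] [MulAction Γ P] [MonoAct Γ P]
    (F : Finset P) (m n l : Type) [Fintype n] (A : Matrix m n (MonoidAlgebra k (Mo Γ P)))
    (B : Matrix n l (MonoidAlgebra k (Mo Γ P))), SpF F A ∨ SpF F B →
    mF F (A * B) = mF F A * mF F B

/-- K2. An invariant of `k[Γ]` which kills the scalars gives an invariant of `k[Mo Γ P]`.
PROOF. Let `A * B = 1 = B * A`, `SpF F A`. By K1 `mF F A` is invertible with the inverse `mF F B`. If
`F ⊆ F'` then `mF F' A` is, after reindexing `n × F' = n × F ⊕ n × (F' \ F)`, the block diagonal matrix of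
`mF F A` and the scalar matrix `al A ⊗ 1` (entries of `A` at objects outside `F` come from `one` only), which
is invertible over `k` (`al (A * B) = al A * al B`), so `κ (mF F' A) = κ (mF F A)`. Put
`κ' A = κ (mF F A)`, `F` = the finite set of all objects in the supports of the entries of `A`. `mul`: take
`F` for `A`, `B`, `A * B`. `reindex`, `tri`: direct, with a common `F`. -/
def S_fun : Prop :=
  ∀ (k Γ P : Type) [CommRing k] [Group Γ] [PartialOrder P] [MulAction Γ P] [MonoAct Γ P]
    [DecidableEq P] (K : Type) [CommGroup K] (κ : K1Fun (MonoidAlgebra k Γ) K),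
    (∀ (n : Type) [Fintype n] [DecidableEq n] (A : Matrix n n k), IsUnit A →
      κ.f (A.map (algebraMap k (MonoidAlgebra k Γ))) = 1) →
    ∃ κ' : K1Fun (MonoidAlgebra k (Mo Γ P)) K, ∀ (F : Finset P) (n : Type) [Fintype n]
      [DecidableEq n] (A : Matrix n n (MonoidAlgebra k (Mo Γ P))), IsUnit A → SpF F A →
      κ'.f A = κ.f (mF F A)

/-- K3. An invariant of `k[Mo Γ P]` which kills the scalars, the corner of the zero element and the corners
of the stabilisers kills `GL(k[Mo0])`.
PROOF. `A` over `k[Mo0]` with inverse `B`; `F` a finite set with all objects of `A` and `B`, `e = ∑_{x ∈ F}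
e_x`, `z`, `e`, `f := 1 - z - e` orthogonal idempotents which commute with `A`; `A z = A₁ z` (`A₁` = sum of
all coefficients), `A f = A₀ f` (`A₀ = al A`). So `A = (A₁ z + 1 - z) (A₀ f + 1 - f) (e A e + 1 - e)`. The
first factor is killed by `KilZ`. `A₀ f + 1 - f = A₀ (A₀⁻¹ z + 1 - z) ∏_{x ∈ F} (A₀⁻¹ e_x + 1 - e_x)` is
killed (`KilA`, `KilZ`, `KilS` for the scalar matrices). Last factor: choose in every orbit a point, `x = γ_x
x'`, `x'` the chosen point, `a_x = hk (x, γ_x, x')`, `b_x = hk (x', γ_x⁻¹, x)`: `a_x b_x = e_x`,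
`b_x a_x = e_{x'}`, `b_y a_x = 0` for `y ≠ x`. `e A e + 1 - e = 1 + X Y`, `X = (a_x)_x` (`n × (n × F)`),
`Y = (b_x (A - 1) e)_x`, and `sameK_swap`: `κ = κ (1 + Y X)`, `(Y X)_((i,x),(j,y)) = b_x (A - 1)_ij a_y`, which
is `0` if `x' ≠ y'` and lies in the image of `thf x'` (on `k[H_x']`) if `x' = y'`, because the support of
`A` is in `Mo0`. `1 + Y X = ∏_c (1 + (Y X)_c)`, `c` over the chosen points, `(Y X)_c` = the part with
`x' = y' = c`; each factor is invertible (same for the inverse) and killed by `KilS`. -/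
def S_L0 : Prop :=
  ∀ (k Γ P : Type) [CommRing k] [Group Γ] [PartialOrder P] [MulAction Γ P] [MonoAct Γ P]
    (K : Type) [CommGroup K] (κ : K1Fun (MonoidAlgebra k (Mo Γ P)) K),
    KilA κ → KilZ κ → KilS κ →
    ∀ (n : Type) [Fintype n] [DecidableEq n] (A : Matrix n n (MonoidAlgebra k (Mo0 Γ P))),
      IsUnit A → κ.f (A.map (mA k (Mo0 Γ P).subtype)) = 1

/-- K4. `KTT` from part BA.
PROOF. `κ` on `k[Γ]` kills `GL(k[stabilisers])`, in particular the scalars (`P` is non-empty, or `n` is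
empty). `κ'` from K2: `KilA`, `KilZ` (take `F = ∅`: empty matrices), `KilS` (`F = {x}`). K3 and the
hypothesis: `κ' = 1`. For `a`, `b` as in `KTT`: `U = (lf c_i c_j a_ij) + diag (1 - e_(c_i))` is invertible
(inverse from `b`), `F = image c`, `mF F U = 1 + J (a - 1) Jᵀ`, `J_((i,x),j) = δ_ij [x = c_i]`, `Jᵀ J = 1`,
`sameK_swap`: `κ' U = κ a`. -/
def S_ktt : Prop :=
  ∀ (k Γ P : Type) [CommRing k] [Group Γ] [PartialOrder P] [MulAction Γ P] [MonoAct Γ P],
    KT (mA k (Mo0 Γ P).subtype : MonoidAlgebra k (Mo0 Γ P) →+* MonoidAlgebra k (Mo Γ P)) →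
    KTT k Γ P

/-- K5. The index theorem modulo the classes of the idempotents `q l`.
PROOF. `D` from `exists_k0 T`, `v` from `exists_val T`, `κ₀` from `exists_index v D`, `K` = the quotient of
`D.K` by the subgroup generated by the classes of `T q_l`, `κ` = the image of `κ₀` (`index_y`, `index_unit`,
`index_idem`). Hence `cls (range p) = ∏ cls (T q_l)^(±1)`; move the negative powers to the other side; equal
classes of finitely generated projective modules mean stably isomorphic (`cls_one` with a complement);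
isomorphisms of the ranges of idempotent matrices are matrices `U`, `V` (`U V = first`, `V U = second`
idempotent; replace `U` by `U V U`). -/
def S_idx : Prop :=
  ∀ (T Λ : Type) [Ring T] (q : Λ → T), (∀ l, q l * q l = q l) →
    ∀ (n : Type) [Fintype n] [DecidableEq n] (p : Matrix n n T), p * p = p →
    (∀ (K : Type) [CommGroup K] (κ : K1Fun (LaurentSeries T) K),
      κ.f (Matrix.of fun _ _ : Fin 1 => (HahnSeries.single 1 1 : LaurentSeries T)) = 1 →
      (∀ w wi : LaurentSeries T, (∀ i < 0, w.coeff i = 0) → (∀ i < 0, wi.coeff i = 0) →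
        w * wi = 1 → wi * w = 1 → κ.f (Matrix.of fun _ _ : Fin 1 => w) = 1) →
      (∀ l, κ.f (Matrix.of fun _ _ : Fin 1 =>
        (1 + HahnSeries.single 0 (q l) * (HahnSeries.single 1 1 - 1) : LaurentSeries T)) = 1) →
      κ.f (1 + p.map fun a =>
        (HahnSeries.single 0 a * (HahnSeries.single 1 1 - 1) : LaurentSeries T)) = 1) →
    ∃ (m l : Type) (_ : Fintype m) (_ : DecidableEq m) (_ : Fintype l) (_ : DecidableEq l)
      (s : m → T) (t : l → T) (U : Matrix (n ⊕ m) l T) (V : Matrix l (n ⊕ m) T),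
      (∀ i, s i = 1 ∨ ∃ a, s i = q a) ∧ (∀ i, t i = 1 ∨ ∃ a, t i = q a) ∧
      U * V = Matrix.fromBlocks p 0 0 (Matrix.diagonal s) ∧ V * U = Matrix.diagonal t

/-- The standard idempotents of `k[Mo Γ P]`. -/
noncomputable def qst (k Γ P : Type) [CommRing k] [Group Γ] [PartialOrder P] [MulAction Γ P] :
    Option P → MonoidAlgebra k (Mo Γ P)
  | none => zk k Γ P
  | some x => hk k (idT Γ x)

/-- The multiplicative map to `L[X][Mo]`. -/
noncomputable def muN (L : Type) {Γ P : Type} [CommRing L] [Group Γ] [PartialOrder P]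
    [MulAction Γ P] : MoN Γ P → MonoidAlgebra (Polynomial L) (Mo Γ P)
  | .one => MonoidAlgebra.single .one 1
  | .zero => zk (Polynomial L) Γ P
  | .mor t n => (Polynomial.X ^ n : Polynomial L) • hk (Polynomial L) t + zk (Polynomial L) Γ P

/-- K6. The homomorphism `L((y))[MoN] → L[X][Mo]((y))`.
PROOF. `muN` is multiplicative (`hk t * hk t' = hk (t t')` or `0`, `hk t * z = 0 = z * hk t`, `z z = z`);
the constants `C (muN s)` commute with the Laurent series with coefficients in `L`; as
`Ind.exists_hom`: `MonoidAlgebra.liftNCRingHom`. -/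
def S_Phi : Prop :=
  ∀ (L Γ P : Type) [CommRing L] [Group Γ] [PartialOrder P] [MulAction Γ P] [MonoAct Γ P],
    ∃ Φ : MonoidAlgebra (LaurentSeries L) (MoN Γ P) →+*
      LaurentSeries (MonoidAlgebra (Polynomial L) (Mo Γ P)),
      ∀ (s : MoN Γ P) (f : LaurentSeries L) (i : ℤ),
        (Φ (MonoidAlgebra.single s f)).coeff i = (Polynomial.C (f.coeff i)) • muN L s

/-- K7. The index hypothesis for label respecting idempotents over `L[X]`.
PROOF. `κ ∘ Φ` (K6) is an invariant of `L'[MoN]`, `L' = L((y))`, which is trivial by `hN`, `h0` and K3: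
`κ ∘ Φ ∘ inc` satisfies `KilA`, `KilZ`, `KilS`: for the corners of `q = 1` (group `1`), `z` (group `1`),
`e_x` (group `H_x`) the invariant `A ↦ κ(Φ(θ(A) + 1 - q))` of `L'[H]` is trivial by `WhTL L' H`
(`KK H`, `isEuc_laurent`; for `1` the group is trivial), because a unit `u h` (`u = y^m u₀`, `u₀` a unit of
`L[[y]]`) is mapped to `(1 + q (y - 1))^m` times an element of `T[[y]]` with inverse in `T[[y]]`.
`1 + p (y - 1)`, `p = (lf c_i c_j e_ij)`, is the image of the invertible matrix `1 + (y - 1) p'` over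
`L'[MoN]`, `p'` = `∑ (coefficients of e_ij(g)) ((c_i, g, c_j) X^n - zero)`. -/
def S_kill : Prop :=
  ∀ (L Γ P : Type) [CommRing L] [IsDomain L] [Group Γ] [PartialOrder P] [MulAction Γ P]
    [MonoAct Γ P], IsEuc L → (∀ x : P, KK (MulAction.stabilizer Γ x)) →
    KT (mA (LaurentSeries L) (MoN.inc Γ P) :
      MonoidAlgebra (LaurentSeries L) (Mo Γ P) →+* MonoidAlgebra (LaurentSeries L) (MoN Γ P)) →
    KT (mA (LaurentSeries L) (Mo0 Γ P).subtype :
      MonoidAlgebra (LaurentSeries L) (Mo0 Γ P) →+* MonoidAlgebra (LaurentSeries L) (Mo Γ P)) →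
    ∀ (n : Type) [Fintype n] [DecidableEq n] (c : n → P)
      (e : Matrix n n (MonoidAlgebra (Polynomial L) Γ)), Resp c c e → e * e = e →
    ∀ (K : Type) [CommGroup K]
      (κ : K1Fun (LaurentSeries (MonoidAlgebra (Polynomial L) (Mo Γ P))) K),
      κ.f (Matrix.of fun _ _ : Fin 1 =>
        (HahnSeries.single 1 1 : LaurentSeries (MonoidAlgebra (Polynomial L) (Mo Γ P)))) = 1 →
      (∀ w wi : LaurentSeries (MonoidAlgebra (Polynomial L) (Mo Γ P)),
        (∀ i < 0, w.coeff i = 0) → (∀ i < 0, wi.coeff i = 0) →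
        w * wi = 1 → wi * w = 1 → κ.f (Matrix.of fun _ _ : Fin 1 => w) = 1) →
      (∀ l, κ.f (Matrix.of fun _ _ : Fin 1 =>
        (1 + HahnSeries.single 0 (qst (Polynomial L) Γ P l) * (HahnSeries.single 1 1 - 1) :
          LaurentSeries (MonoidAlgebra (Polynomial L) (Mo Γ P)))) = 1) →
      κ.f (1 + (Matrix.of fun i j => lf (c i) (c j) (e i j)).map fun a =>
        (HahnSeries.single 0 a * (HahnSeries.single 1 1 - 1) :
          LaurentSeries (MonoidAlgebra (Polynomial L) (Mo Γ P)))) = 1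

/-- K8. From matrices over `k[Mo]` to label respecting matrices.
PROOF. `F` a finite set with the objects of `U`, `V`, the `c_i` and the `x` with `s_i` or `t_i = e_x`.
`mF F` (K1) gives `U' V' = p ⊕ diag(0,1)`, `V' U' = diag(0,1)` with `p = J e Jᵀ` over
`N₁ = (n ⊕ m) × F`, `N₂ = l × F`, all matrices respect the labels `(i, x) ↦ x`. For idempotents
`a = U' V'`, `b = V' U'` (replace `U'` by `U' V' U'`) the matrix `w = [[1 - a, U'], [V', 1 - b]]` has
`w w = 1` and `w (a ⊕ 0) w = 0 ⊕ b`. Reindex `N₁ ⊕ N₂ = n ⊕ (rest)`, `i ↦ (i, c_i)`. -/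
def S_desc : Prop :=
  ∀ (k Γ P : Type) [CommRing k] [Group Γ] [PartialOrder P] [MulAction Γ P] [MonoAct Γ P]
    (n m l : Type) [Fintype n] [DecidableEq n] [Fintype m] [DecidableEq m] [Fintype l]
    [DecidableEq l] (c : n → P) (e : Matrix n n (MonoidAlgebra k Γ)), Resp c c e → e * e = e →
    ∀ (s : m → MonoidAlgebra k (Mo Γ P)) (t : l → MonoidAlgebra k (Mo Γ P))
      (U : Matrix (n ⊕ m) l (MonoidAlgebra k (Mo Γ P)))
      (V : Matrix l (n ⊕ m) (MonoidAlgebra k (Mo Γ P))),
      (∀ i, s i = 1 ∨ ∃ a, s i = qst k Γ P a) → (∀ i, t i = 1 ∨ ∃ a, t i = qst k Γ P a) →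
      U * V = Matrix.fromBlocks (Matrix.of fun i j => lf (c i) (c j) (e i j)) 0 0
        (Matrix.diagonal s) → V * U = Matrix.diagonal t →
    ∃ (m' : Type) (_ : Fintype m') (_ : DecidableEq m') (c' : m' → P) (s' : m' → Prop)
      (_ : DecidablePred s') (t' : n ⊕ m' → Prop) (_ : DecidablePred t')
      (u v : Matrix (n ⊕ m') (n ⊕ m') (MonoidAlgebra k Γ)),
      Resp (Sum.elim c c') (Sum.elim c c') u ∧ Resp (Sum.elim c c') (Sum.elim c c') v ∧
      u * v = 1 ∧ v * u = 1 ∧
      u * Matrix.fromBlocks e 0 0 (Matrix.diagonal fun j => if s' j then 1 else 0) * v =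
        Matrix.diagonal fun i => if t' i then 1 else 0

/-- K9. `SFTT` over `L` from `SFTT` over `L[X]`: apply `X ↦ 0` to `u`, `v`. -/
def S_x0 : Prop :=
  ∀ (L Γ P : Type) [CommRing L] [Group Γ] [PartialOrder P] [MulAction Γ P],
    SFTT (Polynomial L) Γ P → SFTT L Γ P

/-- K10 (helper24: Xi, Cplx, with `isRet`). The resolution. -/
def S_res : Prop :=
  ∀ (Γ P : Type) [Group Γ] [TogglePoset P] [ToggleAct Γ P] (C : ∀ (H : Type) [Group H], Prop),
    (∀ K : Subgroup Γ, (∃ p : P, K ≤ MulAction.stabilizer Γ p) → C K) →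
    ∃ N : ℕ, ResB (Mo Γ P) C N (PM (Tri Γ P))

end Pool.Agent.BB
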