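import Pool.Agent.Lib.MP_8f66f0_al_FH.Kuhn

/-! # The toggle complex (project GLn, part BB1)

Bounded chains in an interval `[lam, mu]` of a partial order with a toggle `psi`: the augmented complex
is acyclic. -/

set_option autoImplicit false

namespace Pool.Agent.BB

open Pool.Agent.Kuhn

/-- A partial order with a relation `bd` (bounded pairs) and a toggle `psi`. -/
structure Tog (α : Type) [PartialOrder α] where
  /-- bounded pairs, smaller element first -/
  bd : α → α → Prop
  /-- the toggle -/
  psi : α → α → α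
  /-- the length of an interval -/
  nu : α → α → ℕ
  bd_refl : ∀ x, bd x x
  bd_mono : ∀ {x x' y' y : α}, bd x y → x ≤ x' → x' ≤ y' → y' ≤ y → bd x' y'
  le_psi : ∀ {l x : α}, l ≤ x → l ≤ psi l x
  psi_eq : ∀ {l x : α}, l ≤ x → psi l x = x → x = l
  psi_bot : ∀ {l y x : α}, l ≤ y → y ≤ x → bd y x → psi l x ≤ y
  psi_bd : ∀ {l x : α}, l ≤ x → bd (psi l x) x
  nu_lt : ∀ {l x y : α}, l ≤ x → x < y → nu l x < nu l y

variable {α : Type} [PartialOrder α] (T : Tog α)

namespace Tog

theorem psi_le {l x : α} (h : l ≤ x) : T.psi l x ≤ x := T.psi_bot h le_rfl (T.bd_refl x)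

/-- Bounded chains in `[lam, mu]` with `k` elements. -/
def B (lam mu : α) (k : ℕ) (l : List α) : Prop :=
  l.Pairwise (· < ·) ∧ (∀ x ∈ l, ∀ y ∈ l, x ≤ y → T.bd x y) ∧ (∀ x ∈ l, lam ≤ x ∧ x ≤ mu) ∧
    l.length = k

variable {T}

theorem B.sub {lam mu : α} {k k' : ℕ} {l m : List α} (h : T.B lam mu k l) (hm : m.Sublist l)
    (hk : m.length = k') : T.B lam mu k' m :=
  ⟨h.1.sublist hm, fun x hx y hy => h.2.1 x (hm.subset hx) y (hm.subset hy),
    fun x hx => h.2.2.1 x (hm.subset hx), hk⟩

theorem B.last {lam mu : α} {k : ℕ} {l : List α} (h : T.B lam mu k l) {t : α}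
    (ht : l.getLast? = some t) : t ∈ l ∧ ∀ x ∈ l, x ≤ t := by
  have h1 : t ∈ l := List.mem_of_getLast? ht
  refine ⟨h1, fun x hx => ?_⟩
  obtain ⟨m, rfl⟩ : ∃ m, l = m ++ [t] := by
    obtain ⟨m, hm⟩ := List.getLast?_eq_some_iff.1 ht
    exact ⟨m, hm⟩
  rcases List.mem_append.1 hx with h2 | h2
  · have h3 := (List.pairwise_append.1 h.1).2.2 x h2 t (List.mem_singleton_self t)
    exact h3.le
  · rw [List.mem_singleton.1 h2]

/-- Adding the toggle element. -/
theorem B.cons {lam mu : α} {k : ℕ} {l : List α} (h : T.B lam mu k l) {t : α}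
    (ht : t ∈ l) (hl : ∀ x ∈ l, x ≤ t) (hp : ∀ x ∈ l, T.psi lam t ≠ x) :
    T.B lam mu (k + 1) (T.psi lam t :: l) := by
  have h0 := h.2.2.1 t ht
  have h1 : ∀ x ∈ l, T.psi lam t ≤ x := fun x hx =>
    T.psi_bot (h.2.2.1 x hx).1 (hl x hx) (h.2.1 x hx t ht (hl x hx))
  have h2 : ∀ x ∈ l, T.psi lam t < x := fun x hx => lt_of_le_of_ne (h1 x hx) (hp x hx)
  refine ⟨List.pairwise_cons.2 ⟨h2, h.1⟩, ?_, ?_, by rw [List.length_cons, h.2.2.2]⟩
  · intro x hx y hy hxy
    rcases List.mem_cons.1 hx with rfl | hx
    · rcases List.mem_cons.1 hy with rfl | hy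
      · exact T.bd_refl _
      · exact T.bd_mono (T.psi_bd h0.1) le_rfl (h1 y hy) (hl y hy)
    · rcases List.mem_cons.1 hy with rfl | hy
      · exact absurd (h2 x hx) (not_lt_of_ge hxy)
      · exact h.2.1 x hx y hy hxy
  · intro x hx
    rcases List.mem_cons.1 hx with rfl | hx
    · exact ⟨T.le_psi h0.1, (T.psi_le h0.1).trans h0.2⟩
    · exact h.2.2.1 x hx

section V

variable (T) (lam : α)

open Classical in
/-- The adding half of the toggle, on lists. -/
noncomputable def vl (l : List α) : Ch α :=
  match l.getLast? with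
  | none => Finsupp.single [lam] 1
  | some t => if T.psi lam t ∈ l then 0 else Finsupp.single (T.psi lam t :: l) 1

/-- The adding half of the toggle. -/
noncomputable def V : Ch α →ₗ[ℤ] Ch α := Finsupp.linearCombination ℤ (T.vl lam)

@[simp] theorem V_single (l : List α) : T.V lam (Finsupp.single l 1) = T.vl lam l := by
  simp [V]

variable {T lam}

theorem vl_nil : T.vl lam [] = Finsupp.single [lam] 1 := rfl

theorem vl_pos {l : List α} {t : α} (ht : l.getLast? = some t) (h : T.psi lam t ∈ l) :
    T.vl lam l = 0 := by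
  unfold vl
  rw [ht]
  exact if_pos h

theorem vl_neg {l : List α} {t : α} (ht : l.getLast? = some t) (h : T.psi lam t ∉ l) :
    T.vl lam l = Finsupp.single (T.psi lam t :: l) 1 := by
  unfold vl
  rw [ht]
  exact if_neg h

omit [PartialOrder α] in
theorem getLast?_cases (l : List α) : l = [] ∨ ∃ t, l.getLast? = some t := by
  cases h : l.getLast? with
  | none => exact Or.inl (List.getLast?_eq_none_iff.1 h)
  | some t => exact Or.inr ⟨t, rfl⟩

theorem B.nil {mu : α} (h : lam ≤ mu) : T.B lam mu 1 [lam] := by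
  refine ⟨List.pairwise_singleton _ _, ?_, ?_, rfl⟩
  · intro x hx y hy _
    rw [List.mem_singleton.1 hx, List.mem_singleton.1 hy]
    exact T.bd_refl _
  · intro x hx
    rw [List.mem_singleton.1 hx]
    exact ⟨le_rfl, h⟩

theorem vl_mem {mu : α} {k : ℕ} {l : List α} (hlm : lam ≤ mu) (h : T.B lam mu k l) :
    T.vl lam l ∈ Sp (T.B lam mu (k + 1)) := by
  rcases getLast?_cases l with rfl | ⟨t, ht⟩
  · rw [vl_nil]
    refine single_mem ?_ 1
    rw [← h.2.2.2]
    exact B.nil hlm
  · obtain ⟨h1, h2⟩ := h.last ht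
    by_cases h3 : T.psi lam t ∈ l
    · rw [vl_pos ht h3]
      exact zero_mem _
    · rw [vl_neg ht h3]
      exact single_mem (h.cons h1 h2 fun x hx hp => h3 (hp ▸ hx)) 1

theorem V_mem {mu : α} {k : ℕ} {z : Ch α} (hlm : lam ≤ mu) (h : z ∈ Sp (T.B lam mu k)) :
    T.V lam z ∈ Sp (T.B lam mu (k + 1)) :=
  sp_map _ _ _ (fun l hl => by rw [V_single]; exact vl_mem hlm hl) h

theorem d_memB {mu : α} {k : ℕ} {z : Ch α} (h : z ∈ Sp (T.B lam mu (k + 1))) :
    d z ∈ Sp (T.B lam mu k) := by
  refine sp_map _ _ _ (fun l hl => ?_) h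
  rw [d_single]
  refine sp_mono (fun m hm => hl.sub hm.1 ?_) (dl_mem l)
  have := hl.2.2.2
  omega

omit [PartialOrder α] in
theorem last_cons {a t : α} {l : List α} (h : l.getLast? = some t) :
    (a :: l).getLast? = some t := by
  cases l with
  | nil => simp at h
  | cons b l => rw [List.getLast?_cons_cons]; exact h

/-- A sublist of a bounded chain which contains the last element has the same last element. -/
theorem last_sub {mu : α} {k : ℕ} {l m : List α} (h : T.B lam mu k l) {t : α}
    (ht : l.getLast? = some t) (hm : m.Sublist l) (hmt : t ∈ m) : m.getLast? = some t := by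
  rcases getLast?_cases m with rfl | ⟨s, hs⟩
  · exact absurd hmt (by simp)
  · have h1 := (h.last ht).2 s (hm.subset (List.mem_of_getLast? hs))
    have h2 := ((h.sub hm rfl).last hs).2 t hmt
    rw [hs, le_antisymm h1 h2]

/-- Lower lists. -/
def Lw (T : Tog α) (lam mu : α) (k : ℕ) (t : α) (m : List α) : Prop :=
  T.B lam mu k m ∧ ∀ x ∈ m, x < t

/-- The homotopy formula up to lower lists. -/
theorem step {mu : α} {k : ℕ} {l : List α} (hlm : lam ≤ mu) (h : T.B lam mu k l) {t : α}
    (ht : l.getLast? = some t) :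
    d (T.vl lam l) + T.V lam (dl l) - Finsupp.single l 1 ∈ Sp (Lw T lam mu k t) := by
  obtain ⟨h1, h2⟩ := h.last ht
  have h0 := h.2.2.1 t h1
  -- sublists which do not contain `t` are lower
  have hlow : ∀ m : List α, m.Sublist l → t ∉ m → ∀ x ∈ m, x < t := fun m hm hmt x hx =>
    lt_of_le_of_ne (h2 x (hm.subset hx)) fun he => hmt (he ▸ hx)
  -- the toggle element is below all elements
  have hps : ∀ x ∈ l, T.psi lam t ≤ x := fun x hx =>
    T.psi_bot (h.2.2.1 x hx).1 (h2 x hx) (h.2.1 x hx t h1 (h2 x hx))
  by_cases h3 : T.psi lam t ∈ l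
  · rw [vl_pos ht h3, map_zero, zero_add]
    -- the list begins with the toggle element
    obtain ⟨a, l', rfl⟩ : ∃ a l', l = a :: l' := by
      cases l with
      | nil => simp at h3
      | cons a l' => exact ⟨a, l', rfl⟩
    have ha : a = T.psi lam t := by
      rcases List.mem_cons.1 h3 with h4 | h4
      · exact h4.symm
      · exact absurd ((List.pairwise_cons.1 h.1).1 _ h4)
          (not_lt_of_ge (hps a List.mem_cons_self))
    subst ha
    rw [dl, map_sub, V_single]
    rcases getLast?_cases l' with rfl | ⟨s, hs⟩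
    · -- one element: then it is `lam`
      have h5 : T.psi lam t = t := by simpa using ht
      have h6 : t = lam := T.psi_eq h0.1 h5
      rw [vl_nil, h5, h6]
      simp [dl]
    · have hst : s = t := by
        have := last_cons (a := T.psi lam t) hs
        rw [ht] at this
        exact (Option.some.inj this).symm
      subst hst
      have hnot : T.psi lam s ∉ l' := fun h7 =>
        absurd ((List.pairwise_cons.1 h.1).1 _ h7) (lt_irrefl _)
      have hps' : T.psi lam s < s := (List.pairwise_cons.1 h.1).1 s (List.mem_of_getLast? hs)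
      rw [vl_neg hs hnot, sub_sub_cancel_left]
      refine neg_mem (sp_map (T.V lam ∘ₗ pre (T.psi lam s)) _ _ (fun m hm => ?_) (dl_mem l'))
      rw [LinearMap.comp_apply, pre_single, V_single]
      have hsub : (T.psi lam s :: m).Sublist (T.psi lam s :: l') := hm.1.cons_cons _
      have hlen := h.2.2.2
      rw [List.length_cons] at hlen
      by_cases h7 : s ∈ m
      · rw [vl_pos (last_sub h ht hsub (List.mem_cons_of_mem _ h7)) List.mem_cons_self]
        exact zero_mem _
      · have hB : T.B lam mu (k - 1) (T.psi lam s :: m) := h.sub hsub (by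
          rw [List.length_cons]
          have := hm.2
          omega)
        have hk : k - 1 + 1 = k := by omega
        have hm' : s ∉ T.psi lam s :: m := by
          rw [List.mem_cons]
          rintro (h8 | h8)
          · exact hps'.ne h8.symm
          · exact h7 h8
        have hlt := hlow _ hsub hm'
        obtain ⟨r, hr⟩ : ∃ r, (T.psi lam s :: m).getLast? = some r := by
          rcases getLast?_cases (T.psi lam s :: m) with h8 | h8
          · simp at h8
          · exact h8
        obtain ⟨h8, h9⟩ := hB.last hr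
        by_cases h10 : T.psi lam r ∈ T.psi lam s :: m
        · rw [vl_pos hr h10]
          exact zero_mem _
        · rw [vl_neg hr h10]
          refine single_mem ⟨?_, ?_⟩ 1
          · have := hB.cons h8 h9 fun x hx hp => h10 (hp ▸ hx)
            rw [hk] at this
            exact this
          · intro x hx
            rcases List.mem_cons.1 hx with rfl | hx
            · exact lt_of_le_of_lt (T.psi_le (hB.2.2.1 r h8).1) (hlt r h8)
            · exact hlt x hx
  · rw [vl_neg ht h3, d_single, dl]
    have h4 : (Finsupp.single l 1 - pre (T.psi lam t) (dl l) + T.V lam (dl l) -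
        Finsupp.single l 1 : Ch α) = (T.V lam - pre (T.psi lam t)) (dl l) := by
      rw [LinearMap.sub_apply]
      abel
    rw [h4]
    refine sp_map _ _ _ (fun m hm => ?_) (dl_mem l)
    rw [LinearMap.sub_apply, pre_single, V_single]
    have hlen := h.2.2.2
    have hp : ∀ x ∈ l, T.psi lam t < x := fun x hx =>
      lt_of_le_of_ne (hps x hx) fun he => h3 (he ▸ hx)
    have hB : T.B lam mu (k - 1) m := h.sub hm.1 (by
      have := hm.2
      omega)
    have hk : k - 1 + 1 = k := by
      have := hm.2
      omega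
    by_cases h7 : t ∈ m
    · rw [vl_neg (last_sub h ht hm.1 h7) fun h8 => h3 (hm.1.subset h8), sub_self]
      exact zero_mem _
    · have hlt := hlow _ hm.1 h7
      refine sub_mem ?_ (single_mem ⟨?_, ?_⟩ 1)
      · rcases getLast?_cases m with rfl | ⟨r, hr⟩
        · rw [vl_nil]
          refine single_mem ⟨?_, ?_⟩ 1
          · have h8 := B.nil (T := T) hlm
            have h9 := hB.2.2.2
            rw [List.length_nil] at h9
            rw [← hk, ← h9]
            exact h8
          · intro x hx
            rw [List.mem_singleton.1 hx]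
            exact lt_of_le_of_lt (T.le_psi h0.1) (hp t h1)
        · obtain ⟨h8, h9⟩ := hB.last hr
          by_cases h10 : T.psi lam r ∈ m
          · rw [vl_pos hr h10]
            exact zero_mem _
          · rw [vl_neg hr h10]
            refine single_mem ⟨?_, ?_⟩ 1
            · have := hB.cons h8 h9 fun x hx hp => h10 (hp ▸ hx)
              rw [hk] at this
              exact this
            · intro x hx
              rcases List.mem_cons.1 hx with rfl | hx
              · exact lt_of_le_of_lt (T.psi_le (hB.2.2.1 r h8).1) (hlt r h8)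
              · exact hlt x hx
      · have h11 : T.B lam mu (k + 1) (T.psi lam t :: l) := h.cons h1 h2 fun x hx hpx =>
          h3 (hpx ▸ hx)
        exact h11.sub (hm.1.cons_cons _) (by rw [List.length_cons]; have := hm.2; omega)
      · intro x hx
        rcases List.mem_cons.1 hx with rfl | hx
        · exact hp t h1
        · exact hlt x hx

theorem acyclic_aux {mu : α} (hlm : lam ≤ mu) (n : ℕ) : ∀ {k : ℕ} {z : Ch α},
    z ∈ Sp (fun l => T.B lam mu k l ∧ ∀ x ∈ l, T.nu lam x < n) → d z = 0 →
    ∃ y ∈ Sp (T.B lam mu (k + 1)), d y = z := by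
  induction n with
  | zero =>
    intro k z hz _
    refine ⟨T.V lam z, V_mem hlm (sp_mono (fun l hl => hl.1) hz), ?_⟩
    refine sp_eq (φ := d ∘ₗ T.V lam) (ψ := LinearMap.id) (fun l hl => ?_) hz
    rcases l with _ | ⟨a, l⟩
    · rw [LinearMap.comp_apply, V_single, vl_nil, LinearMap.id_apply]
      simp [dl]
    · exact absurd (hl.2 a List.mem_cons_self) (Nat.not_lt_zero _)
  | succ n ih =>
    intro k z hz hd
    have hzB : z ∈ Sp (T.B lam mu k) := sp_mono (fun l hl => hl.1) hz
    have h1 : d (T.V lam z) - z ∈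
        Sp (fun l => T.B lam mu k l ∧ ∀ x ∈ l, T.nu lam x < n) := by
      have h2 : (d ∘ₗ T.V lam + T.V lam ∘ₗ d - LinearMap.id : Ch α →ₗ[ℤ] Ch α) z ∈
          Sp (fun l => T.B lam mu k l ∧ ∀ x ∈ l, T.nu lam x < n) := by
        refine sp_map _ _ _ (fun l hl => ?_) hz
        rw [LinearMap.sub_apply, LinearMap.add_apply, LinearMap.comp_apply, LinearMap.comp_apply,
          V_single, d_single, LinearMap.id_apply]
        rcases getLast?_cases l with rfl | ⟨t, ht⟩
        · rw [vl_nil]
          simp [dl]
        · refine sp_mono (fun m hm => ⟨hm.1, fun x hx => ?_⟩) (step hlm hl.1 ht)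
          have h3 := hl.2 t (List.mem_of_getLast? ht)
          have h4 := T.nu_lt (hm.1.2.2.1 x hx).1 (hm.2 x hx)
          omega
      rw [LinearMap.sub_apply, LinearMap.add_apply, LinearMap.comp_apply, LinearMap.comp_apply,
        hd, map_zero, add_zero, LinearMap.id_apply] at h2
      exact h2
    obtain ⟨y, hy, hy'⟩ := ih h1 (by rw [map_sub, d_d, hd, sub_zero])
    refine ⟨T.V lam z - y, sub_mem (V_mem hlm hzB) hy, ?_⟩
    rw [map_sub, hy', sub_sub_cancel]

/-- The complex of the bounded chains in an interval is acyclic. -/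
theorem acyclic {mu : α} (hlm : lam ≤ mu) {k : ℕ} {z : Ch α} (hz : z ∈ Sp (T.B lam mu k))
    (hd : d z = 0) : ∃ y ∈ Sp (T.B lam mu (k + 1)), d y = z := by
  classical
  -- a bound for `nu`
  obtain ⟨n, hn⟩ : ∃ n : ℕ, ∀ l ∈ z.support, ∀ x ∈ l, T.nu lam x < n := by
    have key : ∀ s : Finset (List α), ∃ n : ℕ, ∀ l ∈ s, ∀ x ∈ l, T.nu lam x < n := by
      intro s
      induction s using Finset.induction_on with
      | empty => exact ⟨0, by simp⟩
      | insert l s _ ih =>
        obtain ⟨n, hn⟩ := ih
        refine ⟨max n ((l.map (T.nu lam)).sum + 1), fun l' hl' x hx => ?_⟩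
        rcases Finset.mem_insert.1 hl' with rfl | hl'
        · refine lt_of_lt_of_le (Nat.lt_succ_of_le ?_) (le_max_right _ _)
          exact List.single_le_sum (by simp) _ (List.mem_map.2 ⟨x, hx, rfl⟩)
        · exact lt_of_lt_of_le (hn l' hl' x hx) (le_max_left _ _)
    exact key z.support
  exact acyclic_aux hlm n (sp_mono (fun l hl => ⟨hl.1, hn l hl.2⟩)
    (sp_and hz (mem_sp_support z))) hd

end V

end Tog

end Pool.Agent.BB
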