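import Pool.Agent.Lib.MP_8f66f0_al_BB.Toggle
import Pool.Agent.Lib.MP_8f66f0_al_GLA.Toggle

/-! # The bounded chains of a toggle poset (project GLn, part BB2)

`Xi P q`: the bounded strict chains with `q + 1` elements, as ascending lists. -/

set_option autoImplicit false

namespace Pool.Agent.BB

open Pool.Agent.Kuhn Pool.Agent.GLA

section Poset

variable (P : Type) [TogglePoset P]

/-- The toggle data of a toggle poset. -/
def tog : Tog P where
  bd := TogglePoset.bd
  psi := TogglePoset.psi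
  nu := TogglePoset.nu
  bd_refl := TogglePoset.bd_refl
  bd_mono := fun h h1 h2 h3 => TogglePoset.bd_face _ _ _ _ h1 h2 h3 h
  le_psi := fun h => TogglePoset.le_psi _ _ h
  psi_eq := fun h h1 => TogglePoset.eq_of_psi _ _ h h1
  psi_bot := fun h _ h2 => TogglePoset.psi_bd _ _ _ h h2
  psi_bd := fun h => TogglePoset.bd_psi _ _ h
  nu_lt := fun h h1 => TogglePoset.nu_lt_right h h1

/-- Bounded strict chains. -/
def BCh (l : List P) : Prop :=
  l.Pairwise (· < ·) ∧ ∀ x ∈ l, ∀ y ∈ l, x ≤ y → TogglePoset.bd x y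

/-- The bounded strict chains with `q + 1` elements. -/
def Xi (q : ℕ) : Type := {l : List P // BCh P l ∧ l.length = q + 1}

variable {P}

namespace Xi

variable {q : ℕ}

theorem ne (ξ : Xi P q) : ξ.1 ≠ [] := by
  intro h
  have := ξ.2.2
  rw [h] at this
  simp at this

/-- The smallest element. -/
def bot (ξ : Xi P q) : P := ξ.1.head ξ.ne

/-- The largest element. -/
def top (ξ : Xi P q) : P := ξ.1.getLast ξ.ne

theorem bot_mem (ξ : Xi P q) : ξ.bot ∈ ξ.1 := List.head_mem _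

theorem top_mem (ξ : Xi P q) : ξ.top ∈ ξ.1 := List.getLast_mem _

theorem getLast? (ξ : Xi P q) : ξ.1.getLast? = some ξ.top := List.getLast?_eq_some_getLast _

theorem bot_le (ξ : Xi P q) {x : P} (hx : x ∈ ξ.1) : ξ.bot ≤ x := by
  obtain ⟨a, l, h⟩ : ∃ a l, ξ.1 = a :: l := List.exists_cons_of_ne_nil ξ.ne
  have h1 : ξ.bot = a := by
    unfold bot
    simp [h]
  have h2 := ξ.2.1.1
  rw [h] at h2 hx
  rw [h1]
  rcases List.mem_cons.1 hx with rfl | hx
  · exact le_rfl
  · exact ((List.pairwise_cons.1 h2).1 x hx).le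

theorem le_top (ξ : Xi P q) {x : P} (hx : x ∈ ξ.1) : x ≤ ξ.top := by
  have h := ξ.2.1.1
  rw [← List.dropLast_append_getLast ξ.ne] at h hx
  rcases List.mem_append.1 hx with h2 | h2
  · exact ((List.pairwise_append.1 h).2.2 x h2 _ (List.mem_singleton_self _)).le
  · exact (List.mem_singleton.1 h2).le

theorem bot_le_top (ξ : Xi P q) : ξ.bot ≤ ξ.top := ξ.bot_le ξ.top_mem

/-- The chains in an interval. -/
theorem B_iff (lam mu : P) (ξ : Xi P q) :
    (tog P).B lam mu (q + 1) ξ.1 ↔ lam ≤ ξ.bot ∧ ξ.top ≤ mu := by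
  refine ⟨fun h => ⟨(h.2.2.1 _ ξ.bot_mem).1, (h.2.2.1 _ ξ.top_mem).2⟩, fun h => ?_⟩
  exact ⟨ξ.2.1.1, ξ.2.1.2, fun x hx => ⟨h.1.trans (ξ.bot_le hx), (ξ.le_top hx).trans h.2⟩, ξ.2.2⟩

/-- A chain in an interval as an element of `Xi`. -/
def ofB {lam mu : P} {l : List P} (h : (tog P).B lam mu (q + 1) l) : Xi P q :=
  ⟨l, ⟨h.1, h.2.1⟩, h.2.2.2⟩

theorem len_nu : ∀ (l : List P) (a : P), (a :: l).Pairwise (· < ·) →
    ∀ t, (a :: l).getLast? = some t → a ≤ t ∧ l.length ≤ TogglePoset.nu a t := by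
  intro l
  induction l with
  | nil =>
    intro a _ t ht
    have h : a = t := by simpa using ht
    rw [h]
    exact ⟨le_rfl, Nat.zero_le _⟩
  | cons b l ih =>
    intro a h t ht
    rw [List.getLast?_cons_cons] at ht
    obtain ⟨h1, h2⟩ := ih b (List.pairwise_cons.1 h).2 t ht
    have h3 : a < b := (List.pairwise_cons.1 h).1 b List.mem_cons_self
    refine ⟨h3.le.trans h1, ?_⟩
    have h4 := TogglePoset.nu_lt_left h3 h1
    rw [List.length_cons]
    omega

/-- Bounded chains are short. -/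
theorem le_bnd (ξ : Xi P q) : q ≤ TogglePoset.bnd P := by
  obtain ⟨a, l, h⟩ : ∃ a l, ξ.1 = a :: l := List.exists_cons_of_ne_nil ξ.ne
  have h1 : (a :: l).Pairwise (· < ·) := by rw [← h]; exact ξ.2.1.1
  have h2 : (a :: l).getLast? = some ξ.top := by rw [← h]; exact ξ.getLast?
  obtain ⟨h3, h4⟩ := len_nu l a h1 ξ.top h2
  have h5 : a ∈ ξ.1 := by rw [h]; exact List.mem_cons_self
  have h6 := TogglePoset.bd_nu _ _ (ξ.2.1.2 a h5 ξ.top ξ.top_mem h3)
  have h7 := ξ.2.2
  rw [h, List.length_cons] at h7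
  omega

end Xi

section Act

variable {Γ : Type} [Group Γ] [ToggleAct Γ P]

theorem smul_lt (g : Γ) {x y : P} (h : x < y) : g • x < g • y :=
  lt_of_le_of_ne (ToggleAct.smul_mono g x y h.le) fun h1 => h.ne (MulAction.injective g h1)

theorem BCh.map (g : Γ) {l : List P} (h : BCh P l) : BCh P (l.map (g • ·)) := by
  refine ⟨?_, ?_⟩
  · rw [List.pairwise_map]
    exact h.1.imp fun {a b} hab => smul_lt g hab
  · intro x hx y hy hxy
    obtain ⟨x', hx', rfl⟩ := List.mem_map.1 hx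
    obtain ⟨y', hy', rfl⟩ := List.mem_map.1 hy
    exact ToggleAct.bd_smul g x' y' (h.2 x' hx' y' hy' ((ToggleAct.smul_le_iff g x' y').1 hxy))

variable {q : ℕ}

instance : MulAction Γ (Xi P q) where
  smul g ξ := ⟨ξ.1.map (g • ·), ξ.2.1.map g, by rw [List.length_map]; exact ξ.2.2⟩
  one_smul ξ := Subtype.ext (by
    change ξ.1.map ((1 : Γ) • ·) = ξ.1
    simp)
  mul_smul g h ξ := Subtype.ext (by
    change ξ.1.map ((g * h) • ·) = (ξ.1.map (h • ·)).map (g • ·)
    rw [List.map_map]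
    exact List.map_congr_left fun x _ => mul_smul g h x)

theorem Xi.smul_val (g : Γ) (ξ : Xi P q) : (g • ξ).1 = ξ.1.map (g • ·) := rfl

theorem Xi.bot_smul (g : Γ) (ξ : Xi P q) : (g • ξ).bot = g • ξ.bot := by
  unfold Xi.bot
  have h : (g • ξ).1 = ξ.1.map (g • ·) := rfl
  simp only [h, List.head_map]

theorem Xi.top_smul (g : Γ) (ξ : Xi P q) : (g • ξ).top = g • ξ.top := by
  unfold Xi.top
  have h : (g • ξ).1 = ξ.1.map (g • ·) := rfl
  simp only [h, List.getLast_map]

end Act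

end Poset

end Pool.Agent.BB
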